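import Mathlib

/-!
Definitions used in the statement on the Kiefer-Wolfowitz workload chain (MP_a2bed5_pr).
-/

open MeasureTheory

namespace Pool.Agent.Helper97.KW

/-- The increasing rearrangement of a vector of `k` real numbers. -/
noncomputable def sortVec {k : ℕ} (v : Fin k → ℝ) : Fin k → ℝ := v ∘ Tuple.sort v

/-- The (unsorted) loads seen by the next arriving customer: the arriving customer with service
requirement `s` joins server `0` (the least loaded one when `w` is increasing), then `t` units of
time elapse. -/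
noncomputable def rawStep {k : ℕ} (w : Fin k → ℝ) (s t : ℝ) : Fin k → ℝ :=
  fun j => max 0 ((if (j : ℕ) = 0 then w j + s else w j) - t)

/-- One step of the Kiefer-Wolfowitz recursion. -/
noncomputable def kwStep {k : ℕ} (w : Fin k → ℝ) (s t : ℝ) : Fin k → ℝ := sortVec (rawStep w s t)

/-- `π` is a stationary distribution of the Kiefer-Wolfowitz workload chain with service-time law
`μS` and interarrival-time law `μT`. -/
def IsStationary (k : ℕ) (μS μT : Measure ℝ) (π : Measure (Fin k → ℝ)) : Prop :=
  IsProbabilityMeasure π ∧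
    Measure.map (fun p : (Fin k → ℝ) × (ℝ × ℝ) => kwStep p.1 p.2.1 p.2.2)
      (π.prod (μS.prod μT)) = π

/-- A finite sequence `a 0, ..., a (k-1)` is convex: `a (i-1) + a (i+1) ≥ 2 a i` for every
interior index `i`. -/
def IsConvexSeq {k : ℕ} (a : Fin k → ℝ) : Prop :=
  ∀ i : ℕ, ∀ (_ : 0 < i) (h : i + 1 < k),
    2 * a ⟨i, by omega⟩ ≤ a ⟨i - 1, by omega⟩ + a ⟨i + 1, h⟩

end Pool.Agent.Helper97.KW
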