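import Pool.Agent.Helper97.KWDefs

/-!
# Convexity of the mean workloads in the GI/GI/k queue

Paper proof.  Let `W` be stationary, `N(x) = #{j : W_j ≤ x}` and, for `1 ≤ l ≤ k-1`,
`m_l = E W_{l+1} - E W_l = ∫ P(N(x) = l) dx` (indices starting from `1`).  Convexity is
`m_l ≤ m_{l+1}` for `1 ≤ l ≤ k-2`.  Put `G(z) = P(S > z)`.
Follow a level `x` of the workload axis along one step of the chain (`x ↦ x - T`): the number `N`
of servers below the level drops by one exactly when `S > x - W_1`, and the lag `x - W_1` never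
increases.  Hence for every nondecreasing `ψ`, stationarity of
`∫ 1[N(x) = l] ψ(x - W_1) dx` gives
`E ∫ 1[N(x) = l] G ψ (x - W_1) dx ≤ E ∫ 1[N(x) = l+1] G ψ (x - W_1) dx`,
and `ψ = min (n, 1/G)`, `n → ∞`, gives `E ∫ 1[N(x) = l, G(x - W_1) > 0] dx ≤ m_{l+1}`.
A second potential shows that the set where `N(x) = l` and `G(x - W_1) = 0` is null.
Finiteness of the means follows from the Lyapunov function `∑ W_j ^ 2`.
-/

open MeasureTheory ProbabilityTheory Set
open scoped ENNReal

namespace Pool.Agent.Helper97.KW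

/-! ### Counting function -/

/-- number of coordinates that are at most `x`. -/
noncomputable def cnt {k : ℕ} (w : Fin k → ℝ) (x : ℝ) : ℕ :=
  ∑ j : Fin k, if w j ≤ x then 1 else 0

lemma cnt_comp_perm {k : ℕ} (w : Fin k → ℝ) (σ : Equiv.Perm (Fin k)) (x : ℝ) :
    cnt (w ∘ σ) x = cnt w x := by
  unfold cnt
  exact Equiv.sum_comp σ (fun j => if w j ≤ x then 1 else 0)

lemma cnt_sortVec {k : ℕ} (w : Fin k → ℝ) (x : ℝ) : cnt (sortVec w) x = cnt w x :=
  cnt_comp_perm w _ x

lemma monotone_sortVec {k : ℕ} (w : Fin k → ℝ) : Monotone (sortVec w) :=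
  Tuple.monotone_sort w

lemma cnt_eq_card {k : ℕ} (w : Fin k → ℝ) (x : ℝ) :
    cnt w x = (Finset.univ.filter (fun j => w j ≤ x)).card := by
  unfold cnt
  rw [Finset.card_filter]

/-- for increasing `w`: `w j ≤ x` iff more than `j` coordinates are at most `x`. -/
lemma le_iff_lt_cnt {k : ℕ} {w : Fin k → ℝ} (hw : Monotone w) (j : Fin k) (x : ℝ) :
    w j ≤ x ↔ (j : ℕ) < cnt w x := by
  rw [cnt_eq_card]
  constructor
  · intro h
    have hsub : Finset.univ.filter (fun i : Fin k => i ≤ j) ⊆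
        Finset.univ.filter (fun i => w i ≤ x) := by
      intro i hi
      simp only [Finset.mem_filter, Finset.mem_univ, true_and] at hi ⊢
      exact (hw hi).trans h
    have := Finset.card_le_card hsub
    have hc : (Finset.univ.filter (fun i : Fin k => i ≤ j)).card = (j : ℕ) + 1 := by
      have : (Finset.univ.filter (fun i : Fin k => i ≤ j)) = Finset.Iic j := by
        ext i; simp
      rw [this, Fin.card_Iic]
    omega
  · intro h
    by_contra hx
    rw [not_le] at hx
    have hsub : Finset.univ.filter (fun i => w i ≤ x) ⊆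
        Finset.univ.filter (fun i : Fin k => i < j) := by
      intro i hi
      simp only [Finset.mem_filter, Finset.mem_univ, true_and] at hi ⊢
      by_contra hij
      rw [not_lt] at hij
      exact absurd (hw hij) (not_le.mpr (lt_of_le_of_lt hi hx))
    have := Finset.card_le_card hsub
    have hc : (Finset.univ.filter (fun i : Fin k => i < j)).card = (j : ℕ) := by
      have : (Finset.univ.filter (fun i : Fin k => i < j)) = Finset.Iio j := by
        ext i; simp
      rw [this, Fin.card_Iio]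
    omega

lemma measurable_cnt {k : ℕ} :
    Measurable (fun p : (Fin k → ℝ) × ℝ => cnt p.1 p.2) := by
  unfold cnt
  refine Finset.measurable_sum _ (fun j _ => ?_)
  refine Measurable.ite ?_ measurable_const measurable_const
  exact measurableSet_le ((measurable_pi_apply j).comp measurable_fst) measurable_snd

lemma measurable_sortVec {k : ℕ} : Measurable (sortVec (k := k)) := by
  rw [measurable_pi_iff]
  intro j
  refine measurable_of_Iic (fun x => ?_)
  have : (fun w : Fin k → ℝ => sortVec w j) ⁻¹' Iic x = {w | (j : ℕ) < cnt w x} := by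
    ext w
    simp only [mem_preimage, mem_Iic, mem_ofPred_eq]
    rw [le_iff_lt_cnt (monotone_sortVec w), cnt_sortVec]
  rw [this]
  have h1 : Measurable (fun w : Fin k → ℝ => cnt w x) :=
    measurable_cnt.comp (measurable_id.prodMk measurable_const)
  exact measurableSet_lt measurable_const h1

lemma measurable_kwStep {k : ℕ} :
    Measurable (fun p : (Fin k → ℝ) × (ℝ × ℝ) => kwStep p.1 p.2.1 p.2.2) := by
  unfold kwStep
  refine measurable_sortVec.comp ?_
  rw [measurable_pi_iff]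
  intro j
  unfold rawStep
  refine Measurable.max measurable_const ?_
  by_cases h : (j : ℕ) = 0
  · simp only [h, if_true]
    fun_prop
  · simp only [h, if_false]
    fun_prop

/-! ### Pathwise facts -/

lemma rawStep_nonneg {k : ℕ} (w : Fin k → ℝ) (s t : ℝ) (j : Fin k) : 0 ≤ rawStep w s t j :=
  le_max_left _ _

lemma kwStep_nonneg {k : ℕ} (w : Fin k → ℝ) (s t : ℝ) (j : Fin k) : 0 ≤ kwStep w s t j :=
  rawStep_nonneg w s t _

lemma kwStep_monotone {k : ℕ} (w : Fin k → ℝ) (s t : ℝ) : Monotone (kwStep w s t) :=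
  monotone_sortVec _

lemma kwStep_lower {k : ℕ} {w : Fin k → ℝ} (hw : Monotone w) {s t : ℝ} (hs : 0 ≤ s)
    (z : Fin k) (hz : (z : ℕ) = 0) (j : Fin k) : w z - t ≤ kwStep w s t j := by
  unfold kwStep sortVec rawStep
  simp only [Function.comp]
  refine le_trans ?_ (le_max_right _ _)
  have hmin : ∀ i : Fin k, w z ≤ w i := fun i => hw (by
    rw [Fin.le_def, hz]; exact Nat.zero_le _)
  split_ifs with h
  · linarith [hmin (Tuple.sort (fun j => max 0 ((if (j : ℕ) = 0 then w j + s else w j) - t)) j)]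
  · linarith [hmin (Tuple.sort (fun j => max 0 ((if (j : ℕ) = 0 then w j + s else w j) - t)) j)]

lemma cnt_kwStep_neg {k : ℕ} (w : Fin k → ℝ) (s t : ℝ) {y : ℝ} (hy : y < 0) :
    cnt (kwStep w s t) y = 0 := by
  unfold cnt
  refine Finset.sum_eq_zero (fun j _ => ?_)
  rw [if_neg]
  exact not_le.mpr (lt_of_lt_of_le hy (kwStep_nonneg w s t j))

lemma cnt_kwStep {k : ℕ} (w : Fin k → ℝ) {s t : ℝ} (hs : 0 ≤ s) {y : ℝ} (hy : 0 ≤ y)
    (z : Fin k) (hz : (z : ℕ) = 0) :
    cnt (kwStep w s t) y + (if w z ≤ y + t ∧ y + t < w z + s then 1 else 0) = cnt w (y + t) := by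
  unfold kwStep
  rw [cnt_sortVec]
  unfold cnt
  have h1 : (if w z ≤ y + t ∧ y + t < w z + s then 1 else 0) =
      ∑ j : Fin k, if j = z then (if w z ≤ y + t ∧ y + t < w z + s then 1 else 0) else 0 := by
    rw [Finset.sum_ite_eq' Finset.univ z]
    simp
  rw [h1, ← Finset.sum_add_distrib]
  refine Finset.sum_congr rfl (fun j _ => ?_)
  unfold rawStep
  by_cases hj : j = z
  · subst hj
    simp only [hz, if_true]
    by_cases ha : w j + s ≤ y + t
    · have hb : w j ≤ y + t := by linarith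
      have hc : max 0 (w j + s - t) ≤ y := max_le hy (by linarith)
      have hd : ¬ (w j ≤ y + t ∧ y + t < w j + s) := by
        rintro ⟨_, h⟩; linarith
      rw [if_pos hc, if_neg hd, if_pos hb]
    · have hc : ¬ (max 0 (w j + s - t) ≤ y) := by
        intro h
        have := (le_max_right 0 (w j + s - t)).trans h
        exact ha (by linarith)
      rw [not_le] at ha
      by_cases hb : w j ≤ y + t
      · rw [if_neg hc, if_pos ⟨hb, ha⟩, if_pos hb]
      · rw [if_neg hc, if_neg (fun h => hb h.1), if_neg hb]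
  · have hj0 : (j : ℕ) ≠ 0 := by
      intro h
      exact hj (Fin.ext (by rw [h, hz]))
    simp only [hj0, if_false, hj, add_zero]
    by_cases hb : w j ≤ y + t
    · have hc : max 0 (w j - t) ≤ y := max_le hy (by linarith)
      rw [if_pos hc, if_pos hb]
    · have hc : ¬ (max 0 (w j - t) ≤ y) := by
        intro h
        have := (le_max_right 0 (w j - t)).trans h
        exact hb (by linarith)
      rw [if_neg hc, if_neg hb]

/-- The main pathwise inequality. -/
lemma path_ineq {k : ℕ} {w : Fin k → ℝ} (hw : Monotone w) {s t : ℝ} (hs : 0 ≤ s)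
    (z : Fin k) (hz : (z : ℕ) = 0) {l : ℕ} (hl : 1 ≤ l) (Ψ : ℝ → ℝ → ℝ≥0∞)
    (hΨ : ∀ y a b, a ≤ b → Ψ y a ≤ Ψ y b) (y : ℝ) :
    (if cnt (kwStep w s t) y = l then Ψ y (y - kwStep w s t z) else 0) ≤
      (if cnt w (y + t) = l ∧ s ≤ (y + t) - w z then Ψ y ((y + t) - w z) else 0) +
      (if cnt w (y + t) = l + 1 ∧ (y + t) - w z < s then Ψ y ((y + t) - w z) else 0) := by
  by_cases hc : cnt (kwStep w s t) y = l
  · rw [if_pos hc]
    have hy : 0 ≤ y := by
      by_contra h
      rw [not_le] at h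
      rw [cnt_kwStep_neg w s t h] at hc
      omega
    have hstep := cnt_kwStep w (t := t) hs hy z hz
    rw [hc] at hstep
    have hmono : Ψ y (y - kwStep w s t z) ≤ Ψ y ((y + t) - w z) := by
      apply hΨ
      have := kwStep_lower (t := t) hw hs z hz z
      linarith
    have hwz : w z ≤ y + t := by
      rw [le_iff_lt_cnt hw, hz]
      omega
    by_cases hD : y + t < w z + s
    · rw [if_pos ⟨hwz, hD⟩] at hstep
      refine hmono.trans ?_
      rw [if_pos (show cnt w (y + t) = l + 1 ∧ (y + t) - w z < s from ⟨hstep.symm, by linarith⟩)]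
      exact le_add_self
    · rw [if_neg (fun h => hD h.2)] at hstep
      rw [not_lt] at hD
      refine hmono.trans ?_
      rw [if_pos (show cnt w (y + t) = l ∧ s ≤ (y + t) - w z from ⟨hstep.symm, by linarith⟩)]
      exact le_self_add
  · rw [if_neg hc]
    exact zero_le

/-! ### Integrated inequality -/

section Integrated

variable {k : ℕ} {μS μT : Measure ℝ} {π : Measure (Fin k → ℝ)}

lemma IsStationary.lintegral_eq (hπ : IsStationary k μS μT π) {f : (Fin k → ℝ) → ℝ≥0∞}
    (hf : Measurable f) :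
    ∫⁻ w, f w ∂π = ∫⁻ p, f (kwStep p.1 p.2.1 p.2.2) ∂(π.prod (μS.prod μT)) := by
  conv_lhs => rw [← hπ.2]
  rw [lintegral_map hf measurable_kwStep]

lemma IsStationary.ae_of_forall (hπ : IsStationary k μS μT π) {q : (Fin k → ℝ) → Prop}
    (hq : MeasurableSet {w | q w}) (h : ∀ w s t, q (kwStep w s t)) : ∀ᵐ w ∂π, q w := by
  rw [← hπ.2, ae_map_iff measurable_kwStep.aemeasurable hq]
  exact Filter.Eventually.of_forall (fun p => h _ _ _)

lemma IsStationary.ae_monotone (hπ : IsStationary k μS μT π) : ∀ᵐ w ∂π, Monotone w := by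
  have h : ∀ᵐ w ∂π, ∀ i j : Fin k, i ≤ j → w i ≤ w j := by
    rw [ae_all_iff]
    intro i
    rw [ae_all_iff]
    intro j
    by_cases hij : i ≤ j
    · have : ∀ᵐ w ∂π, w i ≤ w j :=
        hπ.ae_of_forall (measurableSet_le (measurable_pi_apply i) (measurable_pi_apply j))
          (fun w s t => kwStep_monotone w s t hij)
      filter_upwards [this] with w hw _ using hw
    · exact Filter.Eventually.of_forall (fun w h => absurd h hij)
  filter_upwards [h] with w hw i j hij using hw i j hij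

lemma IsStationary.ae_nonneg (hπ : IsStationary k μS μT π) : ∀ᵐ w ∂π, ∀ j, 0 ≤ w j := by
  rw [ae_all_iff]
  intro j
  exact hπ.ae_of_forall (measurableSet_le measurable_const (measurable_pi_apply j))
    (fun w s t => kwStep_nonneg w s t j)

lemma measurable_level (l : ℕ) {Ψ : ℝ → ℝ → ℝ≥0∞} (hΨm : Measurable (Function.uncurry Ψ))
    (z : Fin k) :
    Measurable (fun p : (Fin k → ℝ) × ℝ => if cnt p.1 p.2 = l then Ψ p.2 (p.2 - p.1 z) else 0) := by
  refine Measurable.ite ?_ ?_ measurable_const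
  · exact measurable_cnt (measurableSet_singleton l)
  · exact hΨm.comp (measurable_snd.prodMk
      (measurable_snd.sub ((measurable_pi_apply z).comp measurable_fst)))

lemma stepA (hπ : IsStationary k μS μT π) [SFinite μS] [SFinite μT]
    (hS0 : ∀ᵐ s ∂μS, 0 ≤ s)
    (z : Fin k) (hz : (z : ℕ) = 0) {l : ℕ} (hl : 1 ≤ l) (Ψ : ℝ → ℝ → ℝ≥0∞)
    (hΨm : Measurable (Function.uncurry Ψ))
    (hΨ : ∀ y a b, a ≤ b → Ψ y a ≤ Ψ y b) :
    ∫⁻ w, (∫⁻ y, (if cnt w y = l then Ψ y (y - w z) else 0)) ∂π ≤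
      ∫⁻ p, (∫⁻ x, ((if cnt p.1 x = l ∧ p.2.1 ≤ x - p.1 z then Ψ (x - p.2.2) (x - p.1 z) else 0) +
        (if cnt p.1 x = l + 1 ∧ x - p.1 z < p.2.1 then Ψ (x - p.2.2) (x - p.1 z) else 0)))
        ∂(π.prod (μS.prod μT)) := by
  have hprob : IsProbabilityMeasure π := hπ.1
  rw [hπ.lintegral_eq (Measurable.lintegral_prod_right' (measurable_level l hΨm z))]
  refine lintegral_mono_ae ?_
  have h1 : ∀ᵐ p ∂(π.prod (μS.prod μT)), Monotone p.1 :=
    Measure.quasiMeasurePreserving_fst.ae hπ.ae_monotone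
  have h2 : ∀ᵐ p ∂(π.prod (μS.prod μT)), 0 ≤ p.2.1 :=
    Measure.quasiMeasurePreserving_snd.ae (Measure.quasiMeasurePreserving_fst.ae hS0)
  filter_upwards [h1, h2] with p hp1 hp2
  calc ∫⁻ y, (if cnt (kwStep p.1 p.2.1 p.2.2) y = l then Ψ y (y - kwStep p.1 p.2.1 p.2.2 z) else 0)
      ≤ ∫⁻ y, ((if cnt p.1 (y + p.2.2) = l ∧ p.2.1 ≤ (y + p.2.2) - p.1 z
            then Ψ ((y + p.2.2) - p.2.2) ((y + p.2.2) - p.1 z) else 0) +
        (if cnt p.1 (y + p.2.2) = l + 1 ∧ (y + p.2.2) - p.1 z < p.2.1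
            then Ψ ((y + p.2.2) - p.2.2) ((y + p.2.2) - p.1 z) else 0)) := by
        refine lintegral_mono (fun y => ?_)
        simp only [add_sub_cancel_right]
        exact path_ineq hp1 hp2 z hz hl Ψ hΨ y
    _ = _ := by
        exact lintegral_add_right_eq_self (μ := (volume : Measure ℝ)) (fun x =>
          ((if cnt p.1 x = l ∧ p.2.1 ≤ x - p.1 z then Ψ (x - p.2.2) (x - p.1 z) else 0) +
        (if cnt p.1 x = l + 1 ∧ x - p.1 z < p.2.1 then Ψ (x - p.2.2) (x - p.1 z) else 0))) p.2.2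


lemma tonelli3 [IsProbabilityMeasure π] [SFinite μS] [SFinite μT]
    (Q : ((Fin k → ℝ) × (ℝ × ℝ)) → ℝ → ℝ≥0∞) (hQ : Measurable (Function.uncurry Q)) :
    ∫⁻ p, (∫⁻ x, Q p x) ∂(π.prod (μS.prod μT)) =
      ∫⁻ w, (∫⁻ x, (∫⁻ q, Q (w, q) x ∂(μS.prod μT))) ∂π := by
  have h1 : Measurable (fun p : (Fin k → ℝ) × (ℝ × ℝ) => ∫⁻ x, Q p x) :=
    Measurable.lintegral_prod_right' hQ
  rw [lintegral_prod _ h1.aemeasurable]
  refine lintegral_congr (fun w => ?_)
  rw [lintegral_lintegral_swap]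
  refine Measurable.aemeasurable ?_
  exact hQ.comp ((measurable_const.prodMk measurable_fst).prodMk measurable_snd)

lemma measurable_tail_le [SFinite μS] : Measurable (fun z : ℝ => μS (Iic z)) :=
  Monotone.measurable (fun _ _ h => measure_mono (Iic_subset_Iic.mpr h))

lemma measurable_tail_gt : Measurable (fun z : ℝ => μS (Ioi z)) :=
  Antitone.measurable (fun _ _ h => measure_mono (Ioi_subset_Ioi h))

lemma stepB (hπ : IsStationary k μS μT π) [IsProbabilityMeasure μS] [IsProbabilityMeasure μT]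
    (hS0 : ∀ᵐ s ∂μS, 0 ≤ s)
    (z : Fin k) (hz : (z : ℕ) = 0) {l : ℕ} (hl : 1 ≤ l) (ψ : ℝ → ℝ≥0∞)
    (hψm : Measurable ψ) (hψ : Monotone ψ) :
    ∫⁻ w, (∫⁻ y, (if cnt w y = l then ψ (y - w z) else 0)) ∂π ≤
      ∫⁻ w, (∫⁻ y, (if cnt w y = l then ψ (y - w z) * μS (Iic (y - w z)) else 0)) ∂π +
      ∫⁻ w, (∫⁻ y, (if cnt w y = l + 1 then ψ (y - w z) * μS (Ioi (y - w z)) else 0)) ∂π := by
  have hprob : IsProbabilityMeasure π := hπ.1
  have hA := stepA hπ hS0 z hz hl (fun _ a => ψ a) (hψm.comp measurable_snd)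
    (fun _ a b h => hψ h)
  refine hA.trans ?_
  have hms : Measurable (fun r : ((Fin k → ℝ) × (ℝ × ℝ)) × ℝ => r.1.2.1) := by fun_prop
  have hmz : Measurable (fun r : ((Fin k → ℝ) × (ℝ × ℝ)) × ℝ => r.2 - r.1.1 z) := by
    exact measurable_snd.sub ((measurable_pi_apply z).comp (measurable_fst.comp measurable_fst))
  have hmc : Measurable (fun r : ((Fin k → ℝ) × (ℝ × ℝ)) × ℝ => cnt r.1.1 r.2) :=
    measurable_cnt.comp ((measurable_fst.comp measurable_fst).prodMk measurable_snd)
  have hm1 : Measurable (fun r : ((Fin k → ℝ) × (ℝ × ℝ)) × ℝ =>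
      if cnt r.1.1 r.2 = l ∧ r.1.2.1 ≤ r.2 - r.1.1 z then ψ (r.2 - r.1.1 z) else 0) := by
    refine Measurable.ite ?_ (hψm.comp hmz) measurable_const
    exact (hmc (measurableSet_singleton l)).inter (measurableSet_le hms hmz)
  have hm2 : Measurable (fun r : ((Fin k → ℝ) × (ℝ × ℝ)) × ℝ =>
      if cnt r.1.1 r.2 = l + 1 ∧ r.2 - r.1.1 z < r.1.2.1 then ψ (r.2 - r.1.1 z) else 0) := by
    refine Measurable.ite ?_ (hψm.comp hmz) measurable_const
    exact (hmc (measurableSet_singleton (l+1))).inter (measurableSet_lt hmz hms)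
  rw [tonelli3 (fun p x => ((if cnt p.1 x = l ∧ p.2.1 ≤ x - p.1 z then ψ (x - p.1 z) else 0) +
        (if cnt p.1 x = l + 1 ∧ x - p.1 z < p.2.1 then ψ (x - p.1 z) else 0))) (hm1.add hm2)]
  rw [← lintegral_add_left]
  swap
  · refine Measurable.lintegral_prod_right' (f := fun p : (Fin k → ℝ) × ℝ =>
      if cnt p.1 p.2 = l then ψ (p.2 - p.1 z) * μS (Iic (p.2 - p.1 z)) else 0) ?_
    refine Measurable.ite (measurable_cnt (measurableSet_singleton l)) ?_ measurable_const
    have hz' : Measurable (fun p : (Fin k → ℝ) × ℝ => p.2 - p.1 z) :=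
      measurable_snd.sub ((measurable_pi_apply z).comp measurable_fst)
    exact (hψm.comp hz').mul (measurable_tail_le.comp hz')
  refine lintegral_mono (fun w => ?_)
  simp only
  rw [← lintegral_add_left]
  swap
  · refine Measurable.ite ?_ ?_ measurable_const
    · have : Measurable (fun y : ℝ => cnt w y) :=
        measurable_cnt.comp (measurable_const.prodMk measurable_id)
      exact this (measurableSet_singleton l)
    · have hz' : Measurable (fun y : ℝ => y - w z) := measurable_id.sub measurable_const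
      exact (hψm.comp hz').mul (measurable_tail_le.comp hz')
  refine lintegral_mono (fun x => ?_)
  simp only
  rw [lintegral_add_left]
  swap
  · refine Measurable.ite ?_ measurable_const measurable_const
    exact MeasurableSet.inter (MeasurableSet.const _) (measurableSet_le measurable_fst measurable_const)
  refine add_le_add ?_ ?_
  · by_cases hc : cnt w x = l
    · simp only [hc, true_and, if_true]
      have : ∫⁻ q : ℝ × ℝ, (if q.1 ≤ x - w z then ψ (x - w z) else 0) ∂(μS.prod μT) =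
          ψ (x - w z) * μS (Iic (x - w z)) := by
        have e : (fun q : ℝ × ℝ => if q.1 ≤ x - w z then ψ (x - w z) else 0) =
            (Iic (x - w z) ×ˢ (univ : Set ℝ)).indicator (fun _ => ψ (x - w z)) := by
          funext q
          simp [Set.indicator_apply]
        rw [e, lintegral_indicator_const (measurableSet_Iic.prod MeasurableSet.univ),
          Measure.prod_prod, measure_univ, mul_one]
      rw [this]
    · simp [hc]
  · by_cases hc : cnt w x = l + 1
    · simp only [hc, true_and, if_true]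
      have : ∫⁻ q : ℝ × ℝ, (if x - w z < q.1 then ψ (x - w z) else 0) ∂(μS.prod μT) =
          ψ (x - w z) * μS (Ioi (x - w z)) := by
        have e : (fun q : ℝ × ℝ => if x - w z < q.1 then ψ (x - w z) else 0) =
            (Ioi (x - w z) ×ˢ (univ : Set ℝ)).indicator (fun _ => ψ (x - w z)) := by
          funext q
          simp [Set.indicator_apply]
        rw [e, lintegral_indicator_const (measurableSet_Ioi.prod MeasurableSet.univ),
          Measure.prod_prod, measure_univ, mul_one]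
      rw [this]
    · simp [hc]


lemma measurable_lag (z : Fin k) : Measurable (fun p : (Fin k → ℝ) × ℝ => p.2 - p.1 z) :=
  measurable_snd.sub ((measurable_pi_apply z).comp measurable_fst)

lemma stepC1 (hπ : IsStationary k μS μT π) [IsProbabilityMeasure μS] [IsProbabilityMeasure μT]
    (hS0 : ∀ᵐ s ∂μS, 0 ≤ s)
    (z : Fin k) (hz : (z : ℕ) = 0) {l : ℕ} (hl : 1 ≤ l)
    (hfin : ∫⁻ w, (∫⁻ y, (if cnt w y = l then 1 else 0)) ∂π ≠ ∞) (n : ℕ) :
    ∫⁻ w, (∫⁻ y, (if cnt w y = l then
        min (n : ℝ≥0∞) (μS (Ioi (y - w z)))⁻¹ * μS (Ioi (y - w z)) else 0)) ∂π ≤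
      ∫⁻ w, (∫⁻ y, (if cnt w y = l + 1 then 1 else 0)) ∂π := by
  have hprob : IsProbabilityMeasure π := hπ.1
  set ψ : ℝ → ℝ≥0∞ := fun a => min (n : ℝ≥0∞) (μS (Ioi a))⁻¹ with hψdef
  have hψmono : Monotone ψ := by
    intro a b hab
    exact min_le_min_left _ (ENNReal.inv_le_inv.mpr (measure_mono (Ioi_subset_Ioi hab)))
  have hψm : Measurable ψ := hψmono.measurable
  have hB := stepB hπ hS0 z hz hl ψ hψm hψmono
  have hlag := measurable_lag (k := k) z
  have hcl : ∀ j : ℕ, MeasurableSet {p : (Fin k → ℝ) × ℝ | cnt p.1 p.2 = j} :=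
    fun j => measurable_cnt (measurableSet_singleton j)
  have hmH : Measurable (fun p : (Fin k → ℝ) × ℝ =>
      if cnt p.1 p.2 = l then ψ (p.2 - p.1 z) * μS (Iic (p.2 - p.1 z)) else 0) :=
    Measurable.ite (hcl l) ((hψm.comp hlag).mul (measurable_tail_le.comp hlag)) measurable_const
  have hmG : Measurable (fun p : (Fin k → ℝ) × ℝ =>
      if cnt p.1 p.2 = l then ψ (p.2 - p.1 z) * μS (Ioi (p.2 - p.1 z)) else 0) :=
    Measurable.ite (hcl l) ((hψm.comp hlag).mul (measurable_tail_gt.comp hlag)) measurable_const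
  have hsplit : ∫⁻ w, (∫⁻ y, (if cnt w y = l then ψ (y - w z) else 0)) ∂π =
      ∫⁻ w, (∫⁻ y, (if cnt w y = l then ψ (y - w z) * μS (Iic (y - w z)) else 0)) ∂π +
      ∫⁻ w, (∫⁻ y, (if cnt w y = l then ψ (y - w z) * μS (Ioi (y - w z)) else 0)) ∂π := by
    rw [← lintegral_add_left (Measurable.lintegral_prod_right' hmH)]
    refine lintegral_congr (fun w => ?_)
    have hmw : Measurable
        (fun y : ℝ => if cnt w y = l then ψ (y - w z) * μS (Iic (y - w z)) else 0) :=
      hmH.comp (measurable_const.prodMk measurable_id)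
    dsimp only
    rw [← lintegral_add_left hmw]
    refine lintegral_congr (fun y => ?_)
    by_cases hc : cnt w y = l
    · simp only [hc, if_true]
      rw [← mul_add]
      have : μS (Iic (y - w z)) + μS (Ioi (y - w z)) = 1 := by
        rw [← compl_Iic, prob_add_prob_compl measurableSet_Iic]
      rw [this, mul_one]
    · simp [hc]
  rw [hsplit] at hB
  have hψn : ∀ a, ψ a ≤ n := fun a => min_le_left _ _
  have hHfin : ∫⁻ w, (∫⁻ y, (if cnt w y = l then ψ (y - w z) * μS (Iic (y - w z)) else 0)) ∂π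
      ≠ ∞ := by
    refine ne_top_of_le_ne_top (ENNReal.mul_ne_top (ENNReal.natCast_ne_top n) hfin) ?_
    rw [← lintegral_const_mul' _ _ (ENNReal.natCast_ne_top n)]
    refine lintegral_mono (fun w => ?_)
    simp only
    rw [← lintegral_const_mul' _ _ (ENNReal.natCast_ne_top n)]
    refine lintegral_mono (fun y => ?_)
    simp only
    by_cases hc : cnt w y = l
    · simp only [hc, if_true]
      exact mul_le_mul' (hψn _) prob_le_one
    · simp [hc]
  have hC := (ENNReal.add_le_add_iff_left hHfin).mp hB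
  refine hC.trans ?_
  refine lintegral_mono (fun w => lintegral_mono (fun y => ?_))
  simp only
  by_cases hc : cnt w y = l + 1
  · simp only [hc, if_true]
    calc ψ (y - w z) * μS (Ioi (y - w z)) ≤ (μS (Ioi (y - w z)))⁻¹ * μS (Ioi (y - w z)) :=
          mul_le_mul' (min_le_right _ _) le_rfl
      _ ≤ 1 := ENNReal.inv_mul_le_one _
  · simp [hc]

lemma stepC (hπ : IsStationary k μS μT π) [IsProbabilityMeasure μS] [IsProbabilityMeasure μT]
    (hS0 : ∀ᵐ s ∂μS, 0 ≤ s)
    (z : Fin k) (hz : (z : ℕ) = 0) {l : ℕ} (hl : 1 ≤ l)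
    (hfin : ∫⁻ w, (∫⁻ y, (if cnt w y = l then 1 else 0)) ∂π ≠ ∞) :
    ∫⁻ w, (∫⁻ y, (if cnt w y = l ∧ μS (Ioi (y - w z)) ≠ 0 then 1 else 0)) ∂π ≤
      ∫⁻ w, (∫⁻ y, (if cnt w y = l + 1 then 1 else 0)) ∂π := by
  have hprob : IsProbabilityMeasure π := hπ.1
  have hlag := measurable_lag (k := k) z
  have hcl : MeasurableSet {p : (Fin k → ℝ) × ℝ | cnt p.1 p.2 = l} :=
    measurable_cnt (measurableSet_singleton l)
  set g : ℕ → (Fin k → ℝ) × ℝ → ℝ≥0∞ := fun n p => if cnt p.1 p.2 = l then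
        min (n : ℝ≥0∞) (μS (Ioi (p.2 - p.1 z)))⁻¹ * μS (Ioi (p.2 - p.1 z)) else 0 with hg
  have hgm : ∀ n, Measurable (g n) := by
    intro n
    refine Measurable.ite hcl ?_ measurable_const
    have hG : Measurable (fun p : (Fin k → ℝ) × ℝ => μS (Ioi (p.2 - p.1 z))) :=
      measurable_tail_gt.comp hlag
    exact (measurable_const.min hG.inv).mul hG
  have hgmono : Monotone g := by
    intro a b hab p
    simp only [hg]
    by_cases hc : cnt p.1 p.2 = l
    · simp only [hc, if_true]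
      exact mul_le_mul' (min_le_min_right _ (by exact_mod_cast hab)) le_rfl
    · simp [hc]
  have hle : ∀ n, ∫⁻ r, g n r ∂(π.prod volume) ≤
      ∫⁻ w, (∫⁻ y, (if cnt w y = l + 1 then 1 else 0)) ∂π := by
    intro n
    rw [lintegral_prod _ (hgm n).aemeasurable]
    exact stepC1 hπ hS0 z hz hl hfin n
  have hm0 : Measurable (fun p : (Fin k → ℝ) × ℝ =>
      (if cnt p.1 p.2 = l ∧ μS (Ioi (p.2 - p.1 z)) ≠ 0 then 1 else 0 : ℝ≥0∞)) := by
    refine Measurable.ite ?_ measurable_const measurable_const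
    exact hcl.inter ((measurable_tail_gt.comp hlag) (measurableSet_singleton 0)).compl
  calc ∫⁻ w, (∫⁻ y, (if cnt w y = l ∧ μS (Ioi (y - w z)) ≠ 0 then 1 else 0)) ∂π
      = ∫⁻ r, (if cnt r.1 r.2 = l ∧ μS (Ioi (r.2 - r.1 z)) ≠ 0 then 1 else 0)
          ∂(π.prod volume) := (lintegral_prod _ hm0.aemeasurable).symm
    _ ≤ ∫⁻ r, ⨆ n, g n r ∂(π.prod volume) := by
        refine lintegral_mono (fun r => ?_)
        simp only
        by_cases hc : cnt r.1 r.2 = l ∧ μS (Ioi (r.2 - r.1 z)) ≠ 0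
        · rw [if_pos hc]
          obtain ⟨n, hn⟩ := ENNReal.exists_nat_gt (ENNReal.inv_ne_top.mpr hc.2)
          refine le_iSup_of_le n ?_
          simp only [hg, hc.1, if_true]
          rw [min_eq_right hn.le, ENNReal.inv_mul_cancel hc.2 (measure_ne_top _ _)]
        · rw [if_neg hc]
          exact zero_le
    _ = ⨆ n, ∫⁻ r, g n r ∂(π.prod volume) := lintegral_iSup hgm hgmono
    _ ≤ _ := iSup_le hle


/-- a bounded increasing function. -/
noncomputable def fb (y : ℝ) : ℝ≥0∞ := ENNReal.ofReal (1 - Real.exp (-y))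

lemma fb_mono : Monotone fb := by
  intro a b hab
  unfold fb
  refine ENNReal.ofReal_le_ofReal ?_
  have := Real.exp_le_exp.mpr (neg_le_neg hab)
  linarith

lemma fb_le_one (y : ℝ) : fb y ≤ 1 := by
  unfold fb
  rw [ENNReal.ofReal_le_one]
  have := Real.exp_pos (-y)
  linarith

lemma fb_strict {x t : ℝ} (hx : 0 < x) (ht : 0 < t) : fb (x - t) < fb x := by
  unfold fb
  have h1 : Real.exp (-x) < 1 := by
    rw [Real.exp_lt_one_iff]
    linarith
  have h2 : Real.exp (-x) < Real.exp (-(x - t)) := Real.exp_lt_exp.mpr (by linarith)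
  rw [ENNReal.ofReal_lt_ofReal_iff (by linarith)]
  linarith

lemma fb_avg_le [IsProbabilityMeasure μT] (hT0 : ∀ᵐ t ∂μT, 0 ≤ t) (x : ℝ) :
    ∫⁻ t, fb (x - t) ∂μT ≤ fb x := by
  calc ∫⁻ t, fb (x - t) ∂μT ≤ ∫⁻ _, fb x ∂μT := by
        refine lintegral_mono_ae ?_
        filter_upwards [hT0] with t ht
        exact fb_mono (by linarith)
    _ = fb x := by simp

lemma fb_avg_lt [IsProbabilityMeasure μT] (hT0 : ∀ᵐ t ∂μT, 0 ≤ t) (hTpos : μT (Ioi 0) ≠ 0)
    {x : ℝ} (hx : 0 < x) : ∫⁻ t, fb (x - t) ∂μT < fb x := by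
  calc ∫⁻ t, fb (x - t) ∂μT < ∫⁻ _, fb x ∂μT := by
        refine lintegral_strict_mono_of_ae_le_of_ae_lt_on aemeasurable_const ?_ ?_ hTpos ?_
        · refine ne_top_of_le_ne_top ?_ (fb_avg_le hT0 x)
          exact ne_top_of_le_ne_top ENNReal.one_ne_top (fb_le_one x)
        · filter_upwards [hT0] with t ht
          exact fb_mono (by linarith)
        · exact Filter.Eventually.of_forall (fun t ht => fb_strict hx ht)
    _ = fb x := by simp

lemma stepD (hπ : IsStationary k μS μT π) [IsProbabilityMeasure μS] [IsProbabilityMeasure μT]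
    (hS0 : ∀ᵐ s ∂μS, 0 ≤ s) (hT0 : ∀ᵐ t ∂μT, 0 ≤ t) (hTpos : μT (Ioi 0) ≠ 0)
    (z : Fin k) (hz : (z : ℕ) = 0) {l : ℕ} (hl : 1 ≤ l)
    (hfin : ∫⁻ w, (∫⁻ y, (if cnt w y = l then 1 else 0)) ∂π ≠ ∞) :
    ∫⁻ w, (∫⁻ y, (if cnt w y = l ∧ μS (Ioi (y - w z)) = 0 then 1 else 0)) ∂π = 0 := by
  have hprob : IsProbabilityMeasure π := hπ.1
  have hlag := measurable_lag (k := k) z
  have hcl : MeasurableSet {p : (Fin k → ℝ) × ℝ | cnt p.1 p.2 = l} :=
    measurable_cnt (measurableSet_singleton l)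
  have hG0 : MeasurableSet {a : ℝ | μS (Ioi a) = 0} :=
    measurable_tail_gt (measurableSet_singleton 0)
  have hfbm : Measurable fb := fb_mono.measurable
  set A : Set ((Fin k → ℝ) × ℝ) := {p | cnt p.1 p.2 = l ∧ μS (Ioi (p.2 - p.1 z)) = 0} with hA
  have hAm : MeasurableSet A := hcl.inter (hlag hG0)
  set f1 : ℝ → ℝ≥0∞ := fun x => ∫⁻ t, fb (x - t) ∂μT with hf1
  have hf1m : Measurable f1 := by
    refine Measurable.lintegral_prod_right' (f := fun p : ℝ × ℝ => fb (p.1 - p.2)) ?_
    exact hfbm.comp (measurable_fst.sub measurable_snd)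
  -- the potential
  have hΨm : Measurable (Function.uncurry
      (fun y a : ℝ => if μS (Ioi a) = 0 then fb y else 0)) := by
    refine Measurable.ite (measurable_snd hG0) (hfbm.comp measurable_fst) measurable_const
  have hΨ : ∀ y a b : ℝ, a ≤ b → (if μS (Ioi a) = 0 then fb y else 0) ≤
      (if μS (Ioi b) = 0 then fb y else 0) := by
    intro y a b hab
    by_cases ha : μS (Ioi a) = 0
    · have hb : μS (Ioi b) = 0 := le_antisymm ((measure_mono (Ioi_subset_Ioi hab)).trans ha.le) zero_le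
      simp [ha, hb]
    · simp [ha]
  have h0 := stepA hπ hS0 z hz hl _ hΨm hΨ
  have hFm : Measurable (A.indicator (fun p : (Fin k → ℝ) × ℝ => fb p.2)) :=
    (hfbm.comp measurable_snd).indicator hAm
  have hF1m : Measurable (A.indicator (fun p : (Fin k → ℝ) × ℝ => f1 p.2)) :=
    (hf1m.comp measurable_snd).indicator hAm
  have hlhs : ∫⁻ w, (∫⁻ y, (if cnt w y = l then
      (if μS (Ioi (y - w z)) = 0 then fb y else 0) else 0)) ∂π =
      ∫⁻ r, A.indicator (fun p : (Fin k → ℝ) × ℝ => fb p.2) r ∂(π.prod volume) := by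
    rw [lintegral_prod _ hFm.aemeasurable]
    refine lintegral_congr (fun w => lintegral_congr (fun y => ?_))
    simp only [Set.indicator_apply, hA, mem_ofPred_eq]
    by_cases h1 : cnt w y = l <;> by_cases h2 : μS (Ioi (y - w z)) = 0 <;> simp [h1, h2]
  -- right-hand side
  have hms : Measurable (fun r : ((Fin k → ℝ) × (ℝ × ℝ)) × ℝ => r.1.2.1) := by fun_prop
  have hmt : Measurable (fun r : ((Fin k → ℝ) × (ℝ × ℝ)) × ℝ => r.2 - r.1.2.2) := by fun_prop
  have hmz : Measurable (fun r : ((Fin k → ℝ) × (ℝ × ℝ)) × ℝ => r.2 - r.1.1 z) :=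
    measurable_snd.sub ((measurable_pi_apply z).comp (measurable_fst.comp measurable_fst))
  have hmc : Measurable (fun r : ((Fin k → ℝ) × (ℝ × ℝ)) × ℝ => cnt r.1.1 r.2) :=
    measurable_cnt.comp ((measurable_fst.comp measurable_fst).prodMk measurable_snd)
  have hmval : Measurable (fun r : ((Fin k → ℝ) × (ℝ × ℝ)) × ℝ =>
      if μS (Ioi (r.2 - r.1.1 z)) = 0 then fb (r.2 - r.1.2.2) else 0) :=
    Measurable.ite (hmz hG0) (hfbm.comp hmt) measurable_const
  have hm1 : Measurable (fun r : ((Fin k → ℝ) × (ℝ × ℝ)) × ℝ =>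
      if cnt r.1.1 r.2 = l ∧ r.1.2.1 ≤ r.2 - r.1.1 z then
        (if μS (Ioi (r.2 - r.1.1 z)) = 0 then fb (r.2 - r.1.2.2) else 0) else 0) :=
    Measurable.ite ((hmc (measurableSet_singleton l)).inter (measurableSet_le hms hmz)) hmval
      measurable_const
  have hm2 : Measurable (fun r : ((Fin k → ℝ) × (ℝ × ℝ)) × ℝ =>
      if cnt r.1.1 r.2 = l + 1 ∧ r.2 - r.1.1 z < r.1.2.1 then
        (if μS (Ioi (r.2 - r.1.1 z)) = 0 then fb (r.2 - r.1.2.2) else 0) else 0) :=
    Measurable.ite ((hmc (measurableSet_singleton (l+1))).inter (measurableSet_lt hmz hms)) hmval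
      measurable_const
  rw [tonelli3 (fun p x => ((if cnt p.1 x = l ∧ p.2.1 ≤ x - p.1 z then
        (if μS (Ioi (x - p.1 z)) = 0 then fb (x - p.2.2) else 0) else 0) +
        (if cnt p.1 x = l + 1 ∧ x - p.1 z < p.2.1 then
        (if μS (Ioi (x - p.1 z)) = 0 then fb (x - p.2.2) else 0) else 0))) (hm1.add hm2),
    hlhs] at h0
  have hrhs : ∫⁻ r, A.indicator (fun p : (Fin k → ℝ) × ℝ => fb p.2) r ∂(π.prod volume) ≤
      ∫⁻ r, A.indicator (fun p : (Fin k → ℝ) × ℝ => f1 p.2) r ∂(π.prod volume) := by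
    refine h0.trans ?_
    rw [lintegral_prod _ hF1m.aemeasurable]
    refine lintegral_mono (fun w => lintegral_mono (fun x => ?_))
    simp only
    rw [lintegral_add_left]
    swap
    · refine Measurable.ite ?_ ?_ measurable_const
      · exact MeasurableSet.inter (MeasurableSet.const _)
          (measurableSet_le measurable_fst measurable_const)
      · refine Measurable.ite (MeasurableSet.const _) ?_ measurable_const
        exact hfbm.comp (measurable_const.sub measurable_snd)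
    have hsecond : ∫⁻ q : ℝ × ℝ, (if cnt w x = l + 1 ∧ x - w z < q.1 then
        (if μS (Ioi (x - w z)) = 0 then fb (x - q.2) else 0) else 0) ∂(μS.prod μT) = 0 := by
      by_cases hg : μS (Ioi (x - w z)) = 0
      · refine le_antisymm ?_ zero_le
        calc ∫⁻ q : ℝ × ℝ, (if cnt w x = l + 1 ∧ x - w z < q.1 then
              (if μS (Ioi (x - w z)) = 0 then fb (x - q.2) else 0) else 0) ∂(μS.prod μT)
            ≤ ∫⁻ q : ℝ × ℝ, (Ioi (x - w z) ×ˢ (univ : Set ℝ)).indicator (fun _ => 1) q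
              ∂(μS.prod μT) := by
              refine lintegral_mono (fun q => ?_)
              simp only [Set.indicator_apply, mem_prod, mem_Ioi, mem_univ, and_true, hg, if_true]
              by_cases h1 : x - w z < q.1
              · simp only [h1, if_true, and_true]
                split_ifs
                · exact fb_le_one _
                · exact zero_le
              · simp [h1]
          _ = 0 := by
              rw [lintegral_indicator_const (measurableSet_Ioi.prod MeasurableSet.univ),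
                Measure.prod_prod, hg]
              simp
      · simp [hg]
    rw [hsecond, add_zero]
    simp only [Set.indicator_apply, hA, mem_ofPred_eq]
    by_cases hc : cnt w x = l ∧ μS (Ioi (x - w z)) = 0
    · rw [if_pos hc]
      simp only [hc.1, hc.2, true_and, if_true]
      calc ∫⁻ q : ℝ × ℝ, (if q.1 ≤ x - w z then fb (x - q.2) else 0) ∂(μS.prod μT)
          ≤ ∫⁻ q : ℝ × ℝ, fb (x - q.2) ∂(μS.prod μT) := by
            refine lintegral_mono (fun q => ?_)
            simp only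
            split_ifs
            · exact le_rfl
            · exact zero_le
        _ = f1 x := by
            have hq : Measurable (fun q : ℝ × ℝ => fb (x - q.2)) :=
              hfbm.comp (measurable_const.sub measurable_snd)
            rw [lintegral_prod _ hq.aemeasurable]
            simp [hf1]
    · rw [if_neg hc]
      refine le_of_eq ?_
      rw [lintegral_eq_zero_iff']
      · refine Filter.Eventually.of_forall (fun q => ?_)
        simp only [Pi.zero_apply]
        by_cases h1 : cnt w x = l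
        · have h2 : μS (Ioi (x - w z)) ≠ 0 := fun h => hc ⟨h1, h⟩
          simp [h2]
        · simp [h1]
      · refine (Measurable.ite ?_ ?_ measurable_const).aemeasurable
        · exact MeasurableSet.inter (MeasurableSet.const _)
            (measurableSet_le measurable_fst measurable_const)
        · refine Measurable.ite (MeasurableSet.const _) ?_ measurable_const
          exact hfbm.comp (measurable_const.sub measurable_snd)
  have hF1fin : ∫⁻ r, A.indicator (fun p : (Fin k → ℝ) × ℝ => f1 p.2) r ∂(π.prod volume) ≠ ∞ := by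
    refine ne_top_of_le_ne_top hfin ?_
    rw [lintegral_prod _ hF1m.aemeasurable]
    refine lintegral_mono (fun w => lintegral_mono (fun x => ?_))
    simp only [Set.indicator_apply, hA, mem_ofPred_eq]
    by_cases h1 : cnt w x = l
    · by_cases h2 : μS (Ioi (x - w z)) = 0
      · simp only [h1, h2, and_self, if_true]
        exact (fb_avg_le hT0 x).trans (fb_le_one x)
      · simp [h2]
    · simp [h1]
  have hle : A.indicator (fun p : (Fin k → ℝ) × ℝ => f1 p.2) ≤ᵐ[π.prod volume]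
      A.indicator (fun p : (Fin k → ℝ) × ℝ => fb p.2) := by
    refine Filter.Eventually.of_forall (fun r => ?_)
    by_cases hr : r ∈ A
    · simp only [hr, Set.indicator_of_mem]
      exact fb_avg_le hT0 r.2
    · simp only [hr, Set.indicator_of_notMem, not_false_eq_true, le_refl]
  have heq := ae_eq_of_ae_le_of_lintegral_le hle hF1fin hFm.aemeasurable hrhs
  have hmono : ∀ᵐ r ∂(π.prod (volume : Measure ℝ)), Monotone r.1 :=
    Measure.quasiMeasurePreserving_fst.ae hπ.ae_monotone
  have hnonneg : ∀ᵐ r ∂(π.prod (volume : Measure ℝ)), ∀ j, 0 ≤ r.1 j :=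
    Measure.quasiMeasurePreserving_fst.ae hπ.ae_nonneg
  have hne : ∀ᵐ r ∂(π.prod (volume : Measure ℝ)), r.2 ≠ 0 := by
    refine Measure.quasiMeasurePreserving_snd.ae (p := fun x : ℝ => x ≠ 0) ?_
    rw [ae_iff]
    simp
  have hnot : ∀ᵐ r ∂(π.prod (volume : Measure ℝ)), ¬ (r ∈ A) := by
    filter_upwards [heq, hmono, hnonneg, hne] with r h1 h2 h3 h4 hr
    simp only [hr, Set.indicator_of_mem] at h1
    have hcnt : cnt r.1 r.2 = l := hr.1
    have hx : r.1 z ≤ r.2 := by
      rw [le_iff_lt_cnt h2, hz]; omega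
    have hx0 : 0 < r.2 := lt_of_le_of_ne ((h3 z).trans hx) (Ne.symm h4)
    exact (fb_avg_lt hT0 hTpos hx0).ne h1
  have hm0 : Measurable (fun p : (Fin k → ℝ) × ℝ =>
      (if cnt p.1 p.2 = l ∧ μS (Ioi (p.2 - p.1 z)) = 0 then 1 else 0 : ℝ≥0∞)) :=
    Measurable.ite hAm measurable_const measurable_const
  calc ∫⁻ w, (∫⁻ y, (if cnt w y = l ∧ μS (Ioi (y - w z)) = 0 then 1 else 0)) ∂π
      = ∫⁻ r, (if cnt r.1 r.2 = l ∧ μS (Ioi (r.2 - r.1 z)) = 0 then 1 else 0)
          ∂(π.prod volume) := (lintegral_prod _ hm0.aemeasurable).symm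
    _ = 0 := by
        rw [lintegral_eq_zero_iff hm0]
        filter_upwards [hnot] with r hr
        exact if_neg hr

/-- the expected lengths of consecutive level sets are nondecreasing. -/
lemma level_le (hπ : IsStationary k μS μT π) [IsProbabilityMeasure μS] [IsProbabilityMeasure μT]
    (hS0 : ∀ᵐ s ∂μS, 0 ≤ s) (hT0 : ∀ᵐ t ∂μT, 0 ≤ t) (hTpos : μT (Ioi 0) ≠ 0)
    (z : Fin k) (hz : (z : ℕ) = 0) {l : ℕ} (hl : 1 ≤ l)
    (hfin : ∫⁻ w, (∫⁻ y, (if cnt w y = l then 1 else 0)) ∂π ≠ ∞) :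
    ∫⁻ w, (∫⁻ y, (if cnt w y = l then 1 else 0)) ∂π ≤
      ∫⁻ w, (∫⁻ y, (if cnt w y = l + 1 then 1 else 0)) ∂π := by
  have hprob : IsProbabilityMeasure π := hπ.1
  have hlag := measurable_lag (k := k) z
  have hcl : MeasurableSet {p : (Fin k → ℝ) × ℝ | cnt p.1 p.2 = l} :=
    measurable_cnt (measurableSet_singleton l)
  have hG0 : MeasurableSet {a : ℝ | μS (Ioi a) = 0} :=
    measurable_tail_gt (measurableSet_singleton 0)
  have hm0 : Measurable (fun p : (Fin k → ℝ) × ℝ =>
      (if cnt p.1 p.2 = l ∧ μS (Ioi (p.2 - p.1 z)) = 0 then 1 else 0 : ℝ≥0∞)) :=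
    Measurable.ite (hcl.inter (hlag hG0)) measurable_const measurable_const
  have hsplit : ∫⁻ w, (∫⁻ y, (if cnt w y = l then 1 else 0)) ∂π =
      ∫⁻ w, (∫⁻ y, (if cnt w y = l ∧ μS (Ioi (y - w z)) = 0 then 1 else 0)) ∂π +
      ∫⁻ w, (∫⁻ y, (if cnt w y = l ∧ μS (Ioi (y - w z)) ≠ 0 then 1 else 0)) ∂π := by
    rw [← lintegral_add_left (Measurable.lintegral_prod_right' hm0)]
    refine lintegral_congr (fun w => ?_)
    have hmw : Measurable
        (fun y : ℝ => (if cnt w y = l ∧ μS (Ioi (y - w z)) = 0 then 1 else 0 : ℝ≥0∞)) :=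
      hm0.comp (measurable_const.prodMk measurable_id)
    dsimp only
    rw [← lintegral_add_left hmw]
    refine lintegral_congr (fun y => ?_)
    by_cases h1 : cnt w y = l <;> by_cases h2 : μS (Ioi (y - w z)) = 0 <;> simp [h1, h2]
  rw [hsplit, stepD hπ hS0 hT0 hTpos z hz hl hfin, zero_add]
  exact stepC hπ hS0 z hz hl hfin

end Integrated


/-! ### Finiteness of the mean workloads -/

section Finite

variable {k : ℕ} {μS μT : Measure ℝ} {π : Measure (Fin k → ℝ)}

/-- the Lyapunov function. -/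
noncomputable def V (w : Fin k → ℝ) : ℝ := ∑ j, (w j) ^ 2

lemma V_nonneg (w : Fin k → ℝ) : 0 ≤ V w := Finset.sum_nonneg (fun _ _ => sq_nonneg _)

lemma measurable_V : Measurable (V (k := k)) := by
  unfold V
  exact Finset.measurable_sum _ (fun j _ => (measurable_pi_apply j).pow_const 2)

lemma V_kwStep {w : Fin k → ℝ} {s t : ℝ} (hs : 0 ≤ s) (ht : 0 ≤ t)
    (z : Fin k) (hz : (z : ℕ) = 0) :
    V (kwStep w s t) ≤
      V w + (2 * w z * s + s ^ 2 + k * t ^ 2 - 2 * t * ∑ j, w j) := by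
  have h1 : V (kwStep w s t) = ∑ j, (rawStep w s t j) ^ 2 := by
    unfold V kwStep sortVec
    exact Equiv.sum_comp (Tuple.sort (rawStep w s t)) (fun j => (rawStep w s t j) ^ 2)
  have h2 : ∀ j, (rawStep w s t j) ^ 2 ≤
      (w j) ^ 2 + t ^ 2 - 2 * t * w j + (if j = z then 2 * w z * s + s ^ 2 - 2 * t * s else 0) := by
    intro j
    unfold rawStep
    have hmax : ∀ a : ℝ, (max 0 a) ^ 2 ≤ a ^ 2 := by
      intro a
      rcases le_total 0 a with h | h
      · rw [max_eq_right h]
      · rw [max_eq_left h]; simpa using sq_nonneg a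
    refine (hmax _).trans ?_
    by_cases hj : j = z
    · subst hj
      simp only [hz, if_true]
      nlinarith
    · have hj0 : (j : ℕ) ≠ 0 := fun h => hj (Fin.ext (by rw [h, hz]))
      simp only [hj0, if_false, hj]
      nlinarith
  rw [h1]
  refine (Finset.sum_le_sum (fun j _ => h2 j)).trans ?_
  rw [Finset.sum_add_distrib, Finset.sum_sub_distrib, Finset.sum_add_distrib,
    Finset.sum_ite_eq' Finset.univ z, ← Finset.mul_sum]
  simp only [Finset.sum_const, Finset.card_univ, Fintype.card_fin, nsmul_eq_mul, Finset.mem_univ,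
    if_true]
  have : 0 ≤ t * s := mul_nonneg ht hs
  unfold V
  linarith

/-- truncation indicator. -/
noncomputable def gn (n : ℕ) (w : Fin k → ℝ) : ℝ := if V w ≤ n then 1 else 0

lemma gn_nonneg (n : ℕ) (w : Fin k → ℝ) : 0 ≤ gn n w := by
  unfold gn; split_ifs <;> norm_num

lemma gn_le_one (n : ℕ) (w : Fin k → ℝ) : gn n w ≤ 1 := by
  unfold gn; split_ifs <;> norm_num

lemma measurable_gn (n : ℕ) : Measurable (gn (k := k) n) :=
  Measurable.ite (measurableSet_le measurable_V measurable_const) measurable_const measurable_const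

lemma gn_coord_bound (n : ℕ) (w : Fin k → ℝ) (j : Fin k) : |gn n w * w j| ≤ n + 1 := by
  unfold gn
  split_ifs with h
  · have h1 : (w j) ^ 2 ≤ V w :=
      Finset.single_le_sum (f := fun j => (w j) ^ 2) (fun i _ => sq_nonneg _) (Finset.mem_univ j)
    rw [one_mul]
    have h2 : (w j) ^ 2 ≤ n := h1.trans h
    rw [abs_le]
    constructor <;> nlinarith
  · rw [zero_mul, abs_zero]
    positivity

lemma integrable_gn_coord [IsFiniteMeasure π] (n : ℕ) (j : Fin k) :
    Integrable (fun w => gn n w * w j) π := by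
  refine Integrable.of_bound ((measurable_gn n).mul (measurable_pi_apply j)).aestronglyMeasurable
    (n + 1) (Filter.Eventually.of_forall (fun w => ?_))
  rw [Real.norm_eq_abs]
  exact gn_coord_bound n w j

lemma integrable_gn [IsFiniteMeasure π] (n : ℕ) : Integrable (fun w => gn (k := k) n w) π := by
  refine Integrable.of_bound (measurable_gn n).aestronglyMeasurable
    1 (Filter.Eventually.of_forall (fun w => ?_))
  rw [Real.norm_eq_abs, abs_of_nonneg (gn_nonneg n w)]
  exact gn_le_one n w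

lemma integrable_id_of_sq {μ : Measure ℝ} [IsProbabilityMeasure μ]
    (h : Integrable (fun s => s ^ 2) μ) : Integrable (fun s : ℝ => s) μ := by
  have h1 : Integrable (fun s : ℝ => s ^ 2 + 1) μ := h.add (integrable_const 1)
  refine h1.mono' measurable_id.aestronglyMeasurable (Filter.Eventually.of_forall (fun s => ?_))
  rw [Real.norm_eq_abs, abs_le]
  constructor <;> nlinarith [sq_nonneg (s - 1), sq_nonneg (s + 1)]

lemma truncated_bound (hπ : IsStationary k μS μT π) [IsProbabilityMeasure μS]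
    [IsProbabilityMeasure μT] (hS0 : ∀ᵐ s ∂μS, 0 ≤ s) (hT0 : ∀ᵐ t ∂μT, 0 ≤ t)
    (hS2 : Integrable (fun s => s ^ 2) μS) (hT2 : Integrable (fun t => t ^ 2) μT)
    (z : Fin k) (hz : (z : ℕ) = 0) (n : ℕ) :
    0 ≤ (∫ w, gn n w * w z ∂π) * (2 * ∫ s, s ∂μS) +
      (∫ w, gn n w ∂π) * ((∫ s, s ^ 2 ∂μS) + k * ∫ t, t ^ 2 ∂μT) -
      (∫ w, gn n w * ∑ j, w j ∂π) * (2 * ∫ t, t ∂μT) := by
  have hprob : IsProbabilityMeasure π := hπ.1
  set P := π.prod (μS.prod μT) with hP
  have hS1 : Integrable (fun s : ℝ => s) μS := integrable_id_of_sq hS2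
  have hT1 : Integrable (fun t : ℝ => t) μT := integrable_id_of_sq hT2
  -- integrability of the pieces
  have hsum : Integrable (fun w => gn n w * ∑ j, w j) π := by
    have : (fun w : Fin k → ℝ => gn n w * ∑ j, w j) = fun w => ∑ j, gn n w * w j := by
      funext w; rw [Finset.mul_sum]
    rw [this]
    exact integrable_finsetSum _ (fun j _ => integrable_gn_coord n j)
  have i1 : Integrable (fun p : (Fin k → ℝ) × (ℝ × ℝ) => (gn n p.1 * p.1 z) * (2 * p.2.1)) P :=
    (integrable_gn_coord n z).mul_prod ((hS1.comp_fst μT).const_mul 2)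
  have i2 : Integrable (fun p : (Fin k → ℝ) × (ℝ × ℝ) =>
      gn n p.1 * (p.2.1 ^ 2 + k * p.2.2 ^ 2)) P :=
    (integrable_gn n).mul_prod ((hS2.comp_fst μT).add ((hT2.comp_snd μS).const_mul (k : ℝ)))
  have i3 : Integrable (fun p : (Fin k → ℝ) × (ℝ × ℝ) =>
      (gn n p.1 * ∑ j, p.1 j) * (2 * p.2.2)) P :=
    hsum.mul_prod ((hT1.comp_snd μS).const_mul 2)
  -- values of integrals
  have e1 : ∫ p, (gn n p.1 * p.1 z) * (2 * p.2.1) ∂P =
      (∫ w, gn n w * w z ∂π) * (2 * ∫ s, s ∂μS) := by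
    rw [hP, integral_prod_mul (fun w : Fin k → ℝ => gn n w * w z) (fun q : ℝ × ℝ => 2 * q.1)]
    congr 1
    rw [integral_const_mul, integral_fun_fst (fun s : ℝ => s)]
    simp
  have e2 : ∫ p, gn n p.1 * (p.2.1 ^ 2 + k * p.2.2 ^ 2) ∂P =
      (∫ w, gn n w ∂π) * ((∫ s, s ^ 2 ∂μS) + k * ∫ t, t ^ 2 ∂μT) := by
    rw [hP, integral_prod_mul (fun w : Fin k → ℝ => gn n w)
      (fun q : ℝ × ℝ => q.1 ^ 2 + k * q.2 ^ 2)]
    congr 1
    rw [integral_add (hS2.comp_fst μT) ((hT2.comp_snd μS).const_mul (k : ℝ)),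
      integral_const_mul, integral_fun_fst (fun s : ℝ => s ^ 2),
      integral_fun_snd (fun t : ℝ => t ^ 2)]
    simp
  have e3 : ∫ p, (gn n p.1 * ∑ j, p.1 j) * (2 * p.2.2) ∂P =
      (∫ w, gn n w * ∑ j, w j ∂π) * (2 * ∫ t, t ∂μT) := by
    rw [hP, integral_prod_mul (fun w : Fin k → ℝ => gn n w * ∑ j, w j)
      (fun q : ℝ × ℝ => 2 * q.2)]
    congr 1
    rw [integral_const_mul, integral_fun_snd (fun t : ℝ => t)]
    simp
  have i12 : Integrable (fun p : (Fin k → ℝ) × (ℝ × ℝ) =>
      (gn n p.1 * p.1 z) * (2 * p.2.1) + gn n p.1 * (p.2.1 ^ 2 + k * p.2.2 ^ 2)) P := i1.add i2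
  rw [← e1, ← e2, ← e3, ← integral_add i1 i2, ← integral_sub i12 i3]
  -- stationarity of the truncated Lyapunov function
  set f : (Fin k → ℝ) → ℝ := fun w => min (V w) n with hf
  have hfm : Measurable f := measurable_V.min measurable_const
  have hfb : ∀ w, ‖f w‖ ≤ n := by
    intro w
    rw [Real.norm_eq_abs, abs_of_nonneg (le_min (V_nonneg w) (Nat.cast_nonneg n))]
    exact min_le_right _ _
  have j1 : Integrable (fun p : (Fin k → ℝ) × (ℝ × ℝ) => f (kwStep p.1 p.2.1 p.2.2)) P :=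
    Integrable.of_bound (hfm.comp measurable_kwStep).aestronglyMeasurable n
      (Filter.Eventually.of_forall (fun p => hfb _))
  have j2 : Integrable (fun p : (Fin k → ℝ) × (ℝ × ℝ) => f p.1) P :=
    Integrable.of_bound (hfm.comp measurable_fst).aestronglyMeasurable n
      (Filter.Eventually.of_forall (fun p => hfb _))
  have hstat : ∫ p, f (kwStep p.1 p.2.1 p.2.2) ∂P = ∫ p, f p.1 ∂P := by
    rw [hP, integral_fun_fst]
    have hu : (μS.prod μT).real univ = 1 := by simp
    rw [hu, one_smul]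
    conv_rhs => rw [← hπ.2]
    rw [integral_map measurable_kwStep.aemeasurable hfm.aestronglyMeasurable]
  have h0 : ∫ p, (f (kwStep p.1 p.2.1 p.2.2) - f p.1) ∂P = 0 := by
    rw [integral_sub j1 j2, hstat, sub_self]
  rw [← h0]
  refine integral_mono_ae (j1.sub j2) (i12.sub i3) ?_
  have h1 : ∀ᵐ p ∂P, 0 ≤ p.2.1 :=
    Measure.quasiMeasurePreserving_snd.ae (Measure.quasiMeasurePreserving_fst.ae hS0)
  have h2 : ∀ᵐ p ∂P, 0 ≤ p.2.2 :=
    Measure.quasiMeasurePreserving_snd.ae (Measure.quasiMeasurePreserving_snd.ae hT0)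
  filter_upwards [h1, h2] with p hp1 hp2
  have hV := V_kwStep (w := p.1) hp1 hp2 z hz
  simp only [hf, gn]
  by_cases hc : V p.1 ≤ n
  · rw [if_pos hc, min_eq_left hc]
    have := min_le_left (V (kwStep p.1 p.2.1 p.2.2)) (n : ℝ)
    nlinarith
  · rw [if_neg hc, min_eq_right (not_le.mp hc).le]
    have := min_le_right (V (kwStep p.1 p.2.1 p.2.2)) (n : ℝ)
    nlinarith


lemma gn_mono {a b : ℕ} (hab : a ≤ b) (w : Fin k → ℝ) : gn a w ≤ gn b w := by
  unfold gn
  by_cases h : V w ≤ a
  · have : V w ≤ b := h.trans (by exact_mod_cast hab)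
    simp [h, this]
  · simp only [h, if_false]
    split_ifs <;> norm_num

lemma integrable_sum (hπ : IsStationary k μS μT π) [IsProbabilityMeasure μS]
    [IsProbabilityMeasure μT] (hS0 : ∀ᵐ s ∂μS, 0 ≤ s) (hT0 : ∀ᵐ t ∂μT, 0 ≤ t)
    (hS2 : Integrable (fun s => s ^ 2) μS) (hT2 : Integrable (fun t => t ^ 2) μT)
    (z : Fin k) (hz : (z : ℕ) = 0)
    (hδ : 0 < (∫ t, t ∂μT) - (∫ s, s ∂μS) / k) :
    Integrable (fun w => ∑ j, w j) π := by
  have hprob : IsProbabilityMeasure π := hπ.1
  have hk : (0 : ℝ) < k := by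
    have : 0 < k := lt_of_le_of_lt (Nat.zero_le _) z.isLt
    exact_mod_cast this
  set ES := ∫ s, s ∂μS with hES
  set ET := ∫ t, t ∂μT with hET
  have hES0 : 0 ≤ ES := integral_nonneg_of_ae hS0
  set C := (∫ s, s ^ 2 ∂μS) + k * ∫ t, t ^ 2 ∂μT with hC
  have hC0 : 0 ≤ C := by
    refine add_nonneg (integral_nonneg (fun s => sq_nonneg s)) (mul_nonneg hk.le ?_)
    exact integral_nonneg (fun s => sq_nonneg s)
  have hbound : ∀ n : ℕ, ∫ w, gn n w * ∑ j, w j ∂π ≤ C / (2 * (ET - ES / k)) := by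
    intro n
    have h0 := truncated_bound hπ hS0 hT0 hS2 hT2 z hz n
    rw [← hES, ← hET, ← hC] at h0
    have hsum : Integrable (fun w => gn n w * ∑ j, w j) π := by
      have : (fun w : Fin k → ℝ => gn n w * ∑ j, w j) = fun w => ∑ j, gn n w * w j := by
        funext w; rw [Finset.mul_sum]
      rw [this]
      exact integrable_finsetSum _ (fun j _ => integrable_gn_coord n j)
    have hA : k * ∫ w, gn n w * w z ∂π ≤ ∫ w, gn n w * ∑ j, w j ∂π := by
      rw [← integral_const_mul]
      refine integral_mono_ae ((integrable_gn_coord n z).const_mul _) hsum ?_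
      filter_upwards [hπ.ae_monotone] with w hw
      have : (k : ℝ) * w z ≤ ∑ j, w j := by
        have h1 : ∑ _j : Fin k, w z ≤ ∑ j, w j :=
          Finset.sum_le_sum (fun j _ => hw (by rw [Fin.le_def, hz]; exact Nat.zero_le _))
        simpa using h1
      have := mul_le_mul_of_nonneg_left this (gn_nonneg n w)
      linarith
    have hB : ∫ w, gn (k := k) n w ∂π ≤ 1 := by
      calc ∫ w, gn (k := k) n w ∂π ≤ ∫ _, (1 : ℝ) ∂π :=
            integral_mono (integrable_gn n) (integrable_const 1) (fun w => gn_le_one n w)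
        _ = 1 := by simp
    set A := ∫ w, gn n w * w z ∂π with hAdef
    set B := ∫ w, gn (k := k) n w ∂π with hBdef
    set D := ∫ w, gn n w * ∑ j, w j ∂π with hDdef
    rw [le_div_iff₀ (by linarith)]
    have h1 : A ≤ D / k := by
      rw [le_div_iff₀ hk]; linarith
    have h2 : A * (2 * ES) ≤ (D / k) * (2 * ES) := mul_le_mul_of_nonneg_right h1 (by linarith)
    have h3 : B * C ≤ 1 * C := mul_le_mul_of_nonneg_right hB hC0
    have h4 : D * (2 * (ET - ES / k)) = D * (2 * ET) - (D / k) * (2 * ES) := by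
      field_simp
    linarith
  have hmeas : Measurable (fun w : Fin k → ℝ => ∑ j, w j) :=
    Finset.measurable_sum _ (fun j _ => measurable_pi_apply j)
  have hnn : ∀ᵐ w ∂π, 0 ≤ ∑ j, w j := by
    filter_upwards [hπ.ae_nonneg] with w hw
    exact Finset.sum_nonneg (fun j _ => hw j)
  refine ⟨hmeas.aestronglyMeasurable, ?_⟩
  rw [hasFiniteIntegral_iff_ofReal hnn]
  have hgm : ∀ n : ℕ, Measurable (fun w : Fin k → ℝ => ENNReal.ofReal (gn n w * |∑ j, w j|)) :=
    fun n => ((measurable_gn n).mul hmeas.abs).ennreal_ofReal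
  have hmono : Monotone (fun (n : ℕ) (w : Fin k → ℝ) => ENNReal.ofReal (gn n w * |∑ j, w j|)) := by
    intro a b hab w
    exact ENNReal.ofReal_le_ofReal (mul_le_mul_of_nonneg_right (gn_mono hab w) (abs_nonneg _))
  have hle : ∫⁻ w, ENNReal.ofReal (∑ j, w j) ∂π ≤
      ∫⁻ w, ⨆ n : ℕ, ENNReal.ofReal (gn n w * |∑ j, w j|) ∂π := by
    refine lintegral_mono (fun w => ?_)
    simp only
    obtain ⟨n, hn⟩ := exists_nat_ge (V w)
    refine le_iSup_of_le n ?_
    unfold gn
    rw [if_pos hn, one_mul]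
    exact ENNReal.ofReal_le_ofReal (le_abs_self _)
  refine lt_of_le_of_lt hle ?_
  rw [lintegral_iSup hgm hmono]
  refine lt_of_le_of_lt (iSup_le (fun n => ?_)) (ENNReal.ofReal_lt_top (r := C / (2 * (ET - ES / k))))
  have hsum : Integrable (fun w => gn n w * ∑ j, w j) π := by
    have : (fun w : Fin k → ℝ => gn n w * ∑ j, w j) = fun w => ∑ j, gn n w * w j := by
      funext w; rw [Finset.mul_sum]
    rw [this]
    exact integrable_finsetSum _ (fun j _ => integrable_gn_coord n j)
  have heq : ∫⁻ w, ENNReal.ofReal (gn n w * |∑ j, w j|) ∂π =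
      ∫⁻ w, ENNReal.ofReal (gn n w * ∑ j, w j) ∂π := by
    refine lintegral_congr_ae ?_
    filter_upwards [hnn] with w hw
    rw [abs_of_nonneg hw]
  rw [heq, ← ofReal_integral_eq_lintegral_ofReal hsum]
  · exact ENNReal.ofReal_le_ofReal (hbound n)
  · filter_upwards [hnn] with w hw
    exact mul_nonneg (gn_nonneg n w) hw

lemma integrable_coord (hπ : IsStationary k μS μT π)
    (h : Integrable (fun w : Fin k → ℝ => ∑ j, w j) π) (j : Fin k) :
    Integrable (fun w => w j) π := by
  refine h.mono' (measurable_pi_apply j).aestronglyMeasurable ?_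
  filter_upwards [hπ.ae_nonneg] with w hw
  rw [Real.norm_eq_abs, abs_of_nonneg (hw j)]
  exact Finset.single_le_sum (f := fun j => w j) (fun i _ => hw i) (Finset.mem_univ j)

lemma level_eq (hπ : IsStationary k μS μT π)
    (hint : ∀ j : Fin k, Integrable (fun w => w j) π)
    {l : ℕ} (hl : 1 ≤ l) (hlk : l < k) :
    ∫⁻ w, (∫⁻ y, (if cnt w y = l then 1 else 0)) ∂π =
      ENNReal.ofReal ((∫ w, w ⟨l, hlk⟩ ∂π) - ∫ w, w ⟨l - 1, by omega⟩ ∂π) := by
  rw [← integral_sub (hint _) (hint _), ofReal_integral_eq_lintegral_ofReal]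
  · refine lintegral_congr_ae ?_
    filter_upwards [hπ.ae_monotone] with w hw
    have hset : {y : ℝ | cnt w y = l} = Ico (w ⟨l - 1, by omega⟩) (w ⟨l, hlk⟩) := by
      ext y
      simp only [mem_ofPred_eq, mem_Ico]
      have h1 := le_iff_lt_cnt hw ⟨l - 1, by omega⟩ y
      have h2 := le_iff_lt_cnt hw ⟨l, hlk⟩ y
      simp only at h1 h2
      have h3 : y < w ⟨l, hlk⟩ ↔ ¬ (l < cnt w y) := by rw [← not_le, h2]
      rw [h1, h3]
      omega
    calc ∫⁻ y, (if cnt w y = l then 1 else 0)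
        = ∫⁻ y, ({y : ℝ | cnt w y = l}).indicator 1 y := by
          refine lintegral_congr (fun y => ?_)
          simp [Set.indicator_apply]
      _ = _ := by
          rw [hset, lintegral_indicator_one measurableSet_Ico, Real.volume_Ico]
  · exact (hint _).sub (hint _)
  · filter_upwards [hπ.ae_monotone] with w hw
    have : w ⟨l - 1, by omega⟩ ≤ w ⟨l, hlk⟩ := hw (by rw [Fin.le_def]; simp)
    simp only [Pi.zero_apply]
    linarith

end Finite


/-- **Convexity of the mean workloads in the GI/GI/k queue.** -/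
theorem main (k : ℕ) (hk : 3 ≤ k) (μS μT : Measure ℝ)
    [IsProbabilityMeasure μS] [IsProbabilityMeasure μT]
    (hS0 : ∀ᵐ s ∂μS, 0 ≤ s) (hT0 : ∀ᵐ t ∂μT, 0 ≤ t)
    (hS2 : Integrable (fun s => s ^ 2) μS) (hT2 : Integrable (fun t => t ^ 2) μT)
    (hρ0 : 0 < (∫ s, s ∂μS) / (k * ∫ t, t ∂μT))
    (hρ1 : (∫ s, s ∂μS) / (k * ∫ t, t ∂μT) < 1)
    (π : Measure (Fin k → ℝ)) (hπ : IsStationary k μS μT π) :
    (∀ j, Integrable (fun w => w j) π) ∧ IsConvexSeq (fun j => ∫ w, w j ∂π) := by
  have hk0 : (0 : ℝ) < k := by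
    have : 0 < k := by omega
    exact_mod_cast this
  have hES0 : 0 ≤ ∫ s, s ∂μS := integral_nonneg_of_ae hS0
  have hET0 : 0 ≤ ∫ t, t ∂μT := integral_nonneg_of_ae hT0
  have hET : 0 < ∫ t, t ∂μT := by
    rcases hET0.lt_or_eq with h | h
    · exact h
    · rw [← h] at hρ0
      simp at hρ0
  have hδ : 0 < (∫ t, t ∂μT) - (∫ s, s ∂μS) / k := by
    rw [div_lt_one (mul_pos hk0 hET)] at hρ1
    have : (∫ s, s ∂μS) / k < ∫ t, t ∂μT := by
      rw [div_lt_iff₀ hk0]
      linarith
    linarith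
  have hTpos : μT (Ioi 0) ≠ 0 := by
    intro h
    have : ∀ᵐ t ∂μT, t = 0 := by
      have h1 : ∀ᵐ t ∂μT, ¬ (0 < t) := by
        rw [ae_iff]
        simp only [not_not]
        exact h
      filter_upwards [hT0, h1] with t ht1 ht2
      exact le_antisymm (not_lt.mp ht2) ht1
    have h2 : ∫ t, t ∂μT = ∫ _, (0 : ℝ) ∂μT := integral_congr_ae this
    rw [h2] at hET
    simp at hET
  set z : Fin k := ⟨0, by omega⟩ with hz
  have hint : ∀ j, Integrable (fun w => w j) π := fun j =>
    integrable_coord hπ (integrable_sum hπ hS0 hT0 hS2 hT2 z rfl hδ) j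
  refine ⟨hint, ?_⟩
  intro i hi0 hi1
  have h1 := level_eq hπ hint (l := i) hi0 (by omega)
  have h2 := level_eq hπ hint (l := i + 1) (by omega) hi1
  have hle := level_le hπ hS0 hT0 hTpos z rfl (l := i) hi0 (by rw [h1]; exact ENNReal.ofReal_ne_top)
  rw [h1, h2] at hle
  have hmono : ∫ w, w ⟨i, by omega⟩ ∂π ≤ ∫ w, w ⟨i + 1, hi1⟩ ∂π := by
    refine integral_mono_ae (hint _) (hint _) ?_
    filter_upwards [hπ.ae_monotone] with w hw
    exact hw (by rw [Fin.le_def]; simp)
  simp only [Nat.add_sub_cancel] at hle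
  rw [ENNReal.ofReal_le_ofReal_iff (by linarith)] at hle
  simp only
  linarith

end Pool.Agent.Helper97.KW
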