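import Mathlib

/-!
Definitions used in the statement on random convex sets (MP_aabed8_pr).
-/

open MeasureTheory ProbabilityTheory
open scoped Pointwise BoundedContinuousFunction

namespace Pool.Agent.Helper97.RS

/-- `X` is B-convex: there are `k ≥ 2` and `ε > 0` such that for all `x 0, ..., x (k-1)` in the
closed unit ball some choice of signs gives `‖∑ ± x i‖ ≤ k (1 - ε)`. -/
def BConvex (X : Type*) [NormedAddCommGroup X] [NormedSpace ℝ X] : Prop :=
  ∃ k : ℕ, 2 ≤ k ∧ ∃ ε : ℝ, 0 < ε ∧ ∀ x : Fin k → X, (∀ i, ‖x i‖ ≤ 1) →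
    ∃ s : Fin k → ℝ, (∀ i, s i = 1 ∨ s i = -1) ∧ ‖∑ i, s i • x i‖ ≤ k * (1 - ε)

variable {X : Type*} [NormedAddCommGroup X] [NormedSpace ℝ X]

/-- Nonempty bounded convex sets (the representatives of the elements of `BC(X)`). -/
def IsBC (A : Set X) : Prop := A.Nonempty ∧ Bornology.IsBounded A ∧ Convex ℝ A

/-- `Z(X)`: the bounded continuous real functions on the dual unit sphere. -/
abbrev Z (X : Type*) [NormedAddCommGroup X] [NormedSpace ℝ X] : Type _ :=
  Metric.sphere (0 : StrongDual ℝ X) 1 →ᵇ ℝ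

/-- `R` is the Radstrom embedding: `R A` is the support function of `A` restricted to the dual unit
sphere, for every nonempty bounded convex set `A`. -/
def IsRadstrom (R : Set X → Z X) : Prop :=
  ∀ A, IsBC A → ∀ φ, R A φ = sSup ((fun a => φ.1 a) '' A)

variable {Ω : Type*} [MeasurableSpace Ω]

/-- `Ψ` is a random set: its values are nonempty bounded convex sets and `R ∘ Ψ` is Borel
measurable. -/
def IsRandomSet (R : Set X → Z X) (Ψ : Ω → Set X) : Prop :=
  (∀ ω, IsBC (Ψ ω)) ∧ Measurable[_, borel (Z X)] (fun ω => R (Ψ ω))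

/-- The random sets `Ψ n` are independent: the random vectors `R ∘ Ψ n` are independent. -/
def IndepSets (R : Set X → Z X) (μ : Measure Ω) (Ψ : ℕ → Ω → Set X) : Prop :=
  iIndepFun (m := fun _ => borel (Z X)) (fun n ω => R (Ψ n ω)) μ

/-- `Ψ` has expectation `U`: `R ∘ Ψ` is Bochner integrable with integral `R U`. -/
def HasExp (R : Set X → Z X) (μ : Measure Ω) (Ψ : Ω → Set X) (U : Set X) : Prop :=
  Integrable (fun ω => R (Ψ ω)) μ ∧ ∫ ω, R (Ψ ω) ∂μ = R U

omit [MeasurableSpace Ω] in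
/-- Uniform boundedness. -/
def UnifBdd (Ψ : ℕ → Ω → Set X) : Prop := ∃ r : ℝ, ∀ n ω, Ψ n ω ⊆ Metric.closedBall 0 r

omit [MeasurableSpace Ω] in
/-- The Hausdorff distance between the Minkowski average `(1/n) (Ψ 0 ω + ... + Ψ (n-1) ω)` and
`U`. -/
noncomputable def avgDist (Ψ : ℕ → Ω → Set X) (U : Set X) (ω : Ω) (n : ℕ) : ℝ :=
  Metric.hausdorffDist ((n : ℝ)⁻¹ • ∑ i ∈ Finset.range n, Ψ i ω) U

end Pool.Agent.Helper97.RS
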