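import Pool.Agent.Helper97.RSDefs

/-!
# No strong law for random convex sets with a common non-compact expectation

Paper proof.  Let `H = ℓ²(ℕ)` and let `S_i` be the diagonal isometry
`S_i e_m = (-1)^{b_i(m)} e_m`, where `b_i(m)` is the `i`-th binary digit of `m`.
For `|σ| ≤ 1` let `A(S, σ)` be the convex hull of the points
`z + (σ/3) (2 S z - ⟨S z, z⟩ z)`, `‖z‖ = 1`.
For unit vectors `y, z` one has
`⟨y, z + (σ/3)(2 S z - ⟨S z, z⟩ z)⟩ ≤ 1 + (σ/3) ⟨S y, y⟩`, with equality for `z = y`: with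
`a = ⟨z, y⟩` and `w = y - z` the difference of the two sides is
`(1 - a) + (σ/3) (⟨S w, w⟩ - ⟨S z, z⟩ (1 - a)) ≥ (1 - |σ|) (1 - a) ≥ 0`, as `‖w‖² = 2 (1 - a)`.
So the support function of `A(S, σ)` on the unit sphere is `1 + (σ/3) ⟨S y, y⟩`, and for a fair
random sign `ξ` the random set `A(S, ξ)` has the closed unit ball as expectation.  Let
`Ψ_i = A(S_i, ξ_i)` with independent fair signs `ξ_i`.  Given `n` and the values
`ξ_0, ..., ξ_{n-1}` choose `m < 2^n` with `S_i e_m = ξ_i e_m` for all `i < n`; then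
`(4/3) e_m` belongs to `Ψ_i` for all `i < n`, hence to the average, and its distance from the unit
ball is `1/3`.
-/

open MeasureTheory ProbabilityTheory Set Filter Topology
open scoped Pointwise BoundedContinuousFunction InnerProductSpace ENNReal

namespace Pool.Agent.Helper97.RS

section Defs

variable {X : Type*} [NormedAddCommGroup X] [NormedSpace ℝ X]

/-- Nonempty bounded convex subsets of `X` (representatives of the elements of `BC(X)`). -/
structure BCSet (X : Type*) [NormedAddCommGroup X] [NormedSpace ℝ X] where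
  /-- the underlying set -/
  carrier : Set X
  nonempty' : carrier.Nonempty
  bounded' : Bornology.IsBounded carrier
  convex' : Convex ℝ carrier

/-- The unit sphere of the dual space. -/
abbrev DualSphere (X : Type*) [NormedAddCommGroup X] [NormedSpace ℝ X] : Type _ :=
  Metric.sphere (0 : StrongDual ℝ X) 1

/-- The support function `x* ↦ sup_{a ∈ A} x*(a)` of a set. -/
noncomputable def suppFun (A : Set X) (φ : StrongDual ℝ X) : ℝ := sSup ((fun a => φ a) '' A)

lemma suppFun_le {A : Set X} (hA : A.Nonempty) {φ : StrongDual ℝ X} {r : ℝ}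
    (h : ∀ a ∈ A, φ a ≤ r) : suppFun A φ ≤ r := by
  refine csSup_le (hA.image _) ?_
  rintro _ ⟨a, ha, rfl⟩
  exact h a ha

lemma apply_le_of_bound {φ : StrongDual ℝ X} {a : X} {C : ℝ} (ha : ‖a‖ ≤ C) :
    φ a ≤ ‖φ‖ * C :=
  (le_abs_self _).trans ((φ.le_opNorm a).trans (mul_le_mul_of_nonneg_left ha (norm_nonneg _)))

lemma bddAbove_supp {A : Set X} {C : ℝ} (hC : ∀ a ∈ A, ‖a‖ ≤ C) (φ : StrongDual ℝ X) :
    BddAbove ((fun a => φ a) '' A) := by
  refine ⟨‖φ‖ * C, ?_⟩
  rintro _ ⟨a, ha, rfl⟩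
  exact apply_le_of_bound (hC a ha)

lemma suppFun_sub_le {A : Set X} (hA : A.Nonempty) {C : ℝ} (hC : ∀ a ∈ A, ‖a‖ ≤ C)
    (φ ψ : StrongDual ℝ X) : suppFun A φ ≤ suppFun A ψ + C * ‖φ - ψ‖ := by
  refine suppFun_le hA (fun a ha => ?_)
  have h1 : ψ a ≤ suppFun A ψ := le_csSup (bddAbove_supp hC ψ) ⟨a, ha, rfl⟩
  have h2 : (φ - ψ) a ≤ ‖φ - ψ‖ * C := apply_le_of_bound (hC a ha)
  have h3 : (φ - ψ) a = φ a - ψ a := rfl
  linarith

lemma continuous_suppFun {A : Set X} (hA : A.Nonempty) (hb : Bornology.IsBounded A) :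
    Continuous (fun φ : DualSphere X => suppFun A φ.1) := by
  obtain ⟨C, hC⟩ := hb.exists_norm_le
  have hC0 : 0 ≤ C := by
    obtain ⟨a, ha⟩ := hA
    exact (norm_nonneg a).trans (hC a ha)
  have hlip : LipschitzWith ⟨C, hC0⟩ (fun φ : DualSphere X => suppFun A φ.1) := by
    refine LipschitzWith.of_le_add_mul _ (fun φ ψ => ?_)
    have := suppFun_sub_le hA hC φ.1 ψ.1
    rw [← dist_eq_norm] at this
    exact this
  exact hlip.continuous

lemma suppFun_bound {A : Set X} (hA : A.Nonempty) {C : ℝ} (hC : ∀ a ∈ A, ‖a‖ ≤ C)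
    (φ : DualSphere X) : ‖suppFun A φ.1‖ ≤ C := by
  have hn : ‖φ.1‖ = 1 := by simp
  rw [Real.norm_eq_abs, abs_le]
  constructor
  · obtain ⟨a, ha⟩ := hA
    have h1 : φ.1 a ≤ suppFun A φ.1 := le_csSup (bddAbove_supp hC φ.1) ⟨a, ha, rfl⟩
    have h2 : φ.1 (-a) ≤ ‖φ.1‖ * C := apply_le_of_bound (by rw [norm_neg]; exact hC a ha)
    rw [map_neg, hn] at h2
    linarith
  · refine suppFun_le hA (fun a ha => ?_)
    have := apply_le_of_bound (φ := φ.1) (hC a ha)
    rw [hn] at this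
    linarith

/-- The Radstrom embedding `R : BC(X) → Z(X)`, with values in the bounded continuous real
functions on the dual unit sphere. -/
noncomputable def radstrom (A : BCSet X) : DualSphere X →ᵇ ℝ :=
  BoundedContinuousFunction.ofNormedAddCommGroup (fun φ => suppFun A.carrier φ.1)
    (continuous_suppFun A.nonempty' A.bounded') (Classical.choose A.bounded'.exists_norm_le)
    (fun φ => suppFun_bound A.nonempty' (Classical.choose_spec A.bounded'.exists_norm_le) φ)

@[simp] lemma radstrom_apply (A : BCSet X) (φ : DualSphere X) :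
    radstrom A φ = suppFun A.carrier φ.1 := rfl

variable {Ω : Type*} [MeasurableSpace Ω]

/-- Random sets: `R ∘ Ψ` is Borel measurable. -/
def RandomBC (Ψ : Ω → BCSet X) : Prop :=
  @Measurable Ω (DualSphere X →ᵇ ℝ) _ (borel _) (fun ω => radstrom (Ψ ω))

/-- `Ψ` has expectation `U`: `R ∘ Ψ` is Bochner integrable with integral `R(U)`. -/
def HasExpBC (μ : Measure Ω) (Ψ : Ω → BCSet X) (U : BCSet X) : Prop :=
  Integrable (fun ω => radstrom (Ψ ω)) μ ∧ ∫ ω, radstrom (Ψ ω) ∂μ = radstrom U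

/-- Independence of a sequence of random sets: independence of the random vectors `R ∘ Ψ n`
(with respect to the Borel sigma-algebra of `Z(X)`). -/
def IndepBC (μ : Measure Ω) (Ψ : ℕ → Ω → BCSet X) : Prop :=
  @iIndepFun Ω ℕ _ (fun _ => DualSphere X →ᵇ ℝ) (fun _ => borel _)
    (fun n ω => radstrom (Ψ n ω)) μ

/-- Uniform boundedness. -/
def UnifBddBC (Ψ : ℕ → Ω → BCSet X) : Prop :=
  ∃ r : ℝ, ∀ n ω, (Ψ n ω).carrier ⊆ Metric.closedBall 0 r

/-- The Hausdorff distance between the Minkowski average `(1/n) (Ψ 0 ω + ... + Ψ (n-1) ω)` and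
`U`. -/
noncomputable def avgDistBC (Ψ : ℕ → Ω → BCSet X) (U : BCSet X) (ω : Ω) (n : ℕ) : ℝ :=
  Metric.hausdorffDist ((n : ℝ)⁻¹ • ∑ i ∈ Finset.range n, (Ψ i ω).carrier) U.carrier

end Defs

/-- the Hilbert space `ℓ²(ℕ)` -/
abbrev L2 : Type := lp (fun _ : ℕ => ℝ) 2



/-! ### The sets in a Hilbert space -/

section Hilbert

variable {H : Type*} [NormedAddCommGroup H] [InnerProductSpace ℝ H]

/-- the point of the modified ball in direction `z`. -/
noncomputable def pt (S : H ≃ₗᵢ[ℝ] H) (σ : ℝ) (z : H) : H :=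
  z + (σ / 3) • ((2 : ℝ) • S z - ⟪S z, z⟫_ℝ • z)

lemma inner_bound (S : H ≃ₗᵢ[ℝ] H) (w : H) : |⟪S w, w⟫_ℝ| ≤ ‖w‖ ^ 2 := by
  have := abs_real_inner_le_norm (S w) w
  rw [S.norm_map] at this
  nlinarith [this]

lemma key_ineq (S : H ≃ₗᵢ[ℝ] H) (hS : ∀ x y, ⟪S x, y⟫_ℝ = ⟪x, S y⟫_ℝ) {σ : ℝ} (hσ : |σ| ≤ 1)
    {z y : H} (hz : ‖z‖ = 1) (hy : ‖y‖ = 1) :
    ⟪y, pt S σ z⟫_ℝ ≤ 1 + (σ / 3) * ⟪S y, y⟫_ℝ := by
  have e1 : ⟪y, pt S σ z⟫_ℝ = ⟪z, y⟫_ℝ + (σ / 3) * (2 * ⟪S z, y⟫_ℝ - ⟪S z, z⟫_ℝ * ⟪z, y⟫_ℝ) := by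
    unfold pt
    rw [inner_add_right, inner_smul_right, inner_sub_right, inner_smul_right, inner_smul_right,
      real_inner_comm y z, real_inner_comm y (S z)]
  have e2 : ‖y - z‖ ^ 2 = 2 - 2 * ⟪z, y⟫_ℝ := by
    rw [norm_sub_sq_real, hy, hz, real_inner_comm y z]
    ring
  have e3 : ⟪S (y - z), y - z⟫_ℝ = ⟪S y, y⟫_ℝ - 2 * ⟪S z, y⟫_ℝ + ⟪S z, z⟫_ℝ := by
    rw [map_sub, inner_sub_left, inner_sub_right, inner_sub_right, hS y z,
      real_inner_comm (S z) y]
    ring
  have b1 := inner_bound S (y - z)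
  rw [e2, e3] at b1
  have b2 := inner_bound S z
  rw [hz] at b2
  rw [e1]
  set a := ⟪z, y⟫_ℝ
  set b := ⟪S z, y⟫_ℝ
  set p := ⟪S y, y⟫_ℝ
  set q := ⟪S z, z⟫_ℝ
  have ha : 0 ≤ 1 - a := by
    have := (abs_nonneg _).trans b1
    linarith
  have b3 : |p - 2 * b + q * a| ≤ 3 * (1 - a) := by
    have e : p - 2 * b + q * a = (p - 2 * b + q) - q * (1 - a) := by ring
    rw [e]
    refine (abs_sub _ _).trans ?_
    rw [abs_mul, abs_of_nonneg ha]
    have : |q| * (1 - a) ≤ 1 * (1 - a) := mul_le_mul_of_nonneg_right (by linarith) ha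
    linarith
  have b4 : |σ * (p - 2 * b + q * a)| ≤ 3 * (1 - a) := by
    rw [abs_mul]
    calc |σ| * |p - 2 * b + q * a| ≤ 1 * |p - 2 * b + q * a| :=
          mul_le_mul_of_nonneg_right hσ (abs_nonneg _)
      _ ≤ 3 * (1 - a) := by rw [one_mul]; exact b3
  have b5 := (abs_le.mp b4).1
  nlinarith

lemma inner_pt_self (S : H ≃ₗᵢ[ℝ] H) (σ : ℝ) {y : H} (hy : ‖y‖ = 1) :
    ⟪y, pt S σ y⟫_ℝ = 1 + (σ / 3) * ⟪S y, y⟫_ℝ := by
  unfold pt
  rw [inner_add_right, inner_smul_right, inner_sub_right, inner_smul_right, inner_smul_right,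
    real_inner_self_eq_norm_sq, hy, real_inner_comm y (S y)]
  ring

lemma norm_pt_le (S : H ≃ₗᵢ[ℝ] H) {σ : ℝ} (hσ : |σ| ≤ 1) {z : H} (hz : ‖z‖ = 1) :
    ‖pt S σ z‖ ≤ 2 := by
  unfold pt
  refine (norm_add_le _ _).trans ?_
  have h1 : ‖(2 : ℝ) • S z - ⟪S z, z⟫_ℝ • z‖ ≤ 3 := by
    refine (norm_sub_le _ _).trans ?_
    rw [norm_smul, norm_smul, S.norm_map, hz, Real.norm_eq_abs, Real.norm_eq_abs]
    have := inner_bound S z
    rw [hz] at this
    have h2 : |(2 : ℝ)| = 2 := abs_of_pos two_pos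
    rw [h2]
    linarith
  rw [norm_smul, hz, Real.norm_eq_abs, abs_div]
  have h3 : |(3 : ℝ)| = 3 := abs_of_pos three_pos
  rw [h3]
  have h4 : |σ| / 3 * ‖(2 : ℝ) • S z - ⟪S z, z⟫_ℝ • z‖ ≤ 1 / 3 * 3 := by
    refine mul_le_mul ?_ h1 (norm_nonneg _) (by norm_num)
    linarith
  linarith

/-- the modified ball -/
noncomputable def modBall (S : H ≃ₗᵢ[ℝ] H) (σ : ℝ) : Set H :=
  convexHull ℝ (pt S σ '' Metric.sphere 0 1)

lemma modBall_subset (S : H ≃ₗᵢ[ℝ] H) {σ : ℝ} (hσ : |σ| ≤ 1) :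
    modBall S σ ⊆ Metric.closedBall 0 2 := by
  refine convexHull_min ?_ (convex_closedBall _ _)
  rintro _ ⟨z, hz, rfl⟩
  rw [mem_sphere_zero_iff_norm] at hz
  rw [mem_closedBall_zero_iff]
  exact norm_pt_le S hσ hz

lemma inner_modBall_le (S : H ≃ₗᵢ[ℝ] H) (hS : ∀ x y, ⟪S x, y⟫_ℝ = ⟪x, S y⟫_ℝ) {σ : ℝ}
    (hσ : |σ| ≤ 1) {y : H} (hy : ‖y‖ = 1) {a : H} (ha : a ∈ modBall S σ) :
    ⟪y, a⟫_ℝ ≤ 1 + (σ / 3) * ⟪S y, y⟫_ℝ := by
  have hsub : modBall S σ ⊆ {a | ⟪y, a⟫_ℝ ≤ 1 + (σ / 3) * ⟪S y, y⟫_ℝ} := by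
    refine convexHull_min ?_ ?_
    · rintro _ ⟨z, hz, rfl⟩
      rw [mem_sphere_zero_iff_norm] at hz
      exact key_ineq S hS hσ hz hy
    · exact convex_halfSpace_le (f := fun a => ⟪y, a⟫_ℝ)
        ⟨fun u v => inner_add_right _ _ _, fun c u => inner_smul_right _ _ _⟩ _
  exact hsub ha

variable [CompleteSpace H]

/-- the Riesz representative of a dual vector. -/
noncomputable def riesz (φ : DualSphere H) : H := (InnerProductSpace.toDual ℝ H).symm φ.1

lemma norm_riesz (φ : DualSphere H) : ‖riesz φ‖ = 1 := by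
  unfold riesz
  rw [LinearIsometryEquiv.norm_map]
  simp

lemma riesz_apply (φ : DualSphere H) (a : H) : φ.1 a = ⟪riesz φ, a⟫_ℝ := by
  unfold riesz
  rw [InnerProductSpace.toDual_symm_apply]

/-- the modified ball as an element of `BC(H)`. -/
noncomputable def modBC [Nontrivial H] (S : H ≃ₗᵢ[ℝ] H) (σ : {σ : ℝ // |σ| ≤ 1}) : BCSet H where
  carrier := modBall S σ.1
  nonempty' := by
    obtain ⟨z, hz⟩ := NormedSpace.sphere_nonempty (E := H) (x := 0) (r := 1) |>.mpr zero_le_one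
    exact ⟨pt S σ.1 z, subset_convexHull _ _ ⟨z, hz, rfl⟩⟩
  bounded' := Metric.isBounded_closedBall.subset (modBall_subset S σ.2)
  convex' := convex_convexHull _ _

lemma suppFun_modBC [Nontrivial H] (S : H ≃ₗᵢ[ℝ] H) (hS : ∀ x y, ⟪S x, y⟫_ℝ = ⟪x, S y⟫_ℝ)
    (σ : {σ : ℝ // |σ| ≤ 1}) (φ : DualSphere H) :
    radstrom (modBC S σ) φ = 1 + (σ.1 / 3) * ⟪S (riesz φ), riesz φ⟫_ℝ := by
  rw [radstrom_apply]
  refine IsGreatest.csSup_eq ⟨?_, ?_⟩
  · refine ⟨pt S σ.1 (riesz φ), subset_convexHull _ _ ⟨riesz φ, ?_, rfl⟩, ?_⟩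
    · rw [mem_sphere_zero_iff_norm]; exact norm_riesz φ
    · simp only
      rw [riesz_apply, inner_pt_self S σ.1 (norm_riesz φ)]
  · rintro _ ⟨a, ha, rfl⟩
    simp only
    rw [riesz_apply]
    exact inner_modBall_le S hS σ.2 (norm_riesz φ) ha

/-- the closed unit ball as an element of `BC(H)`. -/
def unitBall (H : Type*) [NormedAddCommGroup H] [InnerProductSpace ℝ H] : BCSet H where
  carrier := Metric.closedBall 0 1
  nonempty' := ⟨0, by simp⟩
  bounded' := Metric.isBounded_closedBall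
  convex' := convex_closedBall _ _

lemma suppFun_unitBall (φ : DualSphere H) : radstrom (unitBall H) φ = 1 := by
  rw [radstrom_apply]
  refine IsGreatest.csSup_eq ⟨?_, ?_⟩
  · refine ⟨riesz φ, ?_, ?_⟩
    · change riesz φ ∈ Metric.closedBall (0 : H) 1
      rw [mem_closedBall_zero_iff]; exact (norm_riesz φ).le
    · simp only
      rw [riesz_apply, real_inner_self_eq_norm_sq, norm_riesz φ]
      norm_num
  · rintro _ ⟨a, ha, rfl⟩
    have ha' : ‖a‖ ≤ 1 := by
      change a ∈ Metric.closedBall (0 : H) 1 at ha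
      rwa [mem_closedBall_zero_iff] at ha
    simp only
    have := apply_le_of_bound (φ := φ.1) ha'
    have hn : ‖φ.1‖ = 1 := by simp
    rw [hn] at this
    linarith

end Hilbert


/-! ### Hilbert spaces are B-convex -/

lemma bconvex_hilbert (H : Type*) [NormedAddCommGroup H] [InnerProductSpace ℝ H] :
    BConvex H := by
  refine ⟨2, le_rfl, 1 / 4, by norm_num, fun x hx => ?_⟩
  have hpar := parallelogram_law_with_norm ℝ (x 0) (x 1)
  have h0 := hx 0
  have h1 := hx 1
  have hsq : ‖x 0 + x 1‖ * ‖x 0 + x 1‖ + ‖x 0 - x 1‖ * ‖x 0 - x 1‖ ≤ 4 := by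
    nlinarith [norm_nonneg (x 0), norm_nonneg (x 1)]
  by_cases h : ‖x 0 + x 1‖ ≤ 3 / 2
  · refine ⟨fun _ => 1, fun _ => Or.inl rfl, ?_⟩
    rw [Fin.sum_univ_two, one_smul, one_smul]
    norm_num
    linarith
  · refine ⟨fun i => if i = 0 then 1 else -1, fun i => ?_, ?_⟩
    · by_cases hi : i = 0
      · left; simp [hi]
      · right; simp [hi]
    · rw [Fin.sum_univ_two]
      simp only [if_true, one_smul, one_ne_zero, if_false, neg_smul]
      rw [← sub_eq_add_neg]
      rw [not_le] at h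
      norm_num
      nlinarith [norm_nonneg (x 0 - x 1)]

/-! ### The reflections of `ℓ²` -/

/-- the standard unit vectors -/
noncomputable def e (m : ℕ) : L2 := lp.single 2 m (1 : ℝ)

lemma inner_e (m : ℕ) (x : L2) : ⟪e m, x⟫_ℝ = x m := by
  unfold e
  rw [lp.inner_single_left]
  simp

lemma e_apply (m n : ℕ) : (e m : ℕ → ℝ) n = if n = m then 1 else 0 := by
  unfold e
  rw [lp.single_apply]
  by_cases h : n = m
  · subst h; simp
  · simp [h]

lemma inner_e_e (m n : ℕ) : ⟪e m, e n⟫_ℝ = if m = n then 1 else 0 := by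
  rw [inner_e, e_apply]

lemma norm_e (m : ℕ) : ‖e m‖ = 1 := by
  have : ‖e m‖ ^ 2 = 1 := by
    rw [← real_inner_self_eq_norm_sq, inner_e_e]
    simp
  nlinarith [norm_nonneg (e m)]

/-- the subspace of vectors whose coordinates with `i`-th binary digit `1` vanish. -/
noncomputable def Ksub (i : ℕ) : Submodule ℝ L2 :=
  (Submodule.span ℝ {x | ∃ m : ℕ, Nat.testBit m i = true ∧ x = e m})ᗮ

instance (i : ℕ) : (Ksub i).HasOrthogonalProjection := by
  unfold Ksub
  infer_instance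

/-- the reflection with `refl i (e m) = (-1)^{(i-th binary digit of m)} e m`. -/
noncomputable def refl (i : ℕ) : L2 ≃ₗᵢ[ℝ] L2 := (Ksub i).reflection

lemma refl_symm (i : ℕ) (x y : L2) : ⟪refl i x, y⟫_ℝ = ⟪x, refl i y⟫_ℝ := by
  have h : refl i (refl i y) = y := Submodule.reflection_reflection (Ksub i) y
  conv_lhs => rw [← h]
  exact (refl i).inner_map_map x (refl i y)

lemma refl_e_true (i m : ℕ) (h : Nat.testBit m i = true) : refl i (e m) = -e m := by
  unfold refl
  refine Submodule.reflection_mem_subspace_orthogonalComplement_eq_neg ?_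
  refine Submodule.le_orthogonal_orthogonal _ ?_
  exact Submodule.subset_span ⟨m, h, rfl⟩

lemma refl_e_false (i m : ℕ) (h : Nat.testBit m i = false) : refl i (e m) = e m := by
  unfold refl
  refine Submodule.reflection_mem_subspace_eq_self ?_
  unfold Ksub
  rw [Submodule.mem_orthogonal]
  intro u hu
  induction hu using Submodule.span_induction with
  | mem x hx =>
    obtain ⟨n, hn, rfl⟩ := hx
    rw [inner_e_e, if_neg]
    rintro rfl
    rw [hn] at h
    exact absurd h (by simp)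
  | zero => simp
  | add x y _ _ hx hy => rw [inner_add_left, hx, hy, add_zero]
  | smul a x _ hx => rw [inner_smul_left, hx, mul_zero]

/-- the sign attached to a coin toss. -/
def sgn (b : Bool) : {σ : ℝ // |σ| ≤ 1} := if b then ⟨1, by simp⟩ else ⟨-1, by simp⟩

/-- the fair coin. -/
noncomputable def coin : Measure Bool :=
  (2⁻¹ : ℝ≥0∞) • Measure.dirac true + (2⁻¹ : ℝ≥0∞) • Measure.dirac false

instance : IsProbabilityMeasure coin := by
  constructor
  unfold coin
  simp [ENNReal.inv_two_add_inv_two]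

/-- the probability space of infinitely many fair coin tosses -/
noncomputable def cantor : Measure (ℕ → Bool) := Measure.infinitePi (fun _ => coin)

instance : IsProbabilityMeasure cantor := by unfold cantor; infer_instance

/-- a nontrivial space -/
instance : Nontrivial L2 := ⟨⟨e 0, 0, fun h => by
  have := norm_e 0
  rw [h, norm_zero] at this
  exact zero_ne_one this⟩⟩

/-- The random sets of the counterexample. -/
noncomputable def PsiEx (n : ℕ) (ω : ℕ → Bool) : BCSet L2 := modBC (refl n) (sgn (ω n))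

lemma psi_isRandomSet (n : ℕ) : RandomBC (PsiEx n) := by
  unfold RandomBC PsiEx
  have h1 : @Measurable Bool (DualSphere L2 →ᵇ ℝ) _ (borel _)
      (fun b => radstrom (modBC (refl n) (sgn b))) :=
    @measurable_from_top _ _ (borel _) _
  exact @Measurable.comp (ℕ → Bool) Bool (DualSphere L2 →ᵇ ℝ) _ _ (borel _) _ _ h1
    (measurable_pi_apply n)

lemma psi_indep : IndepBC cantor PsiEx := by
  unfold IndepBC cantor PsiEx
  refine @iIndepFun_infinitePi ℕ (fun _ => DualSphere L2 →ᵇ ℝ) (fun _ => borel _)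
    (fun _ => Bool) _ (fun _ => coin) _
    (fun n b => radstrom (modBC (refl n) (sgn b))) ?_
  intro n
  exact @measurable_from_top _ _ (borel _) _

lemma psi_bounded : UnifBddBC PsiEx :=
  ⟨2, fun n ω => modBall_subset (refl n) (sgn (ω n)).2⟩

lemma psi_expectation (n : ℕ) : HasExpBC cantor (PsiEx n) (unitBall L2) := by
  have hmp : MeasurePreserving (fun ω : ℕ → Bool => ω n) cantor coin :=
    measurePreserving_eval_infinitePi (fun _ => coin) n
  have hint : Integrable (fun b => radstrom (modBC (refl n) (sgn b))) coin :=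
    Integrable.of_finite
  refine ⟨hmp.integrable_comp_of_integrable hint, ?_⟩
  have h1 : ∫ ω, radstrom (PsiEx n ω) ∂cantor =
      ∫ b, radstrom (modBC (refl n) (sgn b)) ∂coin := by
    rw [← hmp.map_eq, integral_map hmp.measurable.aemeasurable]
    · rfl
    · rw [hmp.map_eq]; exact hint.aestronglyMeasurable
  rw [h1]
  unfold coin
  rw [integral_add_measure, integral_smul_measure, integral_smul_measure, integral_dirac,
    integral_dirac]
  · ext φ
    rw [BoundedContinuousFunction.add_apply, BoundedContinuousFunction.smul_apply,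
      BoundedContinuousFunction.smul_apply, suppFun_modBC _ (refl_symm n),
      suppFun_modBC _ (refl_symm n), suppFun_unitBall]
    simp only [sgn, if_true, Bool.false_eq_true, if_false, ENNReal.toReal_inv,
      ENNReal.toReal_ofNat, smul_eq_mul]
    ring
  · exact Integrable.smul_measure Integrable.of_finite (by simp)
  · exact Integrable.smul_measure Integrable.of_finite (by simp)

lemma pt_e (i m : ℕ) (b : Bool) (h : Nat.testBit m i = !b) :
    pt (refl i) (sgn b).1 (e m) = (4 / 3 : ℝ) • e m := by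
  have hn : ⟪e m, e m⟫_ℝ = 1 := by rw [inner_e_e]; simp
  unfold pt
  cases b with
  | true =>
    rw [refl_e_false i m (by simpa using h), hn]
    simp only [sgn, if_true]
    module
  | false =>
    rw [refl_e_true i m (by simpa using h), inner_neg_left, hn]
    simp only [sgn, Bool.false_eq_true, if_false]
    module

lemma mem_psi (i m : ℕ) (ω : ℕ → Bool) (h : Nat.testBit m i = !(ω i)) :
    (4 / 3 : ℝ) • e m ∈ (PsiEx i ω).carrier := by
  change (4 / 3 : ℝ) • e m ∈ modBall (refl i) (sgn (ω i)).1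
  refine subset_convexHull _ _ ⟨e m, ?_, pt_e i m (ω i) h⟩
  rw [mem_sphere_zero_iff_norm]
  exact norm_e m

lemma avgDist_ge (ω : ℕ → Bool) (n : ℕ) (hn : 1 ≤ n) :
    1 / 3 ≤ avgDistBC PsiEx (unitBall L2) ω n := by
  -- the index with prescribed binary digits
  set m : ℕ := Nat.ofBits (fun i : Fin n => !(ω i)) with hm
  have hbit : ∀ i < n, Nat.testBit m i = !(ω i) := by
    intro i hi
    rw [hm, Nat.testBit_ofBits_lt _ _ hi]
  have hmem : (4 / 3 : ℝ) • e m ∈ (n : ℝ)⁻¹ • ∑ i ∈ Finset.range n, (PsiEx i ω).carrier := by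
    have hsum : ∑ _i ∈ Finset.range n, (4 / 3 : ℝ) • e m ∈
        ∑ i ∈ Finset.range n, (PsiEx i ω).carrier := by
      refine Set.finsetSum_mem_finsetSum _ _ _ (fun i hi => ?_)
      exact mem_psi i m ω (hbit i (Finset.mem_range.mp hi))
    refine ⟨_, hsum, ?_⟩
    have hn0 : (n : ℝ) ≠ 0 := by
      have : n ≠ 0 := by omega
      exact_mod_cast this
    simp only [Finset.sum_const, Finset.card_range]
    rw [← Nat.cast_smul_eq_nsmul ℝ, smul_smul, inv_mul_cancel₀ hn0, one_smul]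
  unfold avgDistBC
  have hne : Metric.hausdorffEDist ((n : ℝ)⁻¹ • ∑ i ∈ Finset.range n, (PsiEx i ω).carrier)
      (unitBall L2).carrier ≠ ⊤ := by
    refine Metric.hausdorffEDist_ne_top_of_nonempty_of_bounded ⟨_, hmem⟩
      (unitBall L2).nonempty' ?_ (unitBall L2).bounded'
    refine Bornology.IsBounded.smul₀ ?_ _
    have : ∀ t : Finset ℕ, Bornology.IsBounded (∑ i ∈ t, (PsiEx i ω).carrier) := by
      intro t
      induction t using Finset.induction_on with
      | empty =>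
        rw [Finset.sum_empty]
        exact Bornology.isBounded_singleton
      | insert a t ha ih =>
        rw [Finset.sum_insert ha]
        exact (PsiEx a ω).bounded'.add ih
    exact this _
  refine le_trans ?_ (Metric.infDist_le_hausdorffDist_of_mem hmem hne)
  rw [Metric.le_infDist (unitBall L2).nonempty']
  intro u hu
  change u ∈ Metric.closedBall (0 : L2) 1 at hu
  rw [mem_closedBall_zero_iff] at hu
  rw [dist_eq_norm]
  have h1 : ‖(4 / 3 : ℝ) • e m‖ = 4 / 3 := by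
    rw [norm_smul, norm_e, mul_one, Real.norm_eq_abs, abs_of_pos (by norm_num)]
  have h2 := norm_sub_norm_le ((4 / 3 : ℝ) • e m) u
  rw [h1] at h2
  linarith

/-- **Negative answer.** In the (B-convex) Hilbert space `ℓ²(ℕ)` there is a uniformly bounded
independent sequence of random sets, all having the closed unit ball as expectation, whose averages
stay at Hausdorff distance at least `1/3` from the unit ball for every `ω` and every `n ≥ 1`; in
particular they do not converge to it for any `ω`. -/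
theorem main :
    CompleteSpace L2 ∧ BConvex L2 ∧
    ∃ (Ω : Type) (_ : MeasurableSpace Ω) (μ : Measure Ω) (_ : IsProbabilityMeasure μ)
      (Ψ : ℕ → Ω → BCSet L2) (U : BCSet L2),
      U.carrier = Metric.closedBall 0 1 ∧
      (∀ n, RandomBC (Ψ n)) ∧ IndepBC μ Ψ ∧ UnifBddBC Ψ ∧
      (∀ n, HasExpBC μ (Ψ n) U) ∧
      (∀ ω, ∀ n, 1 ≤ n → 1 / 3 ≤ avgDistBC Ψ U ω n) ∧
      (∀ ω, ¬ Tendsto (fun n => avgDistBC Ψ U ω n) atTop (𝓝 0)) := by
  refine ⟨inferInstance, bconvex_hilbert L2, ℕ → Bool, inferInstance, cantor, inferInstance, PsiEx,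
    unitBall L2, rfl, psi_isRandomSet, psi_indep, psi_bounded, psi_expectation, avgDist_ge, ?_⟩
  intro ω h
  have h1 : (1 / 3 : ℝ) ≤ 0 := by
    refine ge_of_tendsto h ?_
    filter_upwards [eventually_ge_atTop 1] with n hn
    exact avgDist_ge ω n hn
  norm_num at h1


/-- the embedding `R`, extended by `0` to all sets. -/
noncomputable def Rext {X : Type*} [NormedAddCommGroup X] [NormedSpace ℝ X] (A : Set X) :
    Metric.sphere (0 : StrongDual ℝ X) 1 →ᵇ ℝ := by
  classical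
  exact if h : IsBC A then radstrom ⟨A, h.1, h.2.1, h.2.2⟩ else 0

lemma Rext_carrier {X : Type*} [NormedAddCommGroup X] [NormedSpace ℝ X] (A : BCSet X) :
    Rext A.carrier = radstrom A := by
  unfold Rext
  rw [dif_pos (show IsBC A.carrier from ⟨A.nonempty', A.bounded', A.convex'⟩)]

theorem main' :
    ∃ (X : Type) (_ : NormedAddCommGroup X) (_ : NormedSpace ℝ X) (R : Set X → Z X)
      (Ω : Type) (_ : MeasurableSpace Ω) (μ : Measure Ω) (Ψ : ℕ → Ω → Set X) (U : Set X),
      CompleteSpace X ∧ BConvex X ∧ IsProbabilityMeasure μ ∧ IsRadstrom R ∧ IsBC U ∧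
      (∀ n, IsRandomSet R (Ψ n)) ∧ IndepSets R μ Ψ ∧ UnifBdd Ψ ∧ (∀ n, HasExp R μ (Ψ n) U) ∧
      (∀ ω, ∀ n, 1 ≤ n → 1 / 3 ≤ avgDist Ψ U ω n) ∧
      (∀ ω, ¬ Tendsto (avgDist Ψ U ω) atTop (𝓝 0)) := by
  obtain ⟨h1, h2, Ω, mΩ, μ, hμ, Ψ, U, hU, hrs, hind, hub, hexp, hge, hnot⟩ := main
  refine ⟨L2, inferInstance, inferInstance, Rext, Ω, mΩ, μ, fun n ω => (Ψ n ω).carrier, U.carrier,
    h1, h2, hμ, ?_, ?_, ?_, ?_, hub, ?_, hge, hnot⟩
  · intro A hA φ
    unfold Rext
    rw [dif_pos hA]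
    rfl
  · exact ⟨U.nonempty', U.bounded', U.convex'⟩
  · intro n
    refine ⟨fun ω => ⟨(Ψ n ω).nonempty', (Ψ n ω).bounded', (Ψ n ω).convex'⟩, ?_⟩
    simp only [Rext_carrier]
    exact hrs n
  · unfold IndepSets
    simp only [Rext_carrier]
    exact hind
  · intro n
    unfold HasExp
    simp only [Rext_carrier]
    exact hexp n

end Pool.Agent.Helper97.RS
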