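import Mathlib

/-!
Definitions used in the statement on exploding zero-range processes (MP_773c46_pr).
-/

open MeasureTheory Filter Topology Set
open scoped ENNReal

namespace Pool.Agent.Helper97.ZRP

/-- Sites of `ℤ^d`. -/
abbrev Site (d : ℕ) : Type := Fin d → ℤ

/-- Configurations with finitely many particles. -/
abbrev Conf (d : ℕ) : Type := Site d →₀ ℕ

/-- The configuration `ζ^{x,y}`: one particle moves from `x` to `y`. -/
noncomputable def jump {d : ℕ} (ζ : Conf d) (x y : Site d) : Conf d :=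
  ζ - Finsupp.single x 1 + Finsupp.single y 1

/-- The number of particles. -/
def total {d : ℕ} (ζ : Conf d) : ℕ := ζ.sum (fun _ k => k)

/-- The generator of the zero-range process with rate function `g` and jump kernel `p` (the term
`z = 0` vanishes). -/
noncomputable def gen {d : ℕ} (g : ℕ → ℝ) (p : Site d → ℝ) (f : Conf d → ℝ) (ζ : Conf d) : ℝ :=
  ∑ x ∈ ζ.support, ∑' z : Site d, g (ζ x) * p z * (f (jump ζ x (x + z)) - f ζ)

/-- Admissible rate functions. -/
def IsRate (g : ℕ → ℝ) : Prop := g 0 = 0 ∧ Monotone g ∧ Tendsto g atTop atTop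

/-- Jump kernels. -/
def IsKernel {d : ℕ} (p : Site d → ℝ) : Prop := (∀ z, 0 ≤ p z) ∧ HasSum p 1

/-- The nearest-neighbour property, with all `2d` directions allowed. -/
def IsNearestNeighbour {d : ℕ} (p : Site d → ℝ) : Prop := ∀ z, p z ≠ 0 ↔ ∑ i, |z i| = 1

/-- The box `[-n, n]^d`. -/
noncomputable def box (d n : ℕ) : Finset (Site d) :=
  Fintype.piFinset (fun _ => Finset.Icc (-(n : ℤ)) n)

/-- `ξ` is the restriction of the configuration `η` to the box `[-n, n]^d`. -/
def IsRestriction {d : ℕ} (η : Site d → ℕ) (n : ℕ) (ξ : Conf d) : Prop :=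
  ∀ x, ξ x = if x ∈ box d n then η x else 0

/-- Finite asymptotic density. -/
def FiniteDensity {d : ℕ} (η : Site d → ℕ) : Prop :=
  limsup (fun n : ℕ => ((∑ x ∈ box d n, η x : ℕ) : ℝ≥0∞) / ((2 * n + 1 : ℕ) : ℝ≥0∞) ^ d) atTop < ⊤

/-- `Y` is a zero-range process started from the finite configuration `ξ`, in the following (weak)
sense: `Y` is jointly measurable in `(t, ω)` and the laws of `Y t` solve the Kolmogorov forward
equation (Dynkin's formula), for all observables that are bounded on the configurations having as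
many particles as `ξ`. -/
def IsZRP {d : ℕ} (g : ℕ → ℝ) (p : Site d → ℝ) (ξ : Conf d) {Ω : Type*} [MeasurableSpace Ω]
    (P : Measure Ω) (Y : ℝ → Ω → Conf d) : Prop :=
  (∀ ζ : Conf d, MeasurableSet {q : ℝ × Ω | Y q.1 q.2 = ζ}) ∧
  ∀ f : Conf d → ℝ, (∃ C : ℝ, ∀ ζ, total ζ = total ξ → |f ζ| ≤ C) → ∀ t : ℝ, 0 ≤ t →
    ∫ ω, f (Y t ω) ∂P = f ξ + ∫ s in (0 : ℝ)..t, (∫ ω, gen g p f (Y s ω) ∂P)

end Pool.Agent.Helper97.ZRP
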