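import Pool.Agent.Helper97.ZRPDefs

/-!
# A zero-range process exploding from a configuration of finite asymptotic density: proofs

Dimension `d = 3`, nearest-neighbour kernel with a drift: `p(e_1) = 1/2` and `p(z) = 1/10` for the
other five unit vectors.  Scales `w_0 = 1000`, `w_{j+1} = w_j^8`.  Rate function: `g(0) = 0`,
`g(k) = 1` for `1 ≤ k < w_0`, `g(k) = λ_j = 800 w_j^4` for `w_j ≤ k < w_{j+1}`.
Initial configuration: `4000 w_j^4` particles at each site of the slab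
`{x : x_1 = -w_j^2, |x_2|, |x_3| ≤ 2 w_j}`; all other sites are empty.  The slabs with
`w_j^2 ≤ R` contain at most `200000 R^3` particles, so the asymptotic density is finite.

Proof of explosion.  Start from the restriction to the box of radius `w_j^2`; it has fewer than
`w_{j+1}` particles, so no site ever emits at a rate larger than `λ = λ_j`, and a site holding at
least `n = w_j` particles emits exactly at rate `λ`.  Let `a(x) = ∫_0^1 E g(η_t(x)) dt`.
* Conservation: `E η_1(x) = η_0(x) + ∑_z p(z) a(x - z) - a(x)`.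
* At a site with `η_0(x) ≤ n` the excess `(η_t(x) - n)^+` is dominated by a critical queue:
  its second moment is at most `2 λ t`, so `E η_1(x) ≤ n + 40 w_j^2`.
* A site of the `j`-th slab keeps at least `n` particles: `a(x) ≥ (3/4) λ` there.
Comparing `a` with a quadratic function by the maximum principle on the half space to the right of
the slab gives `a(0) ≥ λ/4`, hence `∫_0^1 P(η_t(0) ≥ w_j) dt ≥ 1/8`.  Now let `j → ∞`.
-/

open MeasureTheory Filter Topology Set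
open scoped ENNReal

namespace Pool.Agent.Helper97.ZRP

instance measConf (d : ℕ) : MeasurableSpace (Conf d) := ⊤

lemma IsZRP.meas {d : ℕ} {g : ℕ → ℝ} {p : Site d → ℝ} {ξ : Conf d} {Ω : Type*}
    [MeasurableSpace Ω] {P : Measure Ω} {Y : ℝ → Ω → Conf d} (h : IsZRP g p ξ P Y) :
    Measurable (fun q : ℝ × Ω => Y q.1 q.2) :=
  measurable_to_countable' (fun ζ => h.1 ζ)

lemma IsZRP.forward {d : ℕ} {g : ℕ → ℝ} {p : Site d → ℝ} {ξ : Conf d} {Ω : Type*}
    [MeasurableSpace Ω] {P : Measure Ω} {Y : ℝ → Ω → Conf d} (h : IsZRP g p ξ P Y) :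
    ∀ f : Conf d → ℝ, (∃ C : ℝ, ∀ ζ, total ζ = total ξ → |f ζ| ≤ C) → ∀ t : ℝ, 0 ≤ t →
    ∫ ω, f (Y t ω) ∂P = f ξ + ∫ s in (0 : ℝ)..t, (∫ ω, gen g p f (Y s ω) ∂P) := h.2

/-- The restriction of a configuration to the box `[-n, n]^d`. -/
noncomputable def trunc {d : ℕ} (η : Site d → ℕ) (n : ℕ) : Conf d :=
  Finsupp.onFinset (box d n) (fun x => if x ∈ box d n then η x else 0) (by
    intro x hx
    by_contra h
    simp [h] at hx)

lemma IsRestriction.eq_trunc {d : ℕ} {η : Site d → ℕ} {n : ℕ} {ξ : Conf d}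
    (h : IsRestriction η n ξ) : ξ = trunc η n := by
  ext x
  rw [h x]
  unfold trunc
  rw [Finsupp.onFinset_apply]

/-- The limiting configuration. -/
noncomputable def limitConf {d : ℕ} {Ω : Type*} (Y : ℕ → ℝ → Ω → Conf d) (t : ℝ) (ω : Ω)
    (x : Site d) : ℕ∞ :=
  ⨆ n, (Y n t ω x : ℕ∞)

/-! ### The kernel -/

/-- the six unit vectors -/
def dirs : Finset (Site 3) :=
  {![1, 0, 0], ![-1, 0, 0], ![0, 1, 0], ![0, -1, 0], ![0, 0, 1], ![0, 0, -1]}

/-- the kernel -/
noncomputable def pk (z : Site 3) : ℝ :=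
  if z = ![1, 0, 0] then 1 / 2 else if z ∈ dirs then 1 / 10 else 0

lemma pk_nonneg (z : Site 3) : 0 ≤ pk z := by
  unfold pk
  split_ifs <;> norm_num

lemma pk_zero_of_notMem {z : Site 3} (hz : z ∉ dirs) : pk z = 0 := by
  unfold pk
  rw [if_neg, if_neg hz]
  rintro rfl
  exact hz (by simp [dirs])

lemma sum_dirs (F : Site 3 → ℝ) : ∑ z ∈ dirs, F z =
    F ![1, 0, 0] + (F ![-1, 0, 0] + (F ![0, 1, 0] + (F ![0, -1, 0] + (F ![0, 0, 1] +
      F ![0, 0, -1])))) := by
  unfold dirs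
  rw [Finset.sum_insert (by decide), Finset.sum_insert (by decide), Finset.sum_insert (by decide),
    Finset.sum_insert (by decide), Finset.sum_insert (by decide), Finset.sum_singleton]

lemma pk_vals : pk ![1, 0, 0] = 1 / 2 ∧ pk ![-1, 0, 0] = 1 / 10 ∧ pk ![0, 1, 0] = 1 / 10 ∧
    pk ![0, -1, 0] = 1 / 10 ∧ pk ![0, 0, 1] = 1 / 10 ∧ pk ![0, 0, -1] = 1 / 10 := by
  unfold pk
  refine ⟨by simp, ?_, ?_, ?_, ?_, ?_⟩ <;>
  · rw [if_neg (by decide), if_pos (by decide)]

lemma sum_pk_mul (F : Site 3 → ℝ) : ∑ z ∈ dirs, pk z * F z =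
    1 / 2 * F ![1, 0, 0] + 1 / 10 * (F ![-1, 0, 0] + F ![0, 1, 0] + F ![0, -1, 0] + F ![0, 0, 1] +
      F ![0, 0, -1]) := by
  obtain ⟨h1, h2, h3, h4, h5, h6⟩ := pk_vals
  rw [sum_dirs, h1, h2, h3, h4, h5, h6]
  ring

lemma sum_pk : ∑ z ∈ dirs, pk z = 1 := by
  have := sum_pk_mul (fun _ => 1)
  simp only [mul_one] at this
  rw [this]; norm_num

lemma isKernel_pk : IsKernel pk := by
  refine ⟨pk_nonneg, ?_⟩
  have : HasSum pk (∑ z ∈ dirs, pk z) :=
    hasSum_sum_of_ne_finset_zero (fun z hz => pk_zero_of_notMem hz)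
  rwa [sum_pk] at this

lemma zero_notMem_dirs : (0 : Site 3) ∉ dirs := by decide


/-! ### The generator on functions of one coordinate -/

lemma total_add {d : ℕ} (ζ ξ : Conf d) : total (ζ + ξ) = total ζ + total ξ := by
  unfold total
  exact Finsupp.sum_add_index' (fun _ => rfl) (fun _ _ _ => rfl)

lemma total_single {d : ℕ} (x : Site d) (k : ℕ) : total (Finsupp.single x k) = k := by
  unfold total
  simp

lemma le_total {d : ℕ} (ζ : Conf d) (x : Site d) : ζ x ≤ total ζ := by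
  unfold total Finsupp.sum
  by_cases hx : x ∈ ζ.support
  · exact Finset.single_le_sum (f := fun x => ζ x) (fun _ _ => Nat.zero_le _) hx
  · rw [Finsupp.notMem_support_iff] at hx
    rw [hx]; exact Nat.zero_le _

lemma total_jump {d : ℕ} {ζ : Conf d} {x : Site d} (hx : x ∈ ζ.support) (y : Site d) :
    total (jump ζ x y) = total ζ := by
  have h1 : 1 ≤ ζ x := Nat.one_le_iff_ne_zero.mpr (Finsupp.mem_support_iff.mp hx)
  have h2 : Finsupp.single x 1 ≤ ζ := by rwa [Finsupp.single_le_iff]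
  have h3 : ζ = (ζ - Finsupp.single x 1) + Finsupp.single x 1 := (tsub_add_cancel_of_le h2).symm
  unfold jump
  conv_rhs => rw [h3]
  rw [total_add, total_add, total_single, total_single]

lemma jump_apply {d : ℕ} {ζ : Conf d} {y z x : Site d} (hz : z ≠ 0) :
    jump ζ y (y + z) x = if y = x then ζ x - 1 else if y + z = x then ζ x + 1 else ζ x := by
  unfold jump
  rw [Finsupp.add_apply, Finsupp.tsub_apply, Finsupp.single_apply, Finsupp.single_apply]
  by_cases h1 : y = x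
  · have h2 : ¬ (y + z = x) := by
      intro h
      rw [h1] at h
      exact hz (by simpa using h)
    simp [h1]
    rw [h1] at h2
    simpa using h2
  · by_cases h2 : y + z = x
    · simp [h1, h2]
    · simp [h1, h2]

lemma gen_pk (g : ℕ → ℝ) (f : Conf 3 → ℝ) (ζ : Conf 3) :
    gen g pk f ζ = ∑ x ∈ ζ.support, ∑ z ∈ dirs, g (ζ x) * pk z * (f (jump ζ x (x + z)) - f ζ) := by
  unfold gen
  refine Finset.sum_congr rfl (fun x _ => ?_)
  refine tsum_eq_sum (fun z hz => ?_)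
  rw [pk_zero_of_notMem hz]
  ring

/-- rate at which particles arrive at `x`. -/
noncomputable def inflow (g : ℕ → ℝ) (ζ : Conf 3) (x : Site 3) : ℝ :=
  ∑ z ∈ dirs, pk z * g (ζ (x - z))

lemma gen_coord {g : ℕ → ℝ} (hg0 : g 0 = 0) (φ : ℕ → ℝ) (x : Site 3) (ζ : Conf 3) :
    gen g pk (fun ζ => φ (ζ x)) ζ =
      inflow g ζ x * (φ (ζ x + 1) - φ (ζ x)) + g (ζ x) * (φ (ζ x - 1) - φ (ζ x)) := by
  rw [gen_pk]
  have hterm : ∀ y ∈ ζ.support, ∀ z ∈ dirs,
      g (ζ y) * pk z * (φ (jump ζ y (y + z) x) - φ (ζ x)) =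
      (if y = x - z then pk z * g (ζ y) * (φ (ζ x + 1) - φ (ζ x)) else 0) +
      (if y = x then pk z * (g (ζ y) * (φ (ζ x - 1) - φ (ζ x))) else 0) := by
    intro y _ z hz
    have hz0 : z ≠ 0 := fun h => zero_notMem_dirs (h ▸ hz)
    rw [jump_apply hz0]
    by_cases h1 : y = x
    · have h2 : ¬ (y = x - z) := by
        intro h
        rw [h1] at h
        exact hz0 (sub_eq_self.mp h.symm)
      rw [if_pos h1, if_neg h2, if_pos h1]
      ring
    · by_cases h2 : y = x - z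
      · have h3 : y + z = x := by rw [h2]; simp
        rw [if_neg h1, if_pos h3, if_pos h2, if_neg h1]
        ring
      · have h3 : ¬ (y + z = x) := by
          intro h
          exact h2 (by rw [← h]; simp)
        rw [if_neg h1, if_neg h3, if_neg h2, if_neg h1]
        ring
  rw [Finset.sum_congr rfl (fun y hy => Finset.sum_congr rfl (fun z hz => hterm y hy z hz))]
  simp_rw [Finset.sum_add_distrib]
  congr 1
  · rw [Finset.sum_comm]
    unfold inflow
    rw [Finset.sum_mul]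
    refine Finset.sum_congr rfl (fun z _ => ?_)
    rw [Finset.sum_ite_eq' ζ.support (x - z)]
    by_cases h : x - z ∈ ζ.support
    · rw [if_pos h]
    · rw [if_neg h]
      rw [Finsupp.notMem_support_iff] at h
      rw [h, hg0]
      ring
  · rw [Finset.sum_comm]
    have : ∀ z ∈ dirs, ∑ y ∈ ζ.support,
        (if y = x then pk z * (g (ζ y) * (φ (ζ x - 1) - φ (ζ x))) else 0) =
        pk z * (g (ζ x) * (φ (ζ x - 1) - φ (ζ x))) := by
      intro z _
      rw [Finset.sum_ite_eq' ζ.support x]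
      by_cases h : x ∈ ζ.support
      · rw [if_pos h]
      · rw [if_neg h]
        rw [Finsupp.notMem_support_iff] at h
        rw [h, hg0]
        ring
    rw [Finset.sum_congr rfl this, ← Finset.sum_mul, sum_pk, one_mul]


lemma gen_total (g : ℕ → ℝ) (φ : ℕ → ℝ) (ζ : Conf 3) :
    gen g pk (fun ζ => φ (total ζ)) ζ = 0 := by
  rw [gen_pk]
  refine Finset.sum_eq_zero (fun x hx => Finset.sum_eq_zero (fun z _ => ?_))
  rw [total_jump hx]
  ring

/-! ### Consequences of the forward equation -/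

section Process

variable {Ω : Type*} [MeasurableSpace Ω] {P : Measure Ω} [IsProbabilityMeasure P]
  {Y : ℝ → Ω → Conf 3} {g : ℕ → ℝ} {ξ : Conf 3}

omit [IsProbabilityMeasure P] in
lemma IsZRP.measurable_comp (h : IsZRP g pk ξ P Y) (F : Conf 3 → ℝ) :
    Measurable (fun q : ℝ × Ω => F (Y q.1 q.2)) :=
  measurable_from_top.comp h.meas

omit [IsProbabilityMeasure P] in
lemma IsZRP.measurable_at (h : IsZRP g pk ξ P Y) (F : Conf 3 → ℝ) (t : ℝ) :
    Measurable (fun ω : Ω => F (Y t ω)) :=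
  (h.measurable_comp F).comp (measurable_const.prodMk measurable_id)

lemma IsZRP.total_ae (h : IsZRP g pk ξ P Y) {t : ℝ} (ht : 0 ≤ t) :
    ∀ᵐ ω ∂P, total (Y t ω) = total ξ := by
  have hf := h.forward (fun ζ => if total ζ = total ξ then (0 : ℝ) else 1)
    ⟨0, fun ζ hζ => by simp [hζ]⟩ t ht
  have hgen : ∀ ζ, gen g pk (fun ζ => if total ζ = total ξ then (0 : ℝ) else 1) ζ = 0 :=
    fun ζ => gen_total g (fun k : ℕ => if k = total ξ then (0 : ℝ) else 1) ζ
  simp only [hgen, integral_zero, intervalIntegral.integral_zero, if_true, add_zero] at hf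
  have hint : Integrable (fun ω => if total (Y t ω) = total ξ then (0 : ℝ) else 1) P := by
    refine Integrable.of_bound
      (h.measurable_at (fun ζ => if total ζ = total ξ then (0 : ℝ) else 1) t).aestronglyMeasurable
      1 (Eventually.of_forall (fun ω => ?_))
    split_ifs <;> simp
  rw [integral_eq_zero_iff_of_nonneg (fun ω => by simp only [Pi.zero_apply]; split_ifs <;> simp)
    hint] at hf
  filter_upwards [hf] with ω hω
  by_contra hne
  simp [hne] at hω

/-- the product of Lebesgue measure on `[0,1]` and `P`. -/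
noncomputable def nu (P : Measure Ω) : Measure (ℝ × Ω) :=
  ((volume : Measure ℝ).restrict (Icc 0 1)).prod P

instance : IsProbabilityMeasure ((volume : Measure ℝ).restrict (Icc 0 1)) :=
  ⟨by simp⟩

instance : IsProbabilityMeasure (nu P) := by unfold nu; infer_instance

lemma IsZRP.total_nu (h : IsZRP g pk ξ P Y) :
    ∀ᵐ q ∂(nu P), total (Y q.1 q.2) = total ξ := by
  have hm : MeasurableSet {q : ℝ × Ω | ¬ (total (Y q.1 q.2) = total ξ)} :=
    h.meas (t := {ζ | ¬ (total ζ = total ξ)}) trivial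
  rw [ae_iff]
  unfold nu
  rw [Measure.measure_prod_null hm]
  filter_upwards [ae_restrict_mem measurableSet_Icc] with s hs
  have := h.total_ae hs.1
  rw [ae_iff] at this
  exact this

/-- boundedness on the relevant configurations -/
def LevelBdd (ξ : Conf 3) (f : Conf 3 → ℝ) : Prop :=
  ∃ C : ℝ, ∀ ζ, total ζ = total ξ → |f ζ| ≤ C

lemma IsZRP.integrable_at (h : IsZRP g pk ξ P Y) {f : Conf 3 → ℝ} (hf : LevelBdd ξ f)
    {t : ℝ} (ht : 0 ≤ t) : Integrable (fun ω => f (Y t ω)) P := by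
  obtain ⟨C, hC⟩ := hf
  refine Integrable.of_bound (h.measurable_at f t).aestronglyMeasurable C ?_
  filter_upwards [h.total_ae ht] with ω hω
  exact hC _ hω

lemma IsZRP.integrable_nu (h : IsZRP g pk ξ P Y) {f : Conf 3 → ℝ} (hf : LevelBdd ξ f) :
    Integrable (fun q => f (Y q.1 q.2)) (nu P) := by
  obtain ⟨C, hC⟩ := hf
  refine Integrable.of_bound (h.measurable_comp f).aestronglyMeasurable C ?_
  filter_upwards [h.total_nu] with ω hω
  exact hC _ hω

lemma IsZRP.forward_one (h : IsZRP g pk ξ P Y) {f : Conf 3 → ℝ} (hf : LevelBdd ξ f)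
    (hgf : LevelBdd ξ (gen g pk f)) :
    ∫ ω, f (Y 1 ω) ∂P = f ξ + ∫ q, gen g pk f (Y q.1 q.2) ∂(nu P) := by
  rw [h.forward f hf 1 zero_le_one, intervalIntegral.integral_of_le zero_le_one,
    ← integral_Icc_eq_integral_Ioc]
  congr 1
  have := integral_prod (μ := (volume : Measure ℝ).restrict (Icc 0 1)) (ν := P)
    (fun q : ℝ × Ω => gen g pk f (Y q.1 q.2)) (h.integrable_nu hgf)
  exact this.symm

lemma IsZRP.forward_le (h : IsZRP g pk ξ P Y) {f : Conf 3 → ℝ} (hf : LevelBdd ξ f)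
    (hgf : LevelBdd ξ (gen g pk f)) {c : ℝ}
    (hc : ∀ ζ, total ζ = total ξ → gen g pk f ζ ≤ c) {t : ℝ} (ht : 0 ≤ t) :
    ∫ ω, f (Y t ω) ∂P ≤ f ξ + c * t := by
  rw [h.forward f hf t ht]
  have hmeas : StronglyMeasurable (fun s : ℝ => ∫ ω, gen g pk f (Y s ω) ∂P) :=
    (h.measurable_comp (gen g pk f)).stronglyMeasurable.integral_prod_right'
  obtain ⟨B, hB⟩ := hgf
  have hbound : ∀ s ∈ Icc 0 t, |∫ ω, gen g pk f (Y s ω) ∂P| ≤ B := by
    intro s hs
    have h1 : ‖∫ ω, gen g pk f (Y s ω) ∂P‖ ≤ B * P.real univ :=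
      norm_integral_le_of_norm_le_const (by
        filter_upwards [h.total_ae hs.1] with ω hω
        exact hB _ hω)
    simpa using h1
  have hint : IntervalIntegrable (fun s : ℝ => ∫ ω, gen g pk f (Y s ω) ∂P) volume 0 t := by
    rw [intervalIntegrable_iff_integrableOn_Icc_of_le ht]
    refine Integrable.of_bound hmeas.aestronglyMeasurable B ?_
    filter_upwards [ae_restrict_mem measurableSet_Icc] with s hs
    exact hbound s hs
  have hle : ∫ s in (0 : ℝ)..t, (∫ ω, gen g pk f (Y s ω) ∂P) ≤ ∫ _s in (0 : ℝ)..t, c := by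
    refine intervalIntegral.integral_mono_on ht hint (by simp) (fun s hs => ?_)
    calc ∫ ω, gen g pk f (Y s ω) ∂P ≤ ∫ _, c ∂P := by
          refine integral_mono_ae (h.integrable_at ⟨B, hB⟩ hs.1) (integrable_const c) ?_
          filter_upwards [h.total_ae hs.1] with ω hω
          exact hc _ hω
      _ = c := by simp
  rw [intervalIntegral.integral_const, sub_zero, smul_eq_mul] at hle
  linarith


/-! ### Bounded observables -/

lemma LevelBdd.add {f f' : Conf 3 → ℝ} (hf : LevelBdd ξ f) (hf' : LevelBdd ξ f') :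
    LevelBdd ξ (fun ζ => f ζ + f' ζ) := by
  obtain ⟨C, hC⟩ := hf
  obtain ⟨C', hC'⟩ := hf'
  exact ⟨C + C', fun ζ hζ => (abs_add_le _ _).trans (add_le_add (hC ζ hζ) (hC' ζ hζ))⟩

lemma LevelBdd.mul {f f' : Conf 3 → ℝ} (hf : LevelBdd ξ f) (hf' : LevelBdd ξ f') :
    LevelBdd ξ (fun ζ => f ζ * f' ζ) := by
  obtain ⟨C, hC⟩ := hf
  obtain ⟨C', hC'⟩ := hf'
  refine ⟨C * C', fun ζ hζ => ?_⟩
  rw [abs_mul]
  exact mul_le_mul (hC ζ hζ) (hC' ζ hζ) (abs_nonneg _) ((abs_nonneg _).trans (hC ζ hζ))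

lemma levelBdd_const (c : ℝ) : LevelBdd ξ (fun _ => c) := ⟨|c|, fun _ _ => le_rfl⟩

lemma LevelBdd.sub {f f' : Conf 3 → ℝ} (hf : LevelBdd ξ f) (hf' : LevelBdd ξ f') :
    LevelBdd ξ (fun ζ => f ζ - f' ζ) := by
  obtain ⟨C, hC⟩ := hf
  obtain ⟨C', hC'⟩ := hf'
  exact ⟨C + C', fun ζ hζ => (abs_sub _ _).trans (add_le_add (hC ζ hζ) (hC' ζ hζ))⟩

lemma LevelBdd.sum {ι : Type*} (t : Finset ι) {f : ι → Conf 3 → ℝ}
    (hf : ∀ i ∈ t, LevelBdd ξ (f i)) : LevelBdd ξ (fun ζ => ∑ i ∈ t, f i ζ) := by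
  classical
  induction t using Finset.induction_on with
  | empty => simpa using levelBdd_const (ξ := ξ) 0
  | insert a t ha ih =>
    simp_rw [Finset.sum_insert ha]
    exact (hf a (Finset.mem_insert_self a t)).add
      (ih (fun i hi => hf i (Finset.mem_insert_of_mem hi)))

lemma levelBdd_coord (φ : ℕ → ℝ) (x : Site 3) : LevelBdd ξ (fun ζ => φ (ζ x)) := by
  refine ⟨∑ k ∈ Finset.range (total ξ + 1), |φ k|, fun ζ hζ => ?_⟩
  refine Finset.single_le_sum (f := fun k => |φ k|) (fun _ _ => abs_nonneg _) ?_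
  rw [Finset.mem_range]
  have := le_total ζ x
  omega

lemma levelBdd_inflow (x : Site 3) : LevelBdd ξ (fun ζ => inflow g ζ x) := by
  unfold inflow
  exact LevelBdd.sum _ (fun z _ => (levelBdd_const _).mul (levelBdd_coord g (x - z)))

lemma levelBdd_gen_coord (hg0 : g 0 = 0) (φ : ℕ → ℝ) (x : Site 3) :
    LevelBdd ξ (gen g pk (fun ζ => φ (ζ x))) := by
  have : gen g pk (fun ζ => φ (ζ x)) = fun ζ =>
      inflow g ζ x * (φ (ζ x + 1) - φ (ζ x)) + g (ζ x) * (φ (ζ x - 1) - φ (ζ x)) := by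
    funext ζ
    exact gen_coord hg0 φ x ζ
  rw [this]
  exact ((levelBdd_inflow x).mul (levelBdd_coord (fun k => φ (k + 1) - φ k) x)).add
    ((levelBdd_coord g x).mul (levelBdd_coord (fun k => φ (k - 1) - φ k) x))

/-- the expected activity at a site during `[0,1]`. -/
noncomputable def act (g : ℕ → ℝ) (P : Measure Ω) (Y : ℝ → Ω → Conf 3) (x : Site 3) : ℝ :=
  ∫ q, g (Y q.1 q.2 x) ∂(nu P)

lemma IsZRP.balance (h : IsZRP g pk ξ P Y) (hg0 : g 0 = 0) (x : Site 3) :
    ∫ ω, (Y 1 ω x : ℝ) ∂P = ξ x + (∑ z ∈ dirs, pk z * act g P Y (x - z)) - act g P Y x := by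
  rw [h.forward_one (f := fun ζ => ((ζ x : ℕ) : ℝ)) (levelBdd_coord (fun k => (k : ℝ)) x)
    (levelBdd_gen_coord hg0 (fun k => (k : ℝ)) x)]
  have hgen : ∀ ζ : Conf 3, gen g pk (fun ζ => ((ζ x : ℕ) : ℝ)) ζ = inflow g ζ x - g (ζ x) := by
    intro ζ
    rw [gen_coord hg0 (fun k => (k : ℝ)) x ζ]
    by_cases h0 : ζ x = 0
    · rw [h0, hg0]; push_cast; ring
    · have h1 : 1 ≤ ζ x := Nat.one_le_iff_ne_zero.mpr h0
      push_cast [Nat.cast_sub h1]
      ring
  simp only [hgen]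
  rw [integral_sub (h.integrable_nu (levelBdd_inflow x)) (h.integrable_nu (levelBdd_coord g x))]
  have hin : ∫ q, inflow g (Y q.1 q.2) x ∂(nu P) = ∑ z ∈ dirs, pk z * act g P Y (x - z) := by
    unfold inflow act
    rw [integral_finsetSum]
    · refine Finset.sum_congr rfl (fun z _ => ?_)
      rw [integral_const_mul]
    · intro z _
      exact (h.integrable_nu (levelBdd_coord g (x - z))).const_mul _
  rw [hin]
  unfold act
  ring

lemma inflow_le {lam : ℝ} (hle : ∀ k ≤ total ξ, g k ≤ lam) {ζ : Conf 3} (hζ : total ζ = total ξ)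
    (x : Site 3) : inflow g ζ x ≤ lam := by
  unfold inflow
  calc ∑ z ∈ dirs, pk z * g (ζ (x - z)) ≤ ∑ z ∈ dirs, pk z * lam := by
        refine Finset.sum_le_sum (fun z _ => mul_le_mul_of_nonneg_left ?_ (pk_nonneg z))
        exact hle _ ((le_total ζ _).trans hζ.le)
    _ = lam := by rw [← Finset.sum_mul, sum_pk, one_mul]

lemma inflow_nonneg (hnn : ∀ k, 0 ≤ g k) (ζ : Conf 3) (x : Site 3) : 0 ≤ inflow g ζ x :=
  Finset.sum_nonneg (fun z _ => mul_nonneg (pk_nonneg z) (hnn _))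

lemma excess_arith {n k : ℕ} {i lam gk : ℝ} (hi0 : 0 ≤ i) (hi : i ≤ lam)
    (hgk : n ≤ k → gk = lam) :
    i * (((k + 1 - n : ℕ) : ℝ) ^ 2 - ((k - n : ℕ) : ℝ) ^ 2) +
      gk * (((k - 1 - n : ℕ) : ℝ) ^ 2 - ((k - n : ℕ) : ℝ) ^ 2) ≤ 2 * lam := by
  have hlam : 0 ≤ lam := hi0.trans hi
  rcases lt_trichotomy k n with hlt | hEq | hgt
  · have e1 : k + 1 - n = 0 := by omega
    have e2 : k - n = 0 := by omega
    have e3 : k - 1 - n = 0 := by omega
    rw [e1, e2, e3]
    norm_num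
    exact hlam
  · have e1 : k + 1 - n = 1 := by omega
    have e2 : k - n = 0 := by omega
    have e3 : k - 1 - n = 0 := by omega
    rw [e1, e2, e3]
    norm_num
    linarith
  · have hg : gk = lam := hgk hgt.le
    obtain ⟨e, he⟩ : ∃ e, k = n + 1 + e := ⟨k - (n + 1), by omega⟩
    have e1 : k + 1 - n = e + 2 := by omega
    have e2 : k - n = e + 1 := by omega
    have e3 : k - 1 - n = e := by omega
    rw [e1, e2, e3, hg]
    push_cast
    have he0 : (0 : ℝ) ≤ e := Nat.cast_nonneg e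
    have h1 : i * (2 * e + 3) ≤ lam * (2 * e + 3) :=
      mul_le_mul_of_nonneg_right hi (by linarith)
    have h2 : i * (((e : ℝ) + 2) ^ 2 - ((e : ℝ) + 1) ^ 2) = i * (2 * e + 3) := by ring
    have h3 : lam * ((e : ℝ) ^ 2 - ((e : ℝ) + 1) ^ 2) = - lam * (2 * e + 1) := by ring
    rw [h2, h3]
    linarith

/-- second moment of the excess over the level `n`. -/
lemma IsZRP.excess (h : IsZRP g pk ξ P Y) (hg0 : g 0 = 0) (hnn : ∀ k, 0 ≤ g k) {lam : ℝ} {n : ℕ}
    (hle : ∀ k ≤ total ξ, g k ≤ lam) (heq : ∀ k, n ≤ k → k ≤ total ξ → g k = lam)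
    {x : Site 3} (hx : ξ x ≤ n) :
    ∫ ω, ((Y 1 ω x - n : ℕ) : ℝ) ^ 2 ∂P ≤ 2 * lam := by
  have hc : ∀ ζ : Conf 3, total ζ = total ξ →
      gen g pk (fun ζ => ((ζ x - n : ℕ) : ℝ) ^ 2) ζ ≤ 2 * lam := by
    intro ζ hζ
    rw [gen_coord hg0 (fun k : ℕ => ((k - n : ℕ) : ℝ) ^ 2) x ζ]
    exact excess_arith (inflow_nonneg hnn ζ x) (inflow_le hle hζ x)
      (fun hnk => heq _ hnk ((le_total ζ x).trans hζ.le))
  have key := h.forward_le (f := fun ζ => ((ζ x - n : ℕ) : ℝ) ^ 2)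
    (levelBdd_coord (fun k : ℕ => ((k - n : ℕ) : ℝ) ^ 2) x)
    (levelBdd_gen_coord hg0 (fun k : ℕ => ((k - n : ℕ) : ℝ) ^ 2) x) hc zero_le_one
  have h0 : ξ x - n = 0 := Nat.sub_eq_zero_of_le hx
  rw [h0] at key
  refine key.trans ?_
  norm_num

lemma IsZRP.mean_le (h : IsZRP g pk ξ P Y) (hg0 : g 0 = 0) (hnn : ∀ k, 0 ≤ g k) {lam c : ℝ}
    {n : ℕ} (hc : 0 < c) (hlamc : lam ≤ c ^ 2 / 2)
    (hle : ∀ k ≤ total ξ, g k ≤ lam) (heq : ∀ k, n ≤ k → k ≤ total ξ → g k = lam)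
    {x : Site 3} (hx : ξ x ≤ n) :
    ∫ ω, (Y 1 ω x : ℝ) ∂P ≤ n + c := by
  have hex := h.excess hg0 hnn hle heq hx
  have hb1 : LevelBdd ξ (fun ζ => ((ζ x - n : ℕ) : ℝ) ^ 2) :=
    levelBdd_coord (fun k => ((k - n : ℕ) : ℝ) ^ 2) x
  have hb2 : LevelBdd ξ (fun ζ => ((ζ x : ℕ) : ℝ)) := levelBdd_coord (fun k => (k : ℝ)) x
  have i1 := h.integrable_at hb1 zero_le_one
  have i2 := h.integrable_at hb2 zero_le_one
  calc ∫ ω, (Y 1 ω x : ℝ) ∂P
      ≤ ∫ ω, ((n + c / 2) + (1 / (2 * c)) * ((Y 1 ω x - n : ℕ) : ℝ) ^ 2) ∂P := by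
        refine integral_mono i2 ((integrable_const _).add (i1.const_mul _)) (fun ω => ?_)
        simp only
        generalize Y 1 ω x = k
        have h1 : (k : ℝ) ≤ n + ((k - n : ℕ) : ℝ) := by
          have : k ≤ n + (k - n) := by omega
          exact_mod_cast this
        have h2 : ((k - n : ℕ) : ℝ) ≤ c / 2 + (1 / (2 * c)) * ((k - n : ℕ) : ℝ) ^ 2 := by
          set e := ((k - n : ℕ) : ℝ)
          have : c / 2 + (1 / (2 * c)) * e ^ 2 - e = (e - c) ^ 2 / (2 * c) := by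
            field_simp
            ring
          have h3 : 0 ≤ (e - c) ^ 2 / (2 * c) := by positivity
          linarith
        linarith
    _ = (n + c / 2) + (1 / (2 * c)) * ∫ ω, ((Y 1 ω x - n : ℕ) : ℝ) ^ 2 ∂P := by
        rw [integral_add (integrable_const _) (i1.const_mul _), integral_const_mul]
        simp
    _ ≤ (n + c / 2) + (1 / (2 * c)) * (2 * lam) := by
        have : 0 ≤ 1 / (2 * c) := by positivity
        have := mul_le_mul_of_nonneg_left hex this
        linarith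
    _ ≤ n + c := by
        have h1 : (1 / (2 * c)) * (2 * lam) = lam / c := by field_simp
        have h2 : lam / c ≤ c / 2 := by
          rw [div_le_iff₀ hc]; nlinarith
        rw [h1]
        linarith

lemma source_arith {m k : ℕ} {i lam gk : ℝ} (hi0 : 0 ≤ i) (hgk0 : 0 ≤ gk) (hgk : gk ≤ lam) :
    i * (((m - (k + 1) : ℕ) : ℝ) - ((m - k : ℕ) : ℝ)) +
      gk * (((m - (k - 1) : ℕ) : ℝ) - ((m - k : ℕ) : ℝ)) ≤ lam := by
  have h1 : ((m - (k + 1) : ℕ) : ℝ) - ((m - k : ℕ) : ℝ) ≤ 0 := by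
    have : m - (k + 1) ≤ m - k := by omega
    have : ((m - (k + 1) : ℕ) : ℝ) ≤ ((m - k : ℕ) : ℝ) := by exact_mod_cast this
    linarith
  have h2 : ((m - (k - 1) : ℕ) : ℝ) - ((m - k : ℕ) : ℝ) ≤ 1 := by
    have : m - (k - 1) ≤ m - k + 1 := by omega
    have : ((m - (k - 1) : ℕ) : ℝ) ≤ ((m - k : ℕ) : ℝ) + 1 := by exact_mod_cast this
    linarith
  have h3 := mul_nonpos_of_nonneg_of_nonpos hi0 h1
  have h4 : gk * (((m - (k - 1) : ℕ) : ℝ) - ((m - k : ℕ) : ℝ)) ≤ gk * 1 :=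
    mul_le_mul_of_nonneg_left h2 hgk0
  linarith

lemma source_arith2 {m n k : ℕ} {lam gk : ℝ} (hmn : (0 : ℝ) < m - n) (hlam : 0 < lam)
    (hgk0 : 0 ≤ gk) (hgk : n ≤ k → gk = lam) :
    lam * (1 - ((m - k : ℕ) : ℝ) / (m - n)) ≤ gk := by
  by_cases hkn : n ≤ k
  · rw [hgk hkn]
    have h1 : 0 ≤ ((m - k : ℕ) : ℝ) / (m - n) := div_nonneg (Nat.cast_nonneg _) hmn.le
    have h2 : lam * (1 - ((m - k : ℕ) : ℝ) / (m - n)) ≤ lam * 1 :=
      mul_le_mul_of_nonneg_left (by linarith) hlam.le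
    linarith
  · rw [not_le] at hkn
    have h1 : (1 : ℝ) ≤ ((m - k : ℕ) : ℝ) / (m - n) := by
      rw [one_le_div hmn]
      have hnm : n ≤ m := by
        have : (n : ℝ) ≤ m := by linarith
        exact_mod_cast this
      have : (m - n : ℕ) ≤ m - k := by omega
      have : ((m - n : ℕ) : ℝ) ≤ ((m - k : ℕ) : ℝ) := by exact_mod_cast this
      rwa [Nat.cast_sub hnm] at this
    have h2 : lam * (1 - ((m - k : ℕ) : ℝ) / (m - n)) ≤ lam * 0 :=
      mul_le_mul_of_nonneg_left (by linarith) hlam.le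
    linarith

/-- a site holding many particles keeps emitting at full rate. -/
lemma IsZRP.source (h : IsZRP g pk ξ P Y) (hg0 : g 0 = 0) (hnn : ∀ k, 0 ≤ g k) {lam : ℝ}
    {n m : ℕ} (hle : ∀ k ≤ total ξ, g k ≤ lam) (heq : ∀ k, n ≤ k → k ≤ total ξ → g k = lam)
    (hm : n + 4 * lam ≤ m) (hlam : 0 < lam)
    {x : Site 3} (hx : m ≤ ξ x) :
    3 / 4 * lam ≤ act g P Y x := by
  have hb1 : LevelBdd ξ (fun ζ => ((m - ζ x : ℕ) : ℝ)) :=
    levelBdd_coord (fun k => ((m - k : ℕ) : ℝ)) x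
  have hc : ∀ ζ : Conf 3, total ζ = total ξ →
      gen g pk (fun ζ => ((m - ζ x : ℕ) : ℝ)) ζ ≤ lam := by
    intro ζ hζ
    rw [gen_coord hg0 (fun k : ℕ => ((m - k : ℕ) : ℝ)) x ζ]
    exact source_arith (inflow_nonneg hnn ζ x) (hnn _) (hle _ ((le_total ζ x).trans hζ.le))
  have hat : ∀ t : ℝ, 0 ≤ t → t ≤ 1 → ∫ ω, ((m - Y t ω x : ℕ) : ℝ) ∂P ≤ lam := by
    intro t ht ht1
    have key := h.forward_le (f := fun ζ => ((m - ζ x : ℕ) : ℝ)) hb1
      (levelBdd_gen_coord hg0 (fun k : ℕ => ((m - k : ℕ) : ℝ)) x) hc ht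
    have h0 : m - ξ x = 0 := Nat.sub_eq_zero_of_le hx
    rw [h0] at key
    have : lam * t ≤ lam * 1 := mul_le_mul_of_nonneg_left ht1 hlam.le
    refine key.trans ?_
    push_cast
    linarith
  have i1 := h.integrable_nu hb1
  have hnu : ∫ q, ((m - Y q.1 q.2 x : ℕ) : ℝ) ∂(nu P) ≤ lam := by
    unfold nu at i1 ⊢
    rw [integral_prod _ i1]
    calc ∫ s in Icc (0 : ℝ) 1, (∫ ω, ((m - Y s ω x : ℕ) : ℝ) ∂P)
        ≤ ∫ _s in Icc (0 : ℝ) 1, lam := by
          refine setIntegral_mono_on i1.integral_prod_left (integrable_const _)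
            measurableSet_Icc (fun s hs => hat s hs.1 hs.2)
      _ = lam := by simp
  have hmn : (0 : ℝ) < m - n := by linarith
  have hint : Integrable
      (fun q : ℝ × Ω => lam * (1 - ((m - Y q.1 q.2 x : ℕ) : ℝ) / (m - n))) (nu P) :=
    ((integrable_const 1).sub (i1.div_const _)).const_mul _
  have hmono : ∫ q, lam * (1 - ((m - Y q.1 q.2 x : ℕ) : ℝ) / (m - n)) ∂(nu P) ≤
      act g P Y x := by
    unfold act
    refine integral_mono_ae hint (h.integrable_nu (levelBdd_coord g x)) ?_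
    filter_upwards [h.total_nu] with q hq
    exact source_arith2 hmn hlam (hnn _) (fun hnk => heq _ hnk ((le_total _ x).trans hq.le))
  rw [integral_const_mul, integral_sub (integrable_const 1) (i1.div_const _),
    integral_div] at hmono
  simp only [integral_const, probReal_univ, smul_eq_mul, mul_one] at hmono
  have h1 : (∫ q, ((m - Y q.1 q.2 x : ℕ) : ℝ) ∂(nu P)) / (m - n) ≤ 1 / 4 := by
    rw [div_le_iff₀ hmn]
    linarith
  have h2 : lam * (3 / 4) ≤ lam * (1 - (∫ q, ((m - Y q.1 q.2 x : ℕ) : ℝ) ∂(nu P)) / (m - n)) :=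
    mul_le_mul_of_nonneg_left (by linarith) hlam.le
  linarith

end Process


/-! ### The comparison function and the maximum principle -/

/-- the comparison function. -/
noncomputable def bar (lam : ℝ) (w : ℕ) (x : Site 3) : ℝ :=
  lam * (3 / 4 - ((x 0 : ℝ) + (w : ℝ) ^ 2) / (2 * (w : ℝ) ^ 2) -
    ((x 1 : ℝ) ^ 2 + (x 2 : ℝ) ^ 2) / (4 * (w : ℝ) ^ 2))

lemma bar_avg (lam : ℝ) {w : ℕ} (hw : 1 ≤ w) (x : Site 3) :
    ∑ z ∈ dirs, pk z * bar lam w (x - z) = bar lam w x + lam / (10 * (w : ℝ) ^ 2) := by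
  have hw0 : (w : ℝ) ≠ 0 := by
    have : w ≠ 0 := by omega
    exact_mod_cast this
  rw [sum_pk_mul]
  unfold bar
  simp only [Pi.sub_apply, Matrix.cons_val_zero, Matrix.cons_val_one, Matrix.cons_val,
    Int.cast_sub, Int.cast_one, Int.cast_neg, sub_zero]
  field_simp
  ring

lemma max_principle (a : Site 3 → ℝ) {lam ub : ℝ} {w : ℕ} (hw : 1 ≤ w) (hlam : 0 < lam)
    (ha0 : ∀ x, 0 ≤ a x)
    (hS : ∀ x : Site 3, x 0 = -((w : ℤ) ^ 2) → |x 1| ≤ 2 * w → |x 2| ≤ 2 * w →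
      3 / 4 * lam ≤ a x)
    (hbal : ∀ x : Site 3, -((w : ℤ) ^ 2) < x 0 → (∑ z ∈ dirs, pk z * a (x - z)) - ub ≤ a x)
    (hub : ub < lam / (10 * (w : ℝ) ^ 2)) :
    lam / 4 ≤ a 0 := by
  have hw0 : (0 : ℝ) < w := by
    have : 0 < w := by omega
    exact_mod_cast this
  have hw2 : (0 : ℝ) < (w : ℝ) ^ 2 := by positivity
  by_contra hcon
  rw [not_le] at hcon
  set h : Site 3 → ℝ := fun x => bar lam w x - a x with hh
  have hb0 : bar lam w 0 = lam / 4 := by
    unfold bar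
    simp only [Pi.zero_apply, Int.cast_zero]
    field_simp
    ring
  have h0 : 0 < h 0 := by
    simp only [hh, hb0]
    linarith
  -- the box
  set F : Finset (Site 3) := Finset.Icc (![-((w : ℤ) ^ 2), -(2 * (w : ℤ)), -(2 * (w : ℤ))])
    (![(w : ℤ) ^ 2, 2 * (w : ℤ), 2 * (w : ℤ)]) with hF
  have hmemF : ∀ x : Site 3, x ∈ F ↔ ((-((w : ℤ) ^ 2) ≤ x 0 ∧ x 0 ≤ (w : ℤ) ^ 2) ∧
      (-(2 * (w : ℤ)) ≤ x 1 ∧ x 1 ≤ 2 * (w : ℤ)) ∧ (-(2 * (w : ℤ)) ≤ x 2 ∧ x 2 ≤ 2 * (w : ℤ))) := by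
    intro x
    rw [hF, Finset.mem_Icc, Pi.le_def, Pi.le_def]
    simp only [Fin.forall_fin_succ, IsEmpty.forall_iff, and_true]
    simp only [Matrix.cons_val_zero, Fin.succ_zero_eq_one, Matrix.cons_val,
      Matrix.cons_val_one, Fin.isValue, Fin.succ_one_eq_two]
    tauto
  have hwz : (0 : ℤ) ≤ w := Int.natCast_nonneg w
  have h0F : (0 : Site 3) ∈ F := by
    rw [hmemF]
    simp only [Pi.zero_apply]
    refine ⟨⟨?_, ?_⟩, ⟨?_, ?_⟩, ?_, ?_⟩ <;> nlinarith
  -- outside the box the comparison function is nonpositive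
  have hout : ∀ x : Site 3, -((w : ℤ) ^ 2) ≤ x 0 → x ∉ F → h x ≤ 0 := by
    intro x hx hxF
    have hb : bar lam w x ≤ 0 := by
      unfold bar
      refine mul_nonpos_of_nonneg_of_nonpos hlam.le ?_
      have hx' : -((w : ℝ) ^ 2) ≤ x 0 := by exact_mod_cast hx
      have t1 : 0 ≤ ((x 0 : ℝ) + (w : ℝ) ^ 2) / (2 * (w : ℝ) ^ 2) :=
        div_nonneg (by linarith) (by positivity)
      have t2 : 0 ≤ ((x 1 : ℝ) ^ 2 + (x 2 : ℝ) ^ 2) / (4 * (w : ℝ) ^ 2) := by positivity
      by_cases c1 : x 0 ≤ (w : ℤ) ^ 2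
      · have hor : 2 * (w : ℤ) < |x 1| ∨ 2 * (w : ℤ) < |x 2| := by
          by_contra hno
          rw [not_or, not_lt, not_lt, abs_le, abs_le] at hno
          exact hxF ((hmemF x).mpr ⟨⟨hx, c1⟩, hno.1, hno.2⟩)
        have hsq : (2 * (w : ℝ)) ^ 2 ≤ (x 1 : ℝ) ^ 2 + (x 2 : ℝ) ^ 2 := by
          rcases hor with hc | hc
          · have : (2 * (w : ℤ)) ^ 2 ≤ (x 1) ^ 2 := by
              rw [← sq_abs (x 1)]
              exact pow_le_pow_left₀ (by positivity) hc.le 2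
            have : (2 * (w : ℝ)) ^ 2 ≤ (x 1 : ℝ) ^ 2 := by exact_mod_cast this
            nlinarith [sq_nonneg (x 2 : ℝ)]
          · have : (2 * (w : ℤ)) ^ 2 ≤ (x 2) ^ 2 := by
              rw [← sq_abs (x 2)]
              exact pow_le_pow_left₀ (by positivity) hc.le 2
            have : (2 * (w : ℝ)) ^ 2 ≤ (x 2 : ℝ) ^ 2 := by exact_mod_cast this
            nlinarith [sq_nonneg (x 1 : ℝ)]
        have t3 : 1 ≤ ((x 1 : ℝ) ^ 2 + (x 2 : ℝ) ^ 2) / (4 * (w : ℝ) ^ 2) := by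
          rw [one_le_div (by positivity)]
          nlinarith
        linarith
      · rw [not_le] at c1
        have hx'' : ((w : ℝ) ^ 2) ≤ x 0 := by exact_mod_cast c1.le
        have t3 : 1 ≤ ((x 0 : ℝ) + (w : ℝ) ^ 2) / (2 * (w : ℝ) ^ 2) := by
          rw [one_le_div (by positivity)]
          linarith
        linarith
    simp only [hh]
    linarith [ha0 x]
  obtain ⟨y, hyF, hymax⟩ := Finset.exists_max_image F h ⟨0, h0F⟩
  have hy0 : 0 < h y := lt_of_lt_of_le h0 (hymax 0 h0F)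
  have hyF' := (hmemF y).mp hyF
  -- `y` is not on the source plane
  have hyS : -((w : ℤ) ^ 2) < y 0 := by
    rcases hyF'.1.1.lt_or_eq with hlt | hEq
    · exact hlt
    · exfalso
      have hSy := hS y hEq.symm (abs_le.mpr hyF'.2.1) (abs_le.mpr hyF'.2.2)
      have hb : bar lam w y ≤ 3 / 4 * lam := by
        unfold bar
        have hx' : -((w : ℝ) ^ 2) ≤ y 0 := by exact_mod_cast hyF'.1.1
        have t1 : 0 ≤ ((y 0 : ℝ) + (w : ℝ) ^ 2) / (2 * (w : ℝ) ^ 2) :=
          div_nonneg (by linarith) (by positivity)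
        have t2 : 0 ≤ ((y 1 : ℝ) ^ 2 + (y 2 : ℝ) ^ 2) / (4 * (w : ℝ) ^ 2) := by positivity
        rw [mul_comm (3 / 4) lam]
        exact mul_le_mul_of_nonneg_left (by linarith) hlam.le
      have : h y ≤ 0 := by
        simp only [hh]; linarith
      linarith
  have hnb : ∀ z ∈ dirs, h (y - z) ≤ h y := by
    intro z hz
    by_cases hin : y - z ∈ F
    · exact hymax _ hin
    · have hz0 : z 0 ≤ 1 := by
        simp only [dirs, Finset.mem_insert, Finset.mem_singleton] at hz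
        rcases hz with rfl | rfl | rfl | rfl | rfl | rfl <;> simp
      have : -((w : ℤ) ^ 2) ≤ (y - z) 0 := by
        simp only [Pi.sub_apply]
        omega
      exact (hout _ this hin).trans hy0.le
  have hsum : ∑ z ∈ dirs, pk z * h (y - z) ≤ h y := by
    calc ∑ z ∈ dirs, pk z * h (y - z) ≤ ∑ z ∈ dirs, pk z * h y :=
          Finset.sum_le_sum (fun z hz => mul_le_mul_of_nonneg_left (hnb z hz) (pk_nonneg z))
      _ = h y := by rw [← Finset.sum_mul, sum_pk, one_mul]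
  have hb := bar_avg lam hw y
  have ha := hbal y hyS
  have hsplit : ∑ z ∈ dirs, pk z * h (y - z) =
      (∑ z ∈ dirs, pk z * bar lam w (y - z)) - ∑ z ∈ dirs, pk z * a (y - z) := by
    rw [← Finset.sum_sub_distrib]
    refine Finset.sum_congr rfl (fun z _ => ?_)
    simp only [hh]
    ring
  rw [hsplit, hb] at hsum
  simp only [hh] at hsum
  linarith


/-! ### One scale -/

section Scale

variable {Ω : Type*} [MeasurableSpace Ω] {P : Measure Ω} [IsProbabilityMeasure P]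
  {Y : ℝ → Ω → Conf 3} {g : ℕ → ℝ} {ξ : Conf 3}

omit [IsProbabilityMeasure P] in
lemma act_nonneg (hnn : ∀ k, 0 ≤ g k) (x : Site 3) : 0 ≤ act g P Y x :=
  integral_nonneg (fun _ => hnn _)

lemma IsZRP.one_scale (h : IsZRP g pk ξ P Y) (hg0 : g 0 = 0) (hnn : ∀ k, 0 ≤ g k) {n m w : ℕ}
    (hw : 1 ≤ w) (hn : n < 40 * w ^ 2)
    (hle : ∀ k ≤ total ξ, g k ≤ 800 * (w : ℝ) ^ 4)
    (heq : ∀ k, n ≤ k → k ≤ total ξ → g k = 800 * (w : ℝ) ^ 4)
    (hlow : ∀ k < n, g k ≤ 100 * (w : ℝ) ^ 4)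
    (hm : n + 3200 * w ^ 4 ≤ m)
    (hsrc : ∀ x : Site 3, x 0 = -((w : ℤ) ^ 2) → |x 1| ≤ 2 * w → |x 2| ≤ 2 * w → m ≤ ξ x)
    (hrest : ∀ x : Site 3, -((w : ℤ) ^ 2) < x 0 → ξ x ≤ n) :
    1 / 8 ≤ (nu P).real {q | n ≤ Y q.1 q.2 0} := by
  have hw0 : (1 : ℝ) ≤ w := by exact_mod_cast hw
  have hwpos : (0 : ℝ) < (w : ℝ) := by linarith
  set lam : ℝ := 800 * (w : ℝ) ^ 4 with hlamdef
  have hlam : 0 < lam := by positivity
  have hmR : (n : ℝ) + 4 * lam ≤ m := by
    have : ((n + 3200 * w ^ 4 : ℕ) : ℝ) ≤ m := by exact_mod_cast hm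
    push_cast at this
    rw [hlamdef]
    linarith
  have hnR : (n : ℝ) < 40 * (w : ℝ) ^ 2 := by exact_mod_cast hn
  have hmain : lam / 4 ≤ act g P Y 0 := by
    refine max_principle (act g P Y) hw hlam (act_nonneg hnn) ?_ ?_ (ub := n + 40 * (w : ℝ) ^ 2) ?_
    · intro x h0 h1 h2
      exact h.source hg0 hnn hle heq hmR hlam (hsrc x h0 h1 h2)
    · intro x hx
      have hb := h.balance hg0 x
      have hu := h.mean_le hg0 hnn (lam := lam) (c := 40 * (w : ℝ) ^ 2) (n := n) (by positivity)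
        (by rw [hlamdef]; nlinarith) hle heq (hrest x hx)
      have hξ : (0 : ℝ) ≤ ξ x := Nat.cast_nonneg _
      linarith
    · rw [lt_div_iff₀ (by positivity)]
      have h1 : (n + 40 * (w : ℝ) ^ 2) < 80 * (w : ℝ) ^ 2 := by linarith
      have h2 : (0 : ℝ) < 10 * (w : ℝ) ^ 2 := by positivity
      have h3 := mul_lt_mul_of_pos_right h1 h2
      have h4 : 80 * (w : ℝ) ^ 2 * (10 * (w : ℝ) ^ 2) = lam := by rw [hlamdef]; ring
      linarith
  have hmeas : MeasurableSet {q : ℝ × Ω | n ≤ Y q.1 q.2 0} :=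
    h.meas (t := {ζ | n ≤ ζ 0}) trivial
  have hupper : act g P Y 0 ≤ lam / 8 + lam * (nu P).real {q | n ≤ Y q.1 q.2 0} := by
    have e1 : ∫ q, (lam / 8 + lam * ({q : ℝ × Ω | n ≤ Y q.1 q.2 0}).indicator (fun _ => (1 : ℝ)) q)
        ∂(nu P) = lam / 8 + lam * (nu P).real {q | n ≤ Y q.1 q.2 0} := by
      rw [integral_add (integrable_const _), integral_const_mul, integral_indicator_const _ hmeas]
      · simp
      · exact ((integrable_const _).indicator hmeas).const_mul _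
    rw [← e1]
    unfold act
    refine integral_mono_ae (h.integrable_nu (levelBdd_coord g 0))
      ((integrable_const _).add (((integrable_const _).indicator hmeas).const_mul _)) ?_
    filter_upwards [h.total_nu] with q hq
    by_cases hc : n ≤ Y q.1 q.2 0
    · have : q ∈ {q : ℝ × Ω | n ≤ Y q.1 q.2 0} := hc
      simp only [this, Set.indicator_of_mem, mul_one]
      have := hle _ ((le_total (Y q.1 q.2) 0).trans hq.le)
      linarith
    · have : q ∉ {q : ℝ × Ω | n ≤ Y q.1 q.2 0} := hc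
      simp only [this, Set.indicator_of_notMem, not_false_eq_true, mul_zero, add_zero]
      have := hlow _ (not_le.mp hc)
      rw [hlamdef]
      linarith
  have h5 : lam * (1 / 8) ≤ lam * (nu P).real {q | n ≤ Y q.1 q.2 0} := by linarith
  exact le_of_mul_le_mul_left h5 hlam

end Scale


/-! ### The scales, the rate function and the initial configuration -/

/-- the widths of the slabs -/
def wd : ℕ → ℕ
  | 0 => 1000
  | j + 1 => (wd j) ^ 8

lemma wd_ge (j : ℕ) : 1000 ≤ wd j := by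
  induction j with
  | zero => exact le_rfl
  | succ j ih =>
    change 1000 ≤ (wd j) ^ 8
    calc 1000 ≤ wd j := ih
      _ = (wd j) ^ 1 := (pow_one _).symm
      _ ≤ (wd j) ^ 8 := Nat.pow_le_pow_right (by omega) (by norm_num)

lemma wd_succ (j : ℕ) : wd (j + 1) = (wd j) ^ 8 := rfl

lemma wd_strictMono : StrictMono wd := by
  refine strictMono_nat_of_lt_succ (fun j => ?_)
  rw [wd_succ]
  have := wd_ge j
  calc wd j = (wd j) ^ 1 := (pow_one _).symm
    _ < (wd j) ^ 8 := Nat.pow_lt_pow_right (by omega) (by norm_num)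

lemma lt_wd (j : ℕ) : j < wd j := by
  induction j with
  | zero => have := wd_ge 0; omega
  | succ j ih => have := wd_strictMono (Nat.lt_succ_self j); simp only [Nat.succ_eq_add_one] at this; omega

/-- the `j`-th slab -/
def slab (j : ℕ) (x : Site 3) : Prop :=
  x 0 = -((wd j : ℤ) ^ 2) ∧ |x 1| ≤ 2 * wd j ∧ |x 2| ≤ 2 * wd j

instance (j : ℕ) (x : Site 3) : Decidable (slab j x) := by unfold slab; infer_instance

/-- the initial configuration: `4000 w_j ^ 4` particles at each site of the `j`-th slab. -/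
def etaEx (x : Site 3) : ℕ :=
  ∑ j ∈ Finset.range (x 0).natAbs, if slab j x then 4000 * (wd j) ^ 4 else 0

lemma slab_unique {i j : ℕ} {x : Site 3} (hi : slab i x) (hj : slab j x) : i = j := by
  have h : (wd i : ℤ) ^ 2 = (wd j : ℤ) ^ 2 := by
    have h1 := hi.1
    have h2 := hj.1
    linarith
  have h' : (wd i) ^ 2 = (wd j) ^ 2 := by exact_mod_cast h
  have h'' : wd i = wd j := Nat.pow_left_injective (by norm_num : (2 : ℕ) ≠ 0) h'
  exact wd_strictMono.injective h''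

lemma natAbs_slab {j : ℕ} {x : Site 3} (hj : slab j x) : j < (x 0).natAbs := by
  rw [hj.1, Int.natAbs_neg]
  have h1 : ((wd j : ℤ) ^ 2).natAbs = (wd j) ^ 2 := by
    rw [Int.natAbs_pow, Int.natAbs_natCast]
  rw [h1]
  have := lt_wd j
  nlinarith [wd_ge j]

lemma etaEx_slab {j : ℕ} {x : Site 3} (hj : slab j x) : etaEx x = 4000 * (wd j) ^ 4 := by
  unfold etaEx
  rw [Finset.sum_eq_single j]
  · rw [if_pos hj]
  · intro i _ hij
    rw [if_neg]
    intro hi
    exact hij (slab_unique hi hj)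
  · intro hnot
    exact absurd (Finset.mem_range.mpr (natAbs_slab hj)) hnot

lemma etaEx_of_not {x : Site 3} (h : ∀ j, ¬ slab j x) : etaEx x = 0 := by
  unfold etaEx
  exact Finset.sum_eq_zero (fun j _ => if_neg (h j))

lemma etaEx_le (K : ℕ) {x : Site 3} (hK : ∀ j, slab j x → j < K) :
    etaEx x ≤ ∑ j ∈ Finset.range K, if slab j x then 4000 * (wd j) ^ 4 else 0 := by
  by_cases h : ∃ j, slab j x
  · obtain ⟨j, hj⟩ := h
    rw [etaEx_slab hj]
    have := Finset.single_le_sum (f := fun j => if slab j x then 4000 * (wd j) ^ 4 else 0)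
      (fun i _ => Nat.zero_le _) (Finset.mem_range.mpr (hK j hj))
    simpa [hj] using this
  · rw [etaEx_of_not (fun j hj => h ⟨j, hj⟩)]
    exact Nat.zero_le _

lemma mem_box {d n : ℕ} {x : Site d} : x ∈ box d n ↔ ∀ i, -(n : ℤ) ≤ x i ∧ x i ≤ n := by
  unfold box
  rw [Fintype.mem_piFinset]
  simp only [Finset.mem_Icc]

lemma card_slab_le (j R : ℕ) :
    ((box 3 R).filter (fun x => slab j x)).card ≤ (4 * wd j + 1) ^ 2 := by
  have hsub : ((box 3 R).filter (fun x => slab j x)) ⊆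
      Fintype.piFinset (![{-((wd j : ℤ) ^ 2)}, Finset.Icc (-(2 * wd j : ℤ)) (2 * wd j),
        Finset.Icc (-(2 * wd j : ℤ)) (2 * wd j)]) := by
    intro x hx
    rw [Finset.mem_filter] at hx
    obtain ⟨_, h0, h1, h2⟩ := hx
    rw [Fintype.mem_piFinset]
    intro i
    fin_cases i
    · simpa using h0
    · simpa [abs_le] using h1
    · simpa [abs_le] using h2
  refine (Finset.card_le_card hsub).trans ?_
  rw [Fintype.card_piFinset]
  simp only [Fin.prod_univ_three, Matrix.cons_val_zero, Matrix.cons_val_one, Matrix.cons_val,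
    Finset.card_singleton, Int.card_Icc]
  have h1 : (2 * (wd j : ℤ) + 1 - -(2 * (wd j : ℤ))).toNat = 4 * wd j + 1 := by omega
  rw [h1]
  ring_nf
  exact le_rfl

lemma sum_box_le (K R : ℕ) (hK : ∀ j, (wd j) ^ 2 ≤ R → j < K) :
    ∑ x ∈ box 3 R, etaEx x ≤
      100000 * ∑ j ∈ Finset.range K, if (wd j) ^ 2 ≤ R then (wd j) ^ 6 else 0 := by
  have hslabR : ∀ j, ∀ x ∈ box 3 R, slab j x → (wd j) ^ 2 ≤ R := by
    intro j x hx hj
    rw [mem_box] at hx
    have h0 := (hx 0).1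
    rw [hj.1] at h0
    have : ((wd j : ℤ)) ^ 2 ≤ R := by linarith
    exact_mod_cast this
  calc ∑ x ∈ box 3 R, etaEx x
      ≤ ∑ x ∈ box 3 R, ∑ j ∈ Finset.range K, (if slab j x then 4000 * (wd j) ^ 4 else 0) :=
        Finset.sum_le_sum (fun x hx => etaEx_le K (fun j hj => hK j (hslabR j x hx hj)))
    _ = ∑ j ∈ Finset.range K, ∑ x ∈ box 3 R, (if slab j x then 4000 * (wd j) ^ 4 else 0) :=
        Finset.sum_comm
    _ ≤ ∑ j ∈ Finset.range K, 100000 * (if (wd j) ^ 2 ≤ R then (wd j) ^ 6 else 0) := by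
        refine Finset.sum_le_sum (fun j _ => ?_)
        by_cases hR : (wd j) ^ 2 ≤ R
        · rw [if_pos hR, ← Finset.sum_filter, Finset.sum_const, smul_eq_mul]
          have h1 := card_slab_le j R
          have h2 : (4 * wd j + 1) ^ 2 ≤ 25 * (wd j) ^ 2 := by
            have := wd_ge j
            nlinarith
          calc ((box 3 R).filter (fun x => slab j x)).card * (4000 * (wd j) ^ 4)
              ≤ (25 * (wd j) ^ 2) * (4000 * (wd j) ^ 4) := Nat.mul_le_mul_right _ (h1.trans h2)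
            _ = 100000 * (wd j) ^ 6 := by ring
        · rw [if_neg hR]
          refine le_of_eq (Finset.sum_eq_zero (fun x hx => ?_))
          rw [if_neg]
          intro hj
          exact hR (hslabR j x hx hj)
    _ = _ := by rw [Finset.mul_sum]

lemma sum_wd_le (K : ℕ) : ∑ j ∈ Finset.range K, (wd j) ^ 6 ≤ (wd K) ^ 6 := by
  induction K with
  | zero => simp
  | succ K ih =>
    rw [Finset.sum_range_succ]
    have h1 : 2 * (wd K) ^ 6 ≤ (wd (K + 1)) ^ 6 := by
      rw [wd_succ, ← pow_mul]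
      have := wd_ge K
      calc 2 * (wd K) ^ 6 ≤ (wd K) * (wd K) ^ 6 := Nat.mul_le_mul_right _ (by omega)
        _ = (wd K) ^ 7 := by ring
        _ ≤ (wd K) ^ (8 * 6) := Nat.pow_le_pow_right (by omega) (by norm_num)
    omega

lemma sum_wd_filter_le (K R : ℕ) :
    ∑ j ∈ Finset.range K, (if (wd j) ^ 2 ≤ R then (wd j) ^ 6 else 0) ≤ 2 * R ^ 3 := by
  induction K with
  | zero => simp
  | succ K ih =>
    rw [Finset.sum_range_succ]
    by_cases hR : (wd K) ^ 2 ≤ R
    · rw [if_pos hR]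
      have h1 : ∑ j ∈ Finset.range K, (if (wd j) ^ 2 ≤ R then (wd j) ^ 6 else 0) ≤ (wd K) ^ 6 := by
        refine le_trans (Finset.sum_le_sum (fun j _ => ?_)) (sum_wd_le K)
        split_ifs
        · exact le_rfl
        · exact Nat.zero_le _
      have h2 : (wd K) ^ 6 ≤ R ^ 3 := by
        calc (wd K) ^ 6 = ((wd K) ^ 2) ^ 3 := by ring
          _ ≤ R ^ 3 := Nat.pow_le_pow_left hR 3
      omega
    · rw [if_neg hR]
      omega

lemma density_bound (R : ℕ) : ∑ x ∈ box 3 R, etaEx x ≤ 200000 * R ^ 3 := by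
  have hK : ∀ j, (wd j) ^ 2 ≤ R → j < R + 1 := by
    intro j hj
    have h1 := lt_wd j
    have h2 := wd_ge j
    nlinarith
  have h1 := sum_box_le (R + 1) R hK
  have h2 := sum_wd_filter_le (R + 1) R
  calc _ ≤ _ := h1
    _ ≤ 100000 * (2 * R ^ 3) := Nat.mul_le_mul_left _ h2
    _ = 200000 * R ^ 3 := by ring

lemma finiteDensity_etaEx : FiniteDensity etaEx := by
  unfold FiniteDensity
  refine lt_of_le_of_lt (limsup_le_of_le (a := (200000 : ℝ≥0∞)) ?_ ?_) (by simp)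
  · isBoundedDefault
  · refine Eventually.of_forall (fun n => ?_)
    have h1 : ((∑ x ∈ box 3 n, etaEx x : ℕ) : ℝ≥0∞) ≤ 200000 * ((2 * n + 1 : ℕ) : ℝ≥0∞) ^ 3 := by
      have : ∑ x ∈ box 3 n, etaEx x ≤ 200000 * (2 * n + 1) ^ 3 := by
        refine (density_bound n).trans (Nat.mul_le_mul_left _ (Nat.pow_le_pow_left (by omega) 3))
      exact_mod_cast this
    refine ENNReal.div_le_of_le_mul ?_
    exact h1

lemma total_trunc (η : Site 3 → ℕ) (R : ℕ) : total (trunc η R) = ∑ x ∈ box 3 R, η x := by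
  unfold total trunc
  rw [Finsupp.onFinset_sum _ (fun _ => rfl)]
  exact Finset.sum_congr rfl (fun x hx => if_pos hx)

lemma total_trunc_lt (j : ℕ) : total (trunc etaEx ((wd j) ^ 2)) < wd (j + 1) := by
  rw [total_trunc]
  refine lt_of_le_of_lt (density_bound _) ?_
  rw [wd_succ]
  have := wd_ge j
  calc 200000 * ((wd j) ^ 2) ^ 3 = 200000 * (wd j) ^ 6 := by ring
    _ < (wd j) ^ 2 * (wd j) ^ 6 := by
        refine Nat.mul_lt_mul_of_pos_right ?_ (by positivity)
        nlinarith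
    _ = (wd j) ^ 8 := by ring

/-- the values of the rate function -/
def lamSeq : ℕ → ℕ
  | 0 => 1
  | j + 1 => 800 * (wd j) ^ 4

lemma lamSeq_mono : Monotone lamSeq := by
  refine monotone_nat_of_le_succ (fun j => ?_)
  cases j with
  | zero =>
    change 1 ≤ 800 * (wd 0) ^ 4
    have : 0 < (wd 0) ^ 4 := by have := wd_ge 0; positivity
    omega
  | succ j =>
    change 800 * (wd j) ^ 4 ≤ 800 * (wd (j + 1)) ^ 4
    exact Nat.mul_le_mul_left _ (Nat.pow_le_pow_left (wd_strictMono (Nat.lt_succ_self j)).le 4)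

lemma lamSeq_le (j : ℕ) : lamSeq j ≤ 100 * (wd j) ^ 4 := by
  cases j with
  | zero =>
    change 1 ≤ 100 * (wd 0) ^ 4
    have : 0 < (wd 0) ^ 4 := by have := wd_ge 0; positivity
    omega
  | succ j =>
    change 800 * (wd j) ^ 4 ≤ 100 * (wd (j + 1)) ^ 4
    rw [wd_succ, ← pow_mul]
    have := wd_ge j
    have h : 8 * (wd j) ^ 4 ≤ (wd j) ^ (8 * 4) := by
      calc 8 * (wd j) ^ 4 ≤ wd j * (wd j) ^ 4 := Nat.mul_le_mul_right _ (by omega)
        _ = (wd j) ^ 5 := by ring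
        _ ≤ (wd j) ^ (8 * 4) := Nat.pow_le_pow_right (by omega) (by norm_num)
    omega

/-- number of scales below `k`. -/
def scaleCount (k : ℕ) : ℕ := ((Finset.range k).filter (fun j => wd j ≤ k)).card

/-- the rate function: `g 0 = 0`, `g k = 1` for `1 ≤ k < w_0` and `g k = 800 w_j ^ 4` for
`w_j ≤ k < w_{j+1}`. -/
noncomputable def gEx (k : ℕ) : ℝ := if k = 0 then 0 else (lamSeq (scaleCount k) : ℝ)

lemma scaleCount_mono : Monotone scaleCount := by
  intro a b hab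
  unfold scaleCount
  refine Finset.card_le_card (fun j hj => ?_)
  rw [Finset.mem_filter, Finset.mem_range] at hj ⊢
  omega

lemma scaleCount_le {k j : ℕ} (hk : k < wd j) : scaleCount k ≤ j := by
  unfold scaleCount
  have hsub : (Finset.range k).filter (fun j => wd j ≤ k) ⊆ Finset.range j := by
    intro i hi
    rw [Finset.mem_filter] at hi
    rw [Finset.mem_range]
    by_contra hij
    rw [not_lt] at hij
    have := wd_strictMono.monotone hij
    omega
  simpa using Finset.card_le_card hsub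

lemma scaleCount_ge {k j : ℕ} (hk : wd j ≤ k) : j + 1 ≤ scaleCount k := by
  unfold scaleCount
  have hsub : Finset.range (j + 1) ⊆ (Finset.range k).filter (fun j => wd j ≤ k) := by
    intro i hi
    rw [Finset.mem_range] at hi
    rw [Finset.mem_filter, Finset.mem_range]
    have h1 := wd_strictMono.monotone (show i ≤ j by omega)
    have h2 := lt_wd i
    omega
  simpa using Finset.card_le_card hsub

lemma gEx_zero : gEx 0 = 0 := by simp [gEx]

lemma gEx_nonneg (k : ℕ) : 0 ≤ gEx k := by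
  unfold gEx
  split_ifs
  · exact le_rfl
  · exact Nat.cast_nonneg _

lemma gEx_mono : Monotone gEx := by
  intro a b hab
  unfold gEx
  by_cases ha : a = 0
  · rw [if_pos ha]
    split_ifs
    · exact le_rfl
    · exact Nat.cast_nonneg _
  · have hb : b ≠ 0 := by omega
    rw [if_neg ha, if_neg hb]
    exact_mod_cast lamSeq_mono (scaleCount_mono hab)

lemma gEx_le {k j : ℕ} (hk : k < wd (j + 1)) : gEx k ≤ 800 * (wd j : ℝ) ^ 4 := by
  unfold gEx
  split_ifs
  · positivity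
  · have h := lamSeq_mono (scaleCount_le hk)
    change lamSeq (scaleCount k) ≤ 800 * (wd j) ^ 4 at h
    exact_mod_cast h

lemma gEx_eq {k j : ℕ} (hjk : wd j ≤ k) (hk : k < wd (j + 1)) : gEx k = 800 * (wd j : ℝ) ^ 4 := by
  refine le_antisymm (gEx_le hk) ?_
  unfold gEx
  have hk0 : k ≠ 0 := by have := wd_ge j; omega
  rw [if_neg hk0]
  have h := lamSeq_mono (scaleCount_ge hjk)
  change 800 * (wd j) ^ 4 ≤ lamSeq (scaleCount k) at h
  exact_mod_cast h

lemma gEx_low {k j : ℕ} (hk : k < wd j) : gEx k ≤ 100 * (wd j : ℝ) ^ 4 := by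
  unfold gEx
  split_ifs
  · positivity
  · have h := (lamSeq_mono (scaleCount_le hk)).trans (lamSeq_le j)
    exact_mod_cast h

lemma isRate_gEx : IsRate gEx := by
  refine ⟨gEx_zero, gEx_mono, ?_⟩
  refine tendsto_atTop_atTop_of_monotone gEx_mono (fun b => ?_)
  obtain ⟨j, hj⟩ := exists_nat_ge b
  refine ⟨wd j, hj.trans ?_⟩
  rw [gEx_eq le_rfl (wd_strictMono (Nat.lt_succ_self j))]
  have h1 : j ≤ 800 * (wd j) ^ 4 := by
    have h2 := lt_wd j
    have h3 := wd_ge j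
    calc j ≤ wd j := h2.le
      _ = (wd j) ^ 1 := (pow_one _).symm
      _ ≤ (wd j) ^ 4 := Nat.pow_le_pow_right (by omega) (by norm_num)
      _ ≤ 800 * (wd j) ^ 4 := by omega
  exact_mod_cast h1


/-! ### Conclusion -/

section Final

variable {Ω : Type*} [MeasurableSpace Ω] {P : Measure Ω} [IsProbabilityMeasure P]

lemma each_scale {Y : ℝ → Ω → Conf 3} (j : ℕ)
    (h : IsZRP gEx pk (trunc etaEx ((wd j) ^ 2)) P Y) :
    1 / 8 ≤ (nu P).real {q | wd j ≤ Y q.1 q.2 0} := by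
  have hw := wd_ge j
  have htot := total_trunc_lt j
  refine h.one_scale (m := 4000 * (wd j) ^ 4) gEx_zero gEx_nonneg (w := wd j) (by omega) ?_ ?_ ?_ ?_
    ?_ ?_ ?_
  · nlinarith
  · intro k hk
    exact gEx_le (by omega)
  · intro k hk1 hk2
    exact gEx_eq hk1 (by omega)
  · intro k hk
    exact gEx_low hk
  · have : wd j ≤ (wd j) ^ 4 := by
      calc wd j = (wd j) ^ 1 := (pow_one _).symm
        _ ≤ (wd j) ^ 4 := Nat.pow_le_pow_right (by omega) (by norm_num)
    omega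
  · intro x h0 h1 h2
    have hs : slab j x := ⟨h0, h1, h2⟩
    have hbox : x ∈ box 3 ((wd j) ^ 2) := by
      rw [mem_box]
      have hbig : (2 * wd j : ℤ) ≤ ((wd j) ^ 2 : ℕ) := by
        have : 2 * wd j ≤ (wd j) ^ 2 := by nlinarith
        exact_mod_cast this
      rw [abs_le] at h1 h2
      have hpos : (0 : ℤ) ≤ ((wd j) ^ 2 : ℕ) := Int.natCast_nonneg _
      have h0' : x 0 = -(((wd j) ^ 2 : ℕ) : ℤ) := by rw [h0]; push_cast; ring
      intro i
      fin_cases i
      · change -(((wd j) ^ 2 : ℕ) : ℤ) ≤ x 0 ∧ x 0 ≤ (((wd j) ^ 2 : ℕ) : ℤ)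
        rw [h0']
        constructor <;> linarith
      · change -(((wd j) ^ 2 : ℕ) : ℤ) ≤ x 1 ∧ x 1 ≤ (((wd j) ^ 2 : ℕ) : ℤ)
        constructor <;> linarith [h1.1, h1.2]
      · change -(((wd j) ^ 2 : ℕ) : ℤ) ≤ x 2 ∧ x 2 ≤ (((wd j) ^ 2 : ℕ) : ℤ)
        constructor <;> linarith [h2.1, h2.2]
    unfold trunc
    rw [Finsupp.onFinset_apply, if_pos hbox, etaEx_slab hs]
  · intro x hx
    have h1 : trunc etaEx ((wd j) ^ 2) x ≤ etaEx x := by
      unfold trunc
      rw [Finsupp.onFinset_apply]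
      split_ifs
      · exact le_rfl
      · exact Nat.zero_le _
    refine h1.trans ?_
    by_cases hex : ∃ i, slab i x
    · obtain ⟨i, hi⟩ := hex
      rw [etaEx_slab hi]
      have hij : i < j := by
        by_contra hcon
        rw [not_lt] at hcon
        have h2 := wd_strictMono.monotone hcon
        have h3 : (wd j : ℤ) ^ 2 ≤ (wd i : ℤ) ^ 2 := by
          have : (wd j) ^ 2 ≤ (wd i) ^ 2 := Nat.pow_le_pow_left h2 2
          exact_mod_cast this
        rw [hi.1] at hx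
        linarith
      have h4 := wd_strictMono.monotone (show i + 1 ≤ j by omega)
      refine le_trans ?_ h4
      rw [wd_succ]
      have h5 := wd_ge i
      calc 4000 * (wd i) ^ 4 ≤ (wd i) ^ 4 * (wd i) ^ 4 := by
            refine Nat.mul_le_mul_right _ ?_
            calc 4000 ≤ 1000 ^ 4 := by norm_num
              _ ≤ (wd i) ^ 4 := Nat.pow_le_pow_left h5 4
        _ = (wd i) ^ 8 := by ring
    · rw [etaEx_of_not (fun i hi => hex ⟨i, hi⟩)]
      exact Nat.zero_le _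

lemma explosion {Y : ℕ → ℝ → Ω → Conf 3} (h : ∀ n, IsZRP gEx pk (trunc etaEx n) P (Y n)) :
    ∃ t ∈ Icc (0 : ℝ) 1, (1 / 8 : ℝ≥0∞) ≤ P {ω | limitConf Y t ω 0 = ⊤} := by
  set G : ℕ → Set (ℝ × Ω) := fun K => ⋃ n, {q | K ≤ Y n q.1 q.2 0} with hG
  have hGm : ∀ K, MeasurableSet (G K) := fun K =>
    MeasurableSet.iUnion (fun n => (h n).meas (t := {ζ | K ≤ ζ 0}) trivial)
  have hGanti : Antitone G := by
    intro a b hab q hq
    simp only [hG, mem_iUnion, mem_ofPred_eq] at hq ⊢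
    obtain ⟨n, hn⟩ := hq
    exact ⟨n, hab.trans hn⟩
  have hGge : ∀ K, (1 / 8 : ℝ≥0∞) ≤ nu P (G K) := by
    intro K
    have h1 := each_scale K (h ((wd K) ^ 2))
    have h2 : {q : ℝ × Ω | wd K ≤ Y ((wd K) ^ 2) q.1 q.2 0} ⊆ G K := by
      intro q hq
      simp only [hG, mem_iUnion, mem_ofPred_eq] at hq ⊢
      exact ⟨(wd K) ^ 2, (lt_wd K).le.trans hq⟩
    have h3 : ENNReal.ofReal (1 / 8) ≤ nu P {q | wd K ≤ Y ((wd K) ^ 2) q.1 q.2 0} := by
      rw [ENNReal.ofReal_le_iff_le_toReal (measure_ne_top _ _)]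
      exact h1
    have h4 : ENNReal.ofReal (1 / 8) = (1 / 8 : ℝ≥0∞) := by
      rw [ENNReal.ofReal_div_of_pos (by norm_num)]
      simp
    rw [← h4]
    exact h3.trans (measure_mono h2)
  have hInf : (1 / 8 : ℝ≥0∞) ≤ nu P (⋂ K, G K) := by
    rw [hGanti.measure_iInter (fun K => (hGm K).nullMeasurableSet) ⟨0, measure_ne_top _ _⟩]
    exact le_iInf hGge
  have hmeasInf : MeasurableSet (⋂ K, G K) := MeasurableSet.iInter hGm
  unfold nu at hInf
  rw [Measure.prod_apply hmeasInf] at hInf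
  have hnull : ((volume : Measure ℝ).restrict (Icc 0 1)) (Icc 0 1)ᶜ = 0 := by
    rw [Measure.restrict_apply measurableSet_Icc.compl]
    simp
  have hfin : ∫⁻ t, P (Prod.mk t ⁻¹' ⋂ K, G K) ∂((volume : Measure ℝ).restrict (Icc 0 1)) ≠ ∞ := by
    refine ne_top_of_le_ne_top ENNReal.one_ne_top ?_
    calc ∫⁻ t, P (Prod.mk t ⁻¹' ⋂ K, G K) ∂((volume : Measure ℝ).restrict (Icc 0 1))
        ≤ ∫⁻ _t, 1 ∂((volume : Measure ℝ).restrict (Icc 0 1)) :=
          lintegral_mono (fun _ => prob_le_one)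
      _ = 1 := by simp
  obtain ⟨t, ht, hle⟩ := exists_notMem_null_lintegral_le hfin hnull
  have htI : t ∈ Icc (0 : ℝ) 1 := by simpa using ht
  refine ⟨t, htI, hInf.trans (hle.trans (measure_mono (fun ω hω => ?_)))⟩
  simp only [mem_preimage, mem_iInter, hG, mem_iUnion, mem_ofPred_eq] at hω
  change limitConf Y t ω 0 = ⊤
  unfold limitConf
  rw [iSup_eq_top]
  intro b hb
  lift b to ℕ using hb.ne
  obtain ⟨n, hn⟩ := hω (b + 1)
  refine ⟨n, ?_⟩
  exact_mod_cast hn

end Final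

lemma nn_pk : IsNearestNeighbour pk := by
  intro z
  have hiff : z ∈ dirs ↔ ∑ i, |z i| = 1 := by
    rw [Fin.sum_univ_three]
    constructor
    · intro hz
      simp only [dirs, Finset.mem_insert, Finset.mem_singleton] at hz
      rcases hz with rfl | rfl | rfl | rfl | rfl | rfl <;> simp
    · intro hz
      have h0 := abs_nonneg (z 0)
      have h1 := abs_nonneg (z 1)
      have h2 := abs_nonneg (z 2)
      have hz' : z = ![z 0, z 1, z 2] := by
        funext i; fin_cases i <;> rfl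
      have hcases : (|z 0| = 1 ∧ |z 1| = 0 ∧ |z 2| = 0) ∨ (|z 0| = 0 ∧ |z 1| = 1 ∧ |z 2| = 0) ∨
          (|z 0| = 0 ∧ |z 1| = 0 ∧ |z 2| = 1) := by omega
      simp only [dirs, Finset.mem_insert, Finset.mem_singleton]
      rcases hcases with ⟨a, b, c⟩ | ⟨a, b, c⟩ | ⟨a, b, c⟩
      · rw [abs_eq_zero] at b c
        rcases (abs_eq (by norm_num : (0 : ℤ) ≤ 1)).mp a with a | a <;>
          rw [hz', a, b, c] <;> simp
      · rw [abs_eq_zero] at a c
        rcases (abs_eq (by norm_num : (0 : ℤ) ≤ 1)).mp b with b | b <;>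
          rw [hz', a, b, c] <;> simp
      · rw [abs_eq_zero] at a b
        rcases (abs_eq (by norm_num : (0 : ℤ) ≤ 1)).mp c with c | c <;>
          rw [hz', a, b, c] <;> simp
  rw [← hiff]
  constructor
  · intro h
    by_contra hz
    exact h (pk_zero_of_notMem hz)
  · intro hz
    unfold pk
    split_ifs <;> norm_num

/-- The main statement. -/
theorem main' :
    ∃ (g : ℕ → ℝ) (p : Site 3 → ℝ) (η : Site 3 → ℕ),
      IsRate g ∧ IsKernel p ∧ IsNearestNeighbour p ∧ FiniteDensity η ∧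
      ∀ (Ω : Type*) (_ : MeasurableSpace Ω) (P : Measure Ω) (_ : IsProbabilityMeasure P)
        (ξ : ℕ → Conf 3) (Y : ℕ → ℝ → Ω → Conf 3),
        (∀ n, IsRestriction η n (ξ n)) → (∀ n, IsZRP g p (ξ n) P (Y n)) →
        ∃ t : ℝ, 0 ≤ t ∧ t ≤ 1 ∧ (1 / 8 : ℝ≥0∞) ≤ P {ω | ⨆ n, (Y n t ω 0 : ℕ∞) = ⊤} := by
  refine ⟨gEx, pk, etaEx, isRate_gEx, isKernel_pk, nn_pk, finiteDensity_etaEx, ?_⟩
  intro Ω _ P _ ξ Y hξ hY
  have h : ∀ n, IsZRP gEx pk (trunc etaEx n) P (Y n) := by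
    intro n
    rw [← (hξ n).eq_trunc]
    exact hY n
  obtain ⟨t, ht, hP⟩ := explosion h
  exact ⟨t, ht.1, ht.2, hP⟩

end Pool.Agent.Helper97.ZRP
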